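import Pool.Agent.H55.T3.Kdf

/-!
Row Ub: degrees of the cyclotomic fields over `k`. (Mathlib facts.)

PROOF. Cy n := CyclotomicField (p ^ (n + 1)) k.
 (1) deg_dvd: the Galois group of Cy n / k embeds in `(ZMod (p ^ (n + 1)))ˣ` (IsPrimitiveRoot.autToPow, injective), of order `(p - 1) p ^ n`.
 (2) deg_ge: the degree over ℚ of Cy n is divisible by `φ (p ^ (n + 1)) = p ^ n (p - 1)` (minimal polynomial of a primitive root of unity), `finrank ℚ k * finrank k (Cy n) = finrank ℚ (Cy n)`; M := N + padicValNat p (finrank ℚ k).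
-/

set_option autoImplicit false
open scoped Classical

open NumberField

namespace H55E

theorem deg_dvd {p : ℕ} (hp : p.Prime) (k : Type) [Field k] [NumberField k] (n : ℕ) :
    Module.finrank k (CyclotomicField (p ^ (n + 1)) k) ∣ (p - 1) * p ^ n := by
  have hne : NeZero (p ^ (n + 1)) := ⟨pow_ne_zero _ hp.ne_zero⟩
  have hcyc : IsCyclotomicExtension {p ^ (n + 1)} k (CyclotomicField (p ^ (n + 1)) k) := inferInstance
  have hG : IsGalois k (CyclotomicField (p ^ (n + 1)) k) :=
    IsCyclotomicExtension.isGalois {p ^ (n + 1)} k _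
  have hz := IsCyclotomicExtension.zeta_spec (p ^ (n + 1)) k (CyclotomicField (p ^ (n + 1)) k)
  have h1 := Subgroup.card_dvd_of_injective (hz.autToPow k) (hz.autToPow_injective k)
  rw [IsGalois.card_aut_eq_finrank, Nat.card_eq_fintype_card, ZMod.card_units_eq_totient,
    Nat.totient_prime_pow_succ hp, mul_comm] at h1
  exact h1

theorem deg_ge {p : ℕ} (hp : p.Prime) (k : Type) [Field k] [NumberField k] (N : ℕ) :
    ∃ M : ℕ, p ^ N ∣ Module.finrank k (CyclotomicField (p ^ (M + 1)) k) := by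
  have hf : Fact p.Prime := ⟨hp⟩
  have hk0 : Module.finrank ℚ k ≠ 0 := Module.finrank_pos.ne'
  refine ⟨N + padicValNat p (Module.finrank ℚ k), ?_⟩
  generalize hM : N + padicValNat p (Module.finrank ℚ k) = M
  have hne : NeZero (p ^ (M + 1)) := ⟨pow_ne_zero _ hp.ne_zero⟩
  have hcyc : IsCyclotomicExtension {p ^ (M + 1)} k (CyclotomicField (p ^ (M + 1)) k) := inferInstance
  have hnf : NumberField (CyclotomicField (p ^ (M + 1)) k) := inferInstance
  have hC0 : Module.finrank k (CyclotomicField (p ^ (M + 1)) k) ≠ 0 := Module.finrank_pos.ne'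
  have hz := IsCyclotomicExtension.zeta_spec (p ^ (M + 1)) k (CyclotomicField (p ^ (M + 1)) k)
  have h1 := Polynomial.cyclotomic_eq_minpoly_rat hz (Nat.pos_of_ne_zero hne.out)
  have h2 := minpoly.degree_dvd (K := ℚ) (Algebra.IsIntegral.isIntegral
    (IsCyclotomicExtension.zeta (p ^ (M + 1)) k (CyclotomicField (p ^ (M + 1)) k)) : IsIntegral ℚ _)
  rw [← h1, Polynomial.natDegree_cyclotomic, Nat.totient_prime_pow_succ hp,
    ← Module.finrank_mul_finrank ℚ k (CyclotomicField (p ^ (M + 1)) k)] at h2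
  have h3 : p ^ M ∣ Module.finrank ℚ k * Module.finrank k (CyclotomicField (p ^ (M + 1)) k) :=
    (Dvd.intro _ rfl).trans h2
  rw [padicValNat_dvd_iff_le (mul_ne_zero hk0 hC0), padicValNat.mul hk0 hC0] at h3
  rw [padicValNat_dvd_iff_le hC0]
  omega

end H55E
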