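import Pool.Agent.H55.T3.Kdf

/-!
Row Ue: the cyclotomic fields over `k` form a tower. (Mathlib facts.)

PROOF. Cy n := CyclotomicField (p ^ (n + 1)) k. For M ≤ n there is an embedding (k-algebra hom) of Cy M in Cy n: Cy n contains a primitive `p ^ (M + 1)`-th root of unity, so X ^ (p ^ (M + 1)) - 1 splits in it, and Cy M is a splitting field of it.
 The quotient of the degrees is the order of Gal(Cy n / Cy M), which embeds in the kernel of `ZMod.unitsMap : (ZMod (p ^ (n + 1)))ˣ → (ZMod (p ^ (M + 1)))ˣ`, of order p ^ (n - M).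
-/

set_option autoImplicit false
open scoped Classical

open NumberField

namespace H55E

theorem deg_up {p : ℕ} (hp : p.Prime) (k : Type) [Field k] [NumberField k] {M n : ℕ}
    (hMn : M ≤ n) : ∃ φ : CyclotomicField (p ^ (M + 1)) k →ₐ[k] CyclotomicField (p ^ (n + 1)) k,
      ∃ j : ℕ, Module.finrank k (CyclotomicField (p ^ (n + 1)) k) =
        Module.finrank k (CyclotomicField (p ^ (M + 1)) k) * p ^ j := by
  have hneM : NeZero (p ^ (M + 1)) := ⟨pow_ne_zero _ hp.ne_zero⟩
  have hnen : NeZero (p ^ (n + 1)) := ⟨pow_ne_zero _ hp.ne_zero⟩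
  have hcM : IsCyclotomicExtension {p ^ (M + 1)} k (CyclotomicField (p ^ (M + 1)) k) := inferInstance
  have hcn : IsCyclotomicExtension {p ^ (n + 1)} k (CyclotomicField (p ^ (n + 1)) k) := inferInstance
  have hGn : IsGalois k (CyclotomicField (p ^ (n + 1)) k) :=
    IsCyclotomicExtension.isGalois {p ^ (n + 1)} k _
  have hdvd : p ^ (M + 1) ∣ p ^ (n + 1) := pow_dvd_pow _ (by omega)
  have hzn := IsCyclotomicExtension.zeta_spec (p ^ (n + 1)) k (CyclotomicField (p ^ (n + 1)) k)
  have hzM := IsCyclotomicExtension.zeta_spec (p ^ (M + 1)) k (CyclotomicField (p ^ (M + 1)) k)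
  generalize hze : IsCyclotomicExtension.zeta (p ^ (n + 1)) k (CyclotomicField (p ^ (n + 1)) k) = ζ
    at hzn
  generalize hzf : IsCyclotomicExtension.zeta (p ^ (M + 1)) k (CyclotomicField (p ^ (M + 1)) k) = ξ
    at hzM
  have heta : IsPrimitiveRoot (ζ ^ (p ^ (n - M))) (p ^ (M + 1)) :=
    hzn.pow (Nat.pos_of_ne_zero hnen.out) (by rw [← pow_add]; congr 1; omega)
  have hsplit : ((Polynomial.X ^ (p ^ (M + 1)) - 1 : Polynomial k).map
      (algebraMap k (CyclotomicField (p ^ (n + 1)) k))).Splits := by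
    have h := Polynomial.X_pow_sub_one_splits heta
    rw [Polynomial.C_1] at h
    rw [Polynomial.map_sub, Polynomial.map_one, Polynomial.map_pow, Polynomial.map_X]
    exact h
  have hsf : Polynomial.IsSplittingField k (CyclotomicField (p ^ (M + 1)) k)
      (Polynomial.X ^ (p ^ (M + 1)) - 1) :=
    IsCyclotomicExtension.isSplittingField_X_pow_sub_one (p ^ (M + 1)) k _
  let φ : CyclotomicField (p ^ (M + 1)) k →ₐ[k] CyclotomicField (p ^ (n + 1)) k :=
    Polynomial.IsSplittingField.lift _ (Polynomial.X ^ (p ^ (M + 1)) - 1) hsplit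
  refine ⟨φ, ?_⟩
  let _ : Algebra (CyclotomicField (p ^ (M + 1)) k) (CyclotomicField (p ^ (n + 1)) k) :=
    φ.toRingHom.toAlgebra
  have hst : IsScalarTower k (CyclotomicField (p ^ (M + 1)) k) (CyclotomicField (p ^ (n + 1)) k) :=
    IsScalarTower.of_algebraMap_eq' (by
      refine RingHom.ext fun x => ?_
      exact (φ.commutes x).symm)
  have hG2 : IsGalois (CyclotomicField (p ^ (M + 1)) k) (CyclotomicField (p ^ (n + 1)) k) :=
    IsGalois.tower_top_of_isGalois k _ _
  have hfd : FiniteDimensional (CyclotomicField (p ^ (M + 1)) k)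
      (CyclotomicField (p ^ (n + 1)) k) := Module.Finite.of_restrictScalars_finite k _ _
  have hφξ : IsPrimitiveRoot (φ ξ) (p ^ (M + 1)) := hzM.map_of_injective φ.injective
  obtain ⟨i, -, hi⟩ := hφξ.eq_pow_of_pow_eq_one heta.pow_eq_one
  -- the character
  let res : (CyclotomicField (p ^ (n + 1)) k ≃ₐ[CyclotomicField (p ^ (M + 1)) k]
      CyclotomicField (p ^ (n + 1)) k) →*
      (CyclotomicField (p ^ (n + 1)) k ≃ₐ[k] CyclotomicField (p ^ (n + 1)) k) :=
    { toFun := fun g => g.restrictScalars k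
      map_one' := rfl
      map_mul' := fun _ _ => rfl }
  have hres : Function.Injective res := AlgEquiv.restrictScalars_injective k
  let χ := (hzn.autToPow k).comp res
  have hχ : Function.Injective χ := (hzn.autToPow_injective k).comp hres
  have hker : χ.range ≤ (ZMod.unitsMap hdvd).ker := by
    rintro _ ⟨g, rfl⟩
    rw [MonoidHom.mem_ker]
    have h1 : g (ζ ^ (p ^ (n - M))) = ζ ^ (p ^ (n - M)) := by
      rw [← hi]
      have h2 : φ ξ ^ i = algebraMap (CyclotomicField (p ^ (M + 1)) k)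
          (CyclotomicField (p ^ (n + 1)) k) (ξ ^ i) := (map_pow φ ξ i).symm
      rw [h2]
      exact g.commutes _
    have h2 := hzn.autToPow_spec k (res g)
    have h3 : ζ ^ ((hzn.autToPow k (res g) : (ZMod (p ^ (n + 1)))ˣ) : ZMod (p ^ (n + 1))).val = g ζ :=
      h2
    rw [map_pow, ← h3, ← pow_mul, mul_comm, pow_mul] at h1
    have h4 : (ζ ^ (p ^ (n - M))) ^ (((χ g : (ZMod (p ^ (n + 1)))ˣ) :
        ZMod (p ^ (n + 1))).val) = (ζ ^ (p ^ (n - M))) ^ 1 := by
      rw [pow_one]
      exact h1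
    obtain ⟨e, he⟩ := heta.isUnit hneM.out
    rw [← he] at h4
    have heu : IsPrimitiveRoot e (p ^ (M + 1)) := by
      rw [← IsPrimitiveRoot.coe_units_iff, he]
      exact heta
    have h4' : e ^ (((χ g : (ZMod (p ^ (n + 1)))ˣ) : ZMod (p ^ (n + 1))).val) = e ^ 1 :=
      Units.ext (by rw [Units.val_pow_eq_pow_val, Units.val_pow_eq_pow_val]; exact h4)
    have h5 := pow_eq_pow_iff_modEq.mp h4'
    rw [← heu.eq_orderOf, ← ZMod.natCast_eq_natCast_iff, Nat.cast_one, ZMod.natCast_val] at h5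
    refine Units.ext ?_
    rw [ZMod.unitsMap_val, Units.val_one]
    exact h5
  have hcard := Subgroup.card_dvd_of_le hker
  have h1 : Nat.card χ.range = Nat.card (CyclotomicField (p ^ (n + 1)) k
      ≃ₐ[CyclotomicField (p ^ (M + 1)) k] CyclotomicField (p ^ (n + 1)) k) :=
    Nat.card_congr (MonoidHom.ofInjective hχ).toEquiv.symm
  rw [h1, IsGalois.card_aut_eq_finrank] at hcard
  have h2 : Nat.card (ZMod.unitsMap hdvd).ker = p ^ (n - M) := by
    have h3 := (ZMod.unitsMap hdvd).ker.card_mul_index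
    rw [Subgroup.index_ker, MonoidHom.range_eq_top.mpr (ZMod.unitsMap_surjective hdvd),
      Subgroup.card_top, Nat.card_eq_fintype_card (α := (ZMod (p ^ (M + 1)))ˣ),
      Nat.card_eq_fintype_card (α := (ZMod (p ^ (n + 1)))ˣ), ZMod.card_units_eq_totient,
      ZMod.card_units_eq_totient, Nat.totient_prime_pow_succ hp, Nat.totient_prime_pow_succ hp] at h3
    have h4 : 0 < p ^ M * (p - 1) :=
      Nat.mul_pos (pow_pos hp.pos _) (Nat.sub_pos_of_lt hp.one_lt)
    refine Nat.eq_of_mul_eq_mul_right h4 ?_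
    rw [h3, ← mul_assoc, ← pow_add]
    congr 2
    omega
  rw [h2, Nat.dvd_prime_pow hp] at hcard
  obtain ⟨j, -, hj⟩ := hcard
  refine ⟨j, ?_⟩
  rw [← hj]
  exact (Module.finrank_mul_finrank k (CyclotomicField (p ^ (M + 1)) k)
    (CyclotomicField (p ^ (n + 1)) k)).symm

end H55E
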