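import Pool.Agent.H55.T3.Kdf

/-!
Row Uf: a Galois extension of odd degree of a totally real field is totally real: it is unramified at the infinite places, the places below are real.
-/

set_option autoImplicit false
open scoped Classical

open NumberField

namespace H55E

theorem real_odd {L L₁ : Type} [Field L] [NumberField L] [Field L₁] [NumberField L₁]
    [Algebra L L₁] [IsGalois L L₁] (hL : IsTotallyReal L) (hodd : Odd (Module.finrank L L₁)) :
    IsTotallyReal L₁ := by
  have h := IsUnramifiedAtInfinitePlaces_of_odd_finrank (k := L) (K := L₁) hodd
  refine ⟨fun w => ?_⟩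
  have h1 : w.IsUnramified L := h.isUnramified w
  rcases InfinitePlace.isUnramified_iff.mp h1 with h2 | h2
  · exact h2
  · exact absurd (hL.isReal (w.comap (algebraMap L L₁))) (InfinitePlace.not_isReal_iff_isComplex.mpr h2)

end H55E
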