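import Pool.Agent.H55.TE.Ua
import Pool.Agent.H55.TE.Ub
import Pool.Agent.H55.TE.Ue
import Pool.Agent.H55.TE.Uf

/-!
Row Uc (about 170 lines): every layer `L` is contained in a layer `L₁` of high level, of bounded degree if `L ≠ L₁`, which contains one of finitely many fields `K₁` with `[L₁ : K₁]` a power of p.

PROOF. M from deg_ge, `B := (p - 1) * p ^ N`. Given L: an embedding in Cy n; we may take n ≥ M (deg_up). Ω := CyclotomicField (p ^ (n + 1)) k, f : L →ₐ[k] Ω, F := f.fieldRange, finrank k F = finrank k L (AlgEquiv.ofInjectiveField). G cyclic (gal_cyclic).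
 e := finrank k Ω = finrank k (Cy M) * p ^ j (deg_up), e ∣ (p - 1) p ^ n (deg_dvd), p ^ N ∣ finrank k (Cy M). Write `finrank k L = m' * p ^ a` with `¬ p ∣ m'` (Nat.exists_eq_pow_mul_and_not_dvd); m' ∣ p - 1 (coprime to p).
 b := max a N, d₁ := m' * p ^ b; d₁ ∣ e (m' p ^ a ∣ e and m' p ^ N ∣ e: m' is prime to p, divides e, p ^ N ∣ e). F₁ : IntermediateField k Ω of degree d₁ (exists_sub), F ≤ F₁ (sub_le). L₁ := F₁ (the type), Algebra L L₁ by the inclusion of L ≅ F (f with codomain F₁), scalar tower.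
 finrank L L₁ = p ^ (b - a) (finrank k L * finrank L L₁ = finrank k L₁). IsGalois k F₁ (Ω/k abelian: every intermediate field is normal: IsCyclic gives commutative, `IsGalois.of_..` or Normal of a fixed field of a normal subgroup: IntermediateField.normal_iff / IsGalois.of_fixedField_normal_subgroup), so IsGalois L L₁ (tower_top). Odd degree, so totally real (real_odd), it embeds in Ω: Lay p k L₁. If a ≥ N then b = a and finrank k L₁ = finrank k L; otherwise b = N and finrank k L₁ = m' p ^ N ≤ B.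
 d₀ := m' * p ^ N divides finrank k (Cy M) (m' is prime to p and divides e = finrank k (Cy M) * p ^ j, so m' ∣ finrank k (Cy M)). gal_cyclic for Cy M: K₁ : IntermediateField k (Cy M) of degree d₀ (exists_sub). φ : Cy M →ₐ[k] Ω from deg_up; K₁.map φ has degree d₀ ∣ d₁, so it is contained in F₁ (sub_le): K₁ →ₐ[k] L₁ (restrict φ to K₁, codomain F₁). d₁ = d₀ * p ^ (b - N), p ^ N ∣ d₀.
-/

set_option autoImplicit false
open scoped Classical

open NumberField

namespace H55E

/-- the core: `L` embeds in an extension `Ω` with cyclic Galois group -/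
theorem Uc_core {p : ℕ} (hp : p.Prime) (hp2 : p ≠ 2) {k Ω C L : Type} [Field k] [NumberField k]
    [Field Ω] [NumberField Ω] [Field C] [NumberField C] [Field L] [NumberField L]
    [Algebra k Ω] [Algebra k C] [Algebra k L] [IsGalois k Ω] [IsGalois k C]
    (hc : IsCyclic (Ω ≃ₐ[k] Ω)) (hcC : IsCyclic (C ≃ₐ[k] C)) {n j N : ℕ}
    (hdvd : Module.finrank k Ω ∣ (p - 1) * p ^ n)
    (hj : Module.finrank k Ω = Module.finrank k C * p ^ j) (hN : p ^ N ∣ Module.finrank k C)
    (φ : C →ₐ[k] Ω) (f : L →ₐ[k] Ω) (hreal : IsTotallyReal L) :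
    ∃ (L₁ : Type) (_ : Field L₁) (_ : NumberField L₁) (_ : Algebra k L₁)
        (_ : Algebra L L₁) (_ : IsScalarTower k L L₁) (_ : IsGalois L L₁), IsTotallyReal L₁ ∧
        Nonempty (L₁ →ₐ[k] Ω) ∧
        (∃ j : ℕ, Module.finrank L L₁ = p ^ j) ∧
        (Module.finrank k L₁ = Module.finrank k L ∨ Module.finrank k L₁ ≤ (p - 1) * p ^ N) ∧
        ∃ (K₁ : IntermediateField k C) (_ : K₁ →ₐ[k] L₁),
          p ^ N ∣ Module.finrank k K₁ ∧
          ∃ i : ℕ, Module.finrank k L₁ = Module.finrank k K₁ * p ^ i := by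
  have hfΩ : FiniteDimensional k Ω := Module.Finite.of_restrictScalars_finite ℚ k Ω
  have hfC : FiniteDimensional k C := Module.Finite.of_restrictScalars_finite ℚ k C
  have hfL : FiniteDimensional k L := Module.Finite.of_restrictScalars_finite ℚ k L
  haveI : IsAbelianGalois k Ω := IsAbelianGalois.of_isCyclic k Ω
  have hp1 : 2 ≤ p := hp.two_le
  have hppos : 0 < p := hp.pos
  have hΩpos : 0 < Module.finrank k Ω := Module.finrank_pos
  have hLpos : 0 < Module.finrank k L := Module.finrank_pos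
  -- the degrees
  have hFL : Module.finrank k f.fieldRange = Module.finrank k L :=
    (AlgEquiv.ofInjectiveField f).toLinearEquiv.finrank_eq.symm
  have hLΩ : Module.finrank k L ∣ Module.finrank k Ω := by
    rw [← hFL]
    exact ⟨_, (Module.finrank_mul_finrank k f.fieldRange Ω).symm⟩
  obtain ⟨a, m, hm, hD⟩ := Nat.exists_eq_pow_mul_and_not_dvd hLpos.ne' p hp.ne_one
  have hcop : Nat.Coprime m p := ((Nat.Prime.coprime_iff_not_dvd hp).2 hm).symm
  have hmL : m ∣ Module.finrank k L := by rw [hD]; exact dvd_mul_left _ _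
  have haL : p ^ a ∣ Module.finrank k L := by rw [hD]; exact dvd_mul_right _ _
  have hmΩ : m ∣ Module.finrank k Ω := hmL.trans hLΩ
  have hm1 : m ∣ p - 1 :=
    (Nat.Coprime.pow_right n hcop).dvd_of_dvd_mul_right (hmΩ.trans hdvd)
  have hmC : m ∣ Module.finrank k C :=
    (Nat.Coprime.pow_right j hcop).dvd_of_dvd_mul_right (by rw [← hj]; exact hmΩ)
  set b := max a N with hb
  have hbΩ : p ^ b ∣ Module.finrank k Ω := by
    rcases le_total a N with h | h
    · rw [hb, max_eq_right h, hj]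
      exact hN.mul_right _
    · rw [hb, max_eq_left h]
      exact haL.trans hLΩ
  have hd1 : m * p ^ b ∣ Module.finrank k Ω :=
    Nat.Coprime.mul_dvd_of_dvd_of_dvd (Nat.Coprime.pow_right b hcop) hmΩ hbΩ
  have hd0 : m * p ^ N ∣ Module.finrank k C :=
    Nat.Coprime.mul_dvd_of_dvd_of_dvd (Nat.Coprime.pow_right N hcop) hmC hN
  obtain ⟨F₁, hF₁⟩ := exists_sub hc hd1
  obtain ⟨K₁, hK₁⟩ := exists_sub hcC hd0
  have hle : f.fieldRange ≤ F₁ := by
    apply sub_le hc
    rw [hFL, hD, hF₁, mul_comm m]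
    exact Nat.mul_dvd_mul_right (pow_dvd_pow p (le_max_left a N)) m
  have hle' : K₁.map φ ≤ F₁ := by
    apply sub_le hc
    rw [← (K₁.equivMap φ).toLinearEquiv.finrank_eq, hK₁, hF₁]
    exact Nat.mul_dvd_mul_left m (pow_dvd_pow p (le_max_right a N))
  haveI : FiniteDimensional ℚ F₁ := FiniteDimensional.trans ℚ k F₁
  haveI : NumberField F₁ := ⟨⟩
  let g : L →ₐ[k] F₁ := (IntermediateField.inclusion hle).comp (AlgEquiv.ofInjectiveField f).toAlgHom
  letI : Algebra L F₁ := g.toRingHom.toAlgebra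
  haveI : IsScalarTower k L F₁ := IsScalarTower.of_algebraMap_eq fun x => (g.commutes x).symm
  haveI : IsGalois k F₁ := inferInstance
  haveI : IsGalois L F₁ := IsGalois.tower_top_of_isGalois k L F₁
  have hpow : Module.finrank L F₁ = p ^ (b - a) := by
    have h1 : Module.finrank k L * Module.finrank L F₁ = Module.finrank k F₁ :=
      Module.finrank_mul_finrank k L F₁
    rw [hD, hF₁] at h1
    have hab : p ^ b = p ^ a * p ^ (b - a) := by
      rw [← pow_add]
      congr 1
      have := le_max_left a N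
      omega
    have hmpos : 0 < m := Nat.pos_of_ne_zero (by
      rintro rfl
      exact hm (dvd_zero p))
    rw [hab] at h1
    have h2 : 0 < p ^ a * m := Nat.mul_pos (pow_pos hppos a) hmpos
    apply Nat.eq_of_mul_eq_mul_left h2
    rw [h1]
    ring
  have hodd : Odd (Module.finrank L F₁) := by
    rw [hpow]
    exact (hp.odd_of_ne_two hp2).pow
  refine ⟨F₁, inferInstance, inferInstance, inferInstance, inferInstance, inferInstance,
    inferInstance, real_odd hreal hodd, ⟨F₁.val⟩, ⟨b - a, hpow⟩, ?_, K₁,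
    (IntermediateField.inclusion hle').comp (K₁.equivMap φ).toAlgHom, ?_, b - N, ?_⟩
  · rcases le_total a N with h | h
    · right
      rw [hF₁, hb, max_eq_right h]
      exact Nat.mul_le_mul_right _ (Nat.le_of_dvd (by omega) hm1)
    · left
      rw [hF₁, hb, max_eq_left h, hD, mul_comm]
  · rw [hK₁]
    exact dvd_mul_left _ _
  · rw [hF₁, hK₁, mul_assoc, ← pow_add]
    congr 2
    have := le_max_right a N
    omega

theorem layers_over {p : ℕ} (hp : p.Prime) (hp2 : p ≠ 2) (k : Type) [Field k] [NumberField k]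
    (N : ℕ) : ∃ M B : ℕ, ∀ (L : Type) [Field L] [NumberField L] [Algebra k L],
      H55T3.Lay p k L → ∃ (L₁ : Type) (_ : Field L₁) (_ : NumberField L₁) (_ : Algebra k L₁)
        (_ : Algebra L L₁) (_ : IsScalarTower k L L₁) (_ : IsGalois L L₁), H55T3.Lay p k L₁ ∧
        (∃ j : ℕ, Module.finrank L L₁ = p ^ j) ∧
        (Module.finrank k L₁ = Module.finrank k L ∨ Module.finrank k L₁ ≤ B) ∧
        ∃ (K₁ : IntermediateField k (CyclotomicField (p ^ (M + 1)) k)) (_ : K₁ →ₐ[k] L₁),
          p ^ N ∣ Module.finrank k K₁ ∧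
          ∃ i : ℕ, Module.finrank k L₁ = Module.finrank k K₁ * p ^ i := by
  obtain ⟨M, hM⟩ := deg_ge hp k N
  refine ⟨M, (p - 1) * p ^ N, ?_⟩
  intro L _ _ _ hL
  obtain ⟨hreal, n, ⟨f0⟩⟩ := hL
  haveI : NeZero (p ^ (M + 1)) := ⟨(pow_pos hp.pos _).ne'⟩
  haveI : NeZero (p ^ (max n M + 1)) := ⟨(pow_pos hp.pos _).ne'⟩
  obtain ⟨φ0, _, _⟩ := deg_up hp k (M := n) (n := max n M) (le_max_left _ _)
  obtain ⟨φ, j, hj⟩ := deg_up hp k (M := M) (n := max n M) (le_max_right _ _)
  obtain ⟨hG, hc⟩ := gal_cyclic hp hp2 k (max n M)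
  obtain ⟨hGM, hcM⟩ := gal_cyclic hp hp2 k M
  haveI := hG
  haveI := hGM
  obtain ⟨L₁, i1, i2, i3, i4, i5, i6, h1, h2, h3, h4, h5⟩ :=
    Uc_core hp hp2 hc hcM (deg_dvd hp k (max n M)) hj hM φ (φ0.comp f0) hreal
  exact ⟨L₁, i1, i2, i3, i4, i5, i6, ⟨h1, max n M, h2⟩, h3, h4, h5⟩

end H55E
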