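import Pool.Agent.H55.TE.Df

/-!
Row Ud (about 170 lines): from `L₁` down to `L`, `[L₁ : L]` prime to three. Models: `k7` step (3) (Pool/Agent/H55/T3/K7.lean) for the passage between the algebraic closures, K7_one.

PROOF. VB := E.baseChange L₁ = E.map (algebraMap L L₁), hLB : E.map (algebraMap L L₁) = VB := rfl, Ω := AlgebraicClosure L₁, j := jj L L₁, F f := Pool.Agent.H10.trans j (map_jj hLB) f on `Ω ≃ₐ[L] Ω` (IsCoc: isCoc_trans; 3 F = 0), resF hLB f τ = F (τ.restrictScalars L), in ShaZ (isCocycle_res, isLocTriv_res).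
 R from H. For r ∈ R let `P r g` be: g ∈ ShaZ L E, 3 • g σ = 0, ∃ S, 3 • S = 0 ∧ resF hLB g = r + cbd VB S; c r := a choice, else 0. Rep: R.image c. For f ∈ ShaZ L E, 3 • f = 0: resF f = r + cbd S, g := c r: resF f - resF g = cbd (S - S'), so with T := S - S', 3 • T = 0, `D := F f - F g` is a cocycle (IsCoc) on G := Ω ≃ₐ[L] Ω with 3 D = 0 and `D (τ.restrictScalars L) = act τ T - T` for τ over L₁.
 Group cohomology: A := Dn_hom (inv_up hLB) : G →* AddMonoid.End (Points) (as in K7_one), N := the kernel of `AlgEquiv.restrictNormalHom (F := L) (K₁ := Ω) L₁` (normal, of index n = finrank L L₁, prime to three; its elements are the τ.restrictScalars L: K6a_ker, K6a_mk). D' σ := D σ - (A σ T - T): cocycle, 3 D' = 0, D' = 0 on N. So D' (σ ρ) = D' σ and D' (ρ σ) = A ρ (D' σ) for ρ ∈ N; as N is normal ρ σ = σ ρ', so D' σ is fixed by N and D' is constant on cosets.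
 X := ∑ over the cosets q ∈ G ⧸ N of D' q.out: for σ: A σ X = ∑ A σ (D' τ) = ∑ (D' (σ τ) - D' σ) = X - n D' σ. So n D' σ = X - A σ X = A σ (-X) - (-X). n u = 1 + 3 v (or use mem_of_nsmul, I0.lean, for the subgroup of the coboundaries of three-torsion points): D' = ∂ Y, 3 • Y = 0.
 So D σ = A σ (T + Y) - (T + Y) for all σ, and back to the closure of L (step (3) of k7): f τ - g τ = act τ Z - Z, 3 • Z = 0: f = g + cbd E Z.
-/

set_option autoImplicit false
open scoped Classical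

open WeierstrassCurve IsDedekindDomain NumberField WithZero Pool.Agent.H10 Pool.Agent.H11 H55T3

namespace H55E

/-- cocycles trivial on a subgroup of finite index prime to three -/
private theorem Ud_coh {G M : Type*} [Group G] [AddCommGroup M] (A : G →* AddMonoid.End M)
    (N : Subgroup G) [Finite (G ⧸ N)] (h3n : ¬ 3 ∣ Nat.card (G ⧸ N))
    {c : G → M} (hc : ∀ σ τ, c (σ * τ) = c σ + A σ (c τ)) (h3 : ∀ σ, 3 • c σ = 0)
    (hN : ∀ ρ ∈ N, c ρ = 0) : ∃ Y, 3 • Y = 0 ∧ ∀ σ, c σ = A σ Y - Y := by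
  have := Fintype.ofFinite (G ⧸ N)
  obtain ⟨n, hn⟩ : ∃ n, n = Nat.card (G ⧸ N) := ⟨_, rfl⟩
  rw [← hn] at h3n
  have hcard : Finset.univ.card (α := G ⧸ N) = n := by
    rw [Finset.card_univ, hn, Nat.card_eq_fintype_card]
  have hcos : ∀ σ τ : G, (σ : G ⧸ N) = (τ : G ⧸ N) → c σ = c τ := by
    intro σ τ h
    have h1 : σ⁻¹ * τ ∈ N := QuotientGroup.eq.1 h
    have h2 : τ = σ * (σ⁻¹ * τ) := by group
    rw [h2, hc, hN _ h1, map_zero, add_zero]
  obtain ⟨X, hX⟩ : ∃ X, X = ∑ q : G ⧸ N, c q.out := ⟨_, rfl⟩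
  have hX3 : 3 • X = 0 := by
    rw [hX, Finset.smul_sum]
    exact Finset.sum_eq_zero fun q _ => h3 _
  have key : ∀ σ, A σ X = X - n • c σ := by
    intro σ
    have h1 : A σ X = ∑ q : G ⧸ N, (c (σ • q).out - c σ) := by
      rw [hX, map_sum]
      refine Finset.sum_congr rfl fun q _ => ?_
      have h2 : c (σ • q).out = c (σ * q.out) := by
        apply hcos
        rw [QuotientGroup.out_eq']
        have h3 : ((σ * q.out : G) : G ⧸ N) = σ • ((q.out : G) : G ⧸ N) := rfl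
        rw [h3, QuotientGroup.out_eq']
      rw [h2, hc, add_sub_cancel_left]
    rw [h1, Finset.sum_sub_distrib, Finset.sum_const, hcard]
    congr 1
    rw [hX]
    exact Equiv.sum_comp (MulAction.toPerm σ : Equiv.Perm (G ⧸ N)) (fun q => c q.out)
  have hnn : ∀ σ, (n * n) • c σ = c σ := by
    intro σ
    obtain ⟨m, hm⟩ : ∃ m, n * n = 3 * m + 1 := by
      have h1 : n % 3 = 1 ∨ n % 3 = 2 := by omega
      rcases h1 with h1 | h1
      · refine ⟨(n * n) / 3, ?_⟩
        have h2 : (n * n) % 3 = 1 := by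
          rw [Nat.mul_mod, h1]
        omega
      · refine ⟨(n * n) / 3, ?_⟩
        have h2 : (n * n) % 3 = 1 := by
          rw [Nat.mul_mod, h1]
        omega
    rw [hm, add_smul, one_smul, mul_comm, mul_smul, h3, smul_zero, zero_add]
  refine ⟨-(n • X), ?_, fun σ => ?_⟩
  · rw [smul_neg, smul_comm, hX3, smul_zero, neg_zero]
  · rw [← hnn σ, mul_smul]
    have h1 : n • c σ = X - A σ X := by
      rw [key]
      abel
    rw [h1, map_neg, map_nsmul, smul_sub]
    abel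

private theorem Ud_coh' {G M : Type*} [Group G] [AddCommGroup M] (A : G →* AddMonoid.End M)
    (N : Subgroup G) [Finite (G ⧸ N)] (h3n : ¬ 3 ∣ Nat.card (G ⧸ N))
    {c : G → M} (hc : ∀ σ τ, c (σ * τ) = c σ + A σ (c τ)) (h3 : ∀ σ, 3 • c σ = 0)
    {T : M} (hT : 3 • T = 0) (hN : ∀ ρ ∈ N, c ρ = A ρ T - T) :
    ∃ Y, 3 • Y = 0 ∧ ∀ σ, c σ = A σ Y - Y := by
  obtain ⟨Y, hY3, hY⟩ := Ud_coh A N h3n (c := fun σ => c σ - (A σ T - T)) (by
    intro σ τ
    have h1 : A (σ * τ) T = A σ (A τ T) := by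
      rw [map_mul]
      rfl
    rw [hc, h1, map_sub, map_sub]
    abel) (by
    intro σ
    rw [smul_sub, smul_sub, h3, hT, ← map_nsmul, hT, map_zero]
    abel) (by
    intro ρ hρ
    rw [hN ρ hρ, sub_self])
  refine ⟨T + Y, by rw [smul_add, hT, hY3, add_zero], fun σ => ?_⟩
  have h1 := hY σ
  rw [map_add]
  have h2 : c σ = (A σ Y - Y) + (A σ T - T) := by
    rw [← h1]
    abel
  rw [h2]
  abel

/-- back to the closure of `L` -/
private theorem Ud_back {L B : Type} [Field L] [NumberField L] [Field B] [NumberField B]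
    [Algebra L B] {V : WeierstrassCurve L} {VB : WeierstrassCurve B}
    (hLB : V.map (algebraMap L B) = VB) {f f' : Coch L V}
    {T' : (VB.baseChange (AlgebraicClosure B)).toAffine.Point} (hT' : 3 • T' = 0)
    (H : ∀ τ, Pool.Agent.H10.trans (jj L B) (map_jj hLB) f τ =
      Pool.Agent.H10.trans (jj L B) (map_jj hLB) f' τ +
        (Pool.Agent.H10.act (inv_up hLB) τ T' - T')) :
    ∃ T, 3 • T = 0 ∧ f = f' + cbd V T := by
  let j := jj L B
  refine ⟨pm (j.symm : AlgebraicClosure B →+* AlgebraicClosure L) (map_jj_symm hLB) T',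
    by rw [← map_nsmul, hT', map_zero], ?_⟩
  funext τ
  let τ' : AlgebraicClosure B ≃ₐ[L] AlgebraicClosure B := (j.symm.trans τ).trans j
  have hτ' : ∀ z, τ' z = j (τ (j.symm z)) := fun z => rfl
  have e1 : (j.trans τ').trans j.symm = τ := by
    refine AlgEquiv.ext fun y => ?_
    change j.symm (τ' (j y)) = τ y
    rw [hτ', j.symm_apply_apply, j.symm_apply_apply]
  have h1 := H τ'
  have hTT : pm (j : AlgebraicClosure L →+* AlgebraicClosure B) (map_jj hLB)
      (pm (j.symm : AlgebraicClosure B →+* AlgebraicClosure L) (map_jj_symm hLB) T') = T' := by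
    rw [pm_pm]
    exact pm_eq_self _ (fun x => j.apply_symm_apply x) T'
  have hFτ : ∀ f : Coch L V, Pool.Agent.H10.trans (jj L B) (map_jj hLB) f τ' =
      pm (j : AlgebraicClosure L →+* AlgebraicClosure B) (map_jj hLB) (f τ) := by
    intro f
    unfold Pool.Agent.H10.trans
    rw [e1]
  apply pm_injective (j : AlgebraicClosure L →+* AlgebraicClosure B) (map_jj hLB)
  have h6 : pm (j : AlgebraicClosure L →+* AlgebraicClosure B) (map_jj hLB)
      (Pool.Agent.H10.act (inv_bc L V) τ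
        (pm (j.symm : AlgebraicClosure B →+* AlgebraicClosure L) (map_jj_symm hLB) T')) =
      Pool.Agent.H10.act (inv_up hLB) τ' T' := by
    unfold Pool.Agent.H10.act
    rw [pm_pm, pm_pm]
    apply pm_congr
    intro x
    change j (τ (j.symm x)) = τ' x
    rw [hτ']
  rw [hFτ, hFτ] at h1
  change _ = pm (j : AlgebraicClosure L →+* AlgebraicClosure B) (map_jj hLB)
    (f' τ + (Pool.Agent.H10.act (inv_bc L V) τ
      (pm (j.symm : AlgebraicClosure B →+* AlgebraicClosure L) (map_jj_symm hLB) T') -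
      pm (j.symm : AlgebraicClosure B →+* AlgebraicClosure L) (map_jj_symm hLB) T'))
  rw [h1, map_add, map_sub, h6, hTT]

theorem rep3_down {L L₁ : Type} [Field L] [NumberField L] [Field L₁] [NumberField L₁]
    [Algebra L L₁] [IsGalois L L₁] (h3 : ¬ 3 ∣ Module.finrank L L₁) {E : WeierstrassCurve L}
    {n : ℕ} (H : Rep3 L₁ (E.baseChange L₁) n) : Rep3 L E n := by
  obtain ⟨VB, hLB⟩ : ∃ VB, E.map (algebraMap L L₁) = VB := ⟨_, rfl⟩
  have hVB : E.baseChange L₁ = VB := hLB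
  rw [hVB] at H
  obtain ⟨R, hR, HR⟩ := H
  let P : Coch L₁ VB → Coch L E → Prop := fun r g => g ∈ ShaZ L E ∧ (∀ σ, 3 • g σ = 0) ∧
    ∃ S, 3 • S = 0 ∧ resF hLB g = r + cbd VB S
  let c : Coch L₁ VB → Coch L E := fun r => if h : ∃ g, P r g then h.choose else 0
  have hcP : ∀ r, (∃ g, P r g) → P r (c r) := by
    intro r hr
    have h2 : c r = hr.choose := dif_pos hr
    rw [h2]
    exact hr.choose_spec
  refine ⟨R.image c, Finset.card_image_le.trans hR, fun f hf hf3 => ?_⟩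
  have hres3 : ∀ g : Coch L E, (∀ σ, 3 • g σ = 0) → ∀ σ : AlgebraicClosure L₁ ≃ₐ[L] AlgebraicClosure L₁,
      3 • Pool.Agent.H10.trans (jj L L₁) (map_jj hLB) g σ = 0 := by
    intro g hg σ
    unfold Pool.Agent.H10.trans
    rw [← map_nsmul, hg, map_zero]
  obtain ⟨r, hr, S, hS3, hS⟩ := HR (resF hLB f) ⟨isCocycle_res hLB hf.1,
    isLocTriv_res hLB hf.1 hf.2⟩ (fun τ => hres3 f hf3 _)
  obtain ⟨hg, hg3, S', hS3', hS'⟩ := hcP r ⟨f, hf, hf3, S, hS3, hS⟩
  refine ⟨c r, Finset.mem_image_of_mem c hr, ?_⟩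
  obtain ⟨g, hgdef⟩ : ∃ g, g = c r := ⟨_, rfl⟩
  rw [← hgdef] at hg hg3 hS' ⊢
  have hFc : ∀ u ∈ ShaZ L E,
      IsCoc (inv_up hLB) (Pool.Agent.H10.trans (jj L L₁) (map_jj hLB) u) := fun u hu =>
    isCoc_trans (jj L L₁) (map_jj hLB) (h' := inv_up hLB)
      ((Pool.Agent.H10.isCocycle_iff u).1 hu.1)
  have hf1 := hFc f hf
  have hg1 := hFc g hg
  have hker : ∀ τ : AlgebraicClosure L₁ ≃ₐ[L] AlgebraicClosure L₁,
      τ ∈ (AlgEquiv.restrictNormalHom (F := L) (K₁ := AlgebraicClosure L₁) L₁).ker ↔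
      ∀ x : L₁, τ (algebraMap L₁ (AlgebraicClosure L₁) x) =
        algebraMap L₁ (AlgebraicClosure L₁) x :=
    fun τ => K6a_ker τ
  obtain ⟨φ, hφ⟩ : ∃ φ, φ = AlgEquiv.restrictNormalHom (F := L) (K₁ := AlgebraicClosure L₁) L₁ :=
    ⟨_, rfl⟩
  rw [← hφ] at hker
  have hfin : Finite ((AlgebraicClosure L₁ ≃ₐ[L] AlgebraicClosure L₁) ⧸ φ.ker) :=
    Finite.of_equiv _ (QuotientGroup.quotientKerEquivRange φ).symm.toEquiv
  have hcard : ¬ 3 ∣ Nat.card ((AlgebraicClosure L₁ ≃ₐ[L] AlgebraicClosure L₁) ⧸ φ.ker) := by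
    intro h
    apply h3
    rw [Nat.card_congr (QuotientGroup.quotientKerEquivRange φ).toEquiv] at h
    rw [← IsGalois.card_aut_eq_finrank]
    exact h.trans (Subgroup.card_subgroup_dvd_card φ.range)
  have hT3 : 3 • (S - S') = 0 := by
    rw [nsmul_sub, hS3, hS3', sub_zero]
  obtain ⟨T', hT', H'⟩ := Ud_coh' (Dn_hom (inv_up hLB)) φ.ker hcard
    (c := fun τ => Pool.Agent.H10.trans (jj L L₁) (map_jj hLB) f τ -
      Pool.Agent.H10.trans (jj L L₁) (map_jj hLB) g τ)
    (fun σ τ => by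
      change _ = _ + Pool.Agent.H10.act (inv_up hLB) σ (_ - _)
      rw [hf1.2, hg1.2, map_sub]
      abel)
    (fun σ => by
      rw [nsmul_sub, hres3 f hf3, hres3 g hg3, sub_zero])
    hT3
    (fun ρ hρ => by
      change _ = Pool.Agent.H10.act (inv_up hLB) ρ (S - S') - (S - S')
      have e1 : (K6a_mk ρ ((hker ρ).1 hρ)).restrictScalars L = ρ := rfl
      have h1 := congrFun hS (K6a_mk ρ ((hker ρ).1 hρ))
      have h2 := congrFun hS' (K6a_mk ρ ((hker ρ).1 hρ))
      change Pool.Agent.H10.trans (jj L L₁) (map_jj hLB) f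
        ((K6a_mk ρ ((hker ρ).1 hρ)).restrictScalars L) = r _ +
        (Pool.Agent.H10.act (inv_bc L₁ VB) (K6a_mk ρ ((hker ρ).1 hρ)) S - S) at h1
      change Pool.Agent.H10.trans (jj L L₁) (map_jj hLB) g
        ((K6a_mk ρ ((hker ρ).1 hρ)).restrictScalars L) = r _ +
        (Pool.Agent.H10.act (inv_bc L₁ VB) (K6a_mk ρ ((hker ρ).1 hρ)) S' - S') at h2
      rw [e1] at h1 h2
      have h3 : ∀ Q, Pool.Agent.H10.act (inv_bc L₁ VB) (K6a_mk ρ ((hker ρ).1 hρ)) Q =
        Pool.Agent.H10.act (inv_up hLB) ρ Q := fun Q => rfl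
      rw [h1, h2, h3, h3, map_sub]
      abel)
  apply Ud_back hLB hT'
  intro τ
  have h1 := H' τ
  change Pool.Agent.H10.trans (jj L L₁) (map_jj hLB) f τ -
    Pool.Agent.H10.trans (jj L L₁) (map_jj hLB) g τ =
    Pool.Agent.H10.act (inv_up hLB) τ T' - T' at h1
  rw [← h1]
  abel

end H55E
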