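import Pool.Agent.H55.TE.Qd
import Pool.Agent.H55.TE.Uc
import Pool.Agent.H55.TE.Ud

/-!
The upper bound, uniform in all layers (helper55; no row).
-/

set_option autoImplicit false
set_option linter.style.haveILetI false
open scoped Classical

open WeierstrassCurve IsDedekindDomain NumberField WithZero Pool.Agent.H10 Pool.Agent.H11 H55T3
  H5SW H68TM

namespace H55E

theorem curWD_bc {K L : Type} [Field K] [Field L] [Algebra K L] (D a b : K) :
    (curWD D a b).baseChange L = curWD (algebraMap K L D) (algebraMap K L a) (algebraMap K L b) := by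
  simp only [curWD, WeierstrassCurve.baseChange, WeierstrassCurve.map, map_mul, map_pow,
    map_ofNat, map_zero]

theorem curVD_bc {K L : Type} [Field K] [Field L] [Algebra K L] (D a c : K) :
    (curVD D a c).baseChange L = curVD (algebraMap K L D) (algebraMap K L a) (algebraMap K L c) := by
  simp only [curVD, WeierstrassCurve.baseChange, WeierstrassCurve.map, map_mul, map_pow, map_neg,
    map_ofNat, map_zero]

theorem uniform_bound (p : ℕ) [Fact p.Prime] (hp : 5 ≤ p) {k κ : Type} [Field k] [NumberField k]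
    [Field κ] [NumberField κ] [Algebra k κ] (hκ : LType 3 κ) {t0 : κ}
    (hgenκ : IntermediateField.adjoin k {t0} = ⊤) {D : 𝓞 k}
    (ht0 : t0 ^ 2 = algebraMap k κ (D : k)) (hD0 : D ≠ 0) (hk : H68TK.Unr3 k)
    (hD9 : ∀ v : HeightOneSpectrum (𝓞 k), (3 : 𝓞 k) ∈ v.asIdeal → D ∉ v.asIdeal ^ 2)
    {α β : 𝓞 k} (hβ : β ≠ 0) (hγ : 27 * β - 4 * D * α ^ 3 ≠ 0)
    (S₀ : Finset (HeightOneSpectrum (𝓞 k)))
    (hS₀ : ∀ v : HeightOneSpectrum (𝓞 k), (3 : 𝓞 k) ∈ v.asIdeal → v ∉ S₀ → GoodD v D α β) :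
    ∃ C : ℕ, ∀ (L : Type) [Field L] [NumberField L] [Algebra k L], Lay p k L →
      ∀ E : WeierstrassCurve L, (E = curWD (algebraMap k L D) (algebraMap k L α) (algebraMap k L β) ∨
        E = curVD (algebraMap k L D) (algebraMap k L α)
          (algebraMap k L (27 * β - 4 * D * α ^ 3 : 𝓞 k))) →
      E.IsElliptic ∧ Rep3 L E
        (C * (∏ v ∈ S₀, Ideal.absNorm v.asIdeal) ^ Module.finrank k L) := by
  have hpp : p.Prime := Fact.out
  obtain ⟨N, hN⟩ := towerE p hp hκ hgenκ ht0 hD0 hk hD9 hβ hγ S₀ hS₀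
  obtain ⟨M, B, hMB⟩ := layers_over hpp (by omega) k N
  haveI hfd : FiniteDimensional k (CyclotomicField (p ^ (M + 1)) k) :=
    IsCyclotomicExtension.finiteDimensional {p ^ (M + 1)} k _
  haveI : Finite (IntermediateField k (CyclotomicField (p ^ (M + 1)) k)) :=
    (Field.exists_primitive_element_iff_finite_intermediateField _ _).1
      ⟨inferInstance, Field.exists_primitive_element _ _⟩
  haveI := Fintype.ofFinite (IntermediateField k (CyclotomicField (p ^ (M + 1)) k))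
  have hnf : ∀ K₁ : IntermediateField k (CyclotomicField (p ^ (M + 1)) k), NumberField K₁ :=
    fun K₁ => NumberField.of_module_finite k K₁
  -- the constants
  have hC : ∀ K₁ : IntermediateField k (CyclotomicField (p ^ (M + 1)) k), ∃ C : ℕ,
      p ^ N ∣ Module.finrank ℚ K₁ → ∀ (L : Type) [Field L] [NumberField L] [Algebra k L]
      [Algebra K₁ L] [IsScalarTower k K₁ L], Lay p k L → (∃ i : ℕ, Module.finrank K₁ L = p ^ i) →
      ∀ E : WeierstrassCurve K₁, (E = curWD (algebraMap k K₁ D) (algebraMap k K₁ α)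
          (algebraMap k K₁ β) ∨
        E = curVD (algebraMap k K₁ D) (algebraMap k K₁ α)
          (algebraMap k K₁ (27 * β - 4 * D * α ^ 3 : 𝓞 k))) →
      (E.baseChange L).IsElliptic ∧ Rep3 L (E.baseChange L)
        (C * (∏ v ∈ S₀, Ideal.absNorm v.asIdeal) ^ Module.finrank k L) := by
    intro K₁
    haveI := hnf K₁
    by_cases h : p ^ N ∣ Module.finrank ℚ K₁
    · obtain ⟨C, hC⟩ := hN K₁ h
      exact ⟨C, fun _ => hC⟩
    · exact ⟨0, fun h' => absurd h' h⟩
  choose C hC using hC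
  obtain ⟨q, hq⟩ : ∃ q, q = ∏ v ∈ S₀, Ideal.absNorm v.asIdeal := ⟨_, rfl⟩
  have hq1 : 1 ≤ q := by
    rw [hq, Nat.one_le_iff_ne_zero]
    refine Finset.prod_ne_zero_iff.2 fun v _ => ?_
    rw [Ne, Ideal.absNorm_eq_zero_iff]
    exact v.ne_bot
  rw [← hq] at hC ⊢
  refine ⟨(∑ K₁, C K₁) * q ^ B, ?_⟩
  intro L _ _ _ hL E hE
  have hinj : Function.Injective (algebraMap k L) := (algebraMap k L).injective
  have hD' : algebraMap k L (D : k) ≠ 0 := (map_ne_zero_iff _ hinj).2 (coe_ne hD0)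
  have hβ' : algebraMap k L (β : k) ≠ 0 := (map_ne_zero_iff _ hinj).2 (coe_ne hβ)
  have eγ : algebraMap k L ((27 * β - 4 * D * α ^ 3 : 𝓞 k) : k) =
      27 * algebraMap k L (β : k) - 4 * algebraMap k L (D : k) * algebraMap k L (α : k) ^ 3 := by
    have : ((27 * β - 4 * D * α ^ 3 : 𝓞 k) : k) =
      27 * (β : k) - 4 * (D : k) * (α : k) ^ 3 := coe_gammaO
    rw [this, map_sub, map_mul, map_mul, map_mul, map_pow, map_ofNat, map_ofNat]
  have hγ' : 27 * algebraMap k L (β : k) -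
      4 * algebraMap k L (D : k) * algebraMap k L (α : k) ^ 3 ≠ 0 := by
    rw [← eγ]
    exact (map_ne_zero_iff _ hinj).2 (coe_ne hγ)
  refine ⟨?_, ?_⟩
  · rcases hE with rfl | rfl
    · exact (is3_WD hD' hβ' hγ').isElliptic
    · rw [eγ]
      exact (is3_VD hD' hβ' hγ').isElliptic
  obtain ⟨L₁, _, _, _, _, _, _, hL₁, ⟨j, hj⟩, hdeg, K₁, φ, hK₁, i, hi⟩ := hMB L hL
  haveI := hnf K₁
  letI : Algebra K₁ L₁ := φ.toRingHom.toAlgebra
  haveI : IsScalarTower k K₁ L₁ := IsScalarTower.of_algebraMap_eq fun x => (φ.commutes x).symm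
  haveI hfd1 : FiniteDimensional k K₁ := inferInstance
  have hd1 : Module.finrank K₁ L₁ = p ^ i := by
    have h1 : Module.finrank k K₁ * Module.finrank K₁ L₁ = Module.finrank k L₁ :=
      Module.finrank_mul_finrank k K₁ L₁
    rw [hi] at h1
    exact Nat.eq_of_mul_eq_mul_left Module.finrank_pos h1
  have hNK : p ^ N ∣ Module.finrank ℚ K₁ := by
    have h1 : Module.finrank ℚ k * Module.finrank k K₁ = Module.finrank ℚ K₁ :=
      Module.finrank_mul_finrank ℚ k K₁
    rw [← h1]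
    exact hK₁.mul_left _
  have h3 : ¬ 3 ∣ Module.finrank L L₁ := by
    rw [hj]
    intro h
    have h1 := (Nat.prime_dvd_prime_iff_eq Nat.prime_three hpp).1
      (Nat.prime_three.dvd_of_dvd_pow h)
    omega
  have e1 : ∀ x : k, algebraMap K₁ L₁ (algebraMap k K₁ x) = algebraMap k L₁ x := fun x =>
    (IsScalarTower.algebraMap_apply k K₁ L₁ x).symm
  have e2 : ∀ x : k, algebraMap L L₁ (algebraMap k L x) = algebraMap k L₁ x := fun x =>
    (IsScalarTower.algebraMap_apply k L L₁ x).symm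
  have hbc : ∃ E₁ : WeierstrassCurve K₁, (E₁ = curWD (algebraMap k K₁ D) (algebraMap k K₁ α)
          (algebraMap k K₁ β) ∨
        E₁ = curVD (algebraMap k K₁ D) (algebraMap k K₁ α)
          (algebraMap k K₁ (27 * β - 4 * D * α ^ 3 : 𝓞 k))) ∧
        E₁.baseChange L₁ = E.baseChange L₁ := by
    rcases hE with rfl | rfl
    · refine ⟨_, Or.inl rfl, ?_⟩
      rw [curWD_bc, curWD_bc]
      simp only [e1, e2]
    · refine ⟨_, Or.inr rfl, ?_⟩
      rw [curVD_bc, curVD_bc]
      simp only [e1, e2]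
  obtain ⟨E₁, hE₁, hbc⟩ := hbc
  obtain ⟨-, h4⟩ := hC K₁ hNK L₁ hL₁ ⟨i, hd1⟩ E₁ hE₁
  rw [hbc] at h4
  refine (rep3_down h3 h4).mono ?_
  have h5 : C K₁ ≤ ∑ K₁, C K₁ := Finset.single_le_sum (fun _ _ => Nat.zero_le _)
    (Finset.mem_univ K₁)
  have h6 : q ^ Module.finrank k L₁ ≤ q ^ B * q ^ Module.finrank k L := by
    rcases hdeg with h | h
    · rw [h]
      exact Nat.le_mul_of_pos_left _ (pow_pos (by omega) _)
    · exact (Nat.pow_le_pow_right (by omega) h).trans
        (Nat.le_mul_of_pos_right _ (pow_pos (by omega) _))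
  calc C K₁ * q ^ Module.finrank k L₁ ≤ (∑ K₁, C K₁) * (q ^ B * q ^ Module.finrank k L) :=
        Nat.mul_le_mul h5 h6
    _ = _ := by ring

end H55E
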