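import Pool.Agent.H55.TE.Df

/-!
Row Ba: the number of the places of `B` above `m`: at most two above each place of `K`, by the transitivity of the Galois group of `B/L`.
-/

set_option autoImplicit false
open scoped Classical

open WeierstrassCurve IsDedekindDomain NumberField WithZero Pool.Agent.H10 Pool.Agent.H11 H55T3

namespace H55E

theorem fin_places {F : Type} [Field F] [NumberField F] {z : 𝓞 F} (hz0 : z ≠ 0) :
    {w : HeightOneSpectrum (𝓞 F) | z ∈ w.asIdeal}.Finite := by
  have h0 : Ideal.span {z} ≠ 0 := by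
    rw [Ne, Ideal.zero_eq_bot, Ideal.span_singleton_eq_bot]
    exact hz0
  refine (Ideal.finite_factors h0).subset ?_
  intro w hw
  exact Ideal.dvd_span_singleton.mpr hw

theorem place_eq_of_val {F : Type} [Field F] [NumberField F] {w w' : HeightOneSpectrum (𝓞 F)}
    (h : ∀ x : F, w.valuation F x = w'.valuation F x) : w = w' := by
  apply HeightOneSpectrum.ext
  ext x
  rw [← HeightOneSpectrum.valuation_lt_one_iff_mem (K := F),
    ← HeightOneSpectrum.valuation_lt_one_iff_mem (K := F), h]

theorem bad_count {K L B : Type} [Field K] [NumberField K] [Field L] [NumberField L] [Field B]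
    [NumberField B] [Algebra K L] [Algebra L B] [Algebra K B] [IsScalarTower K L B] [IsGalois L B]
    (h2 : Module.finrank L B ≤ 2) {m : ℤ} (hm : m ≠ 0)
    (hbad : ∀ v : HeightOneSpectrum (𝓞 K), (m : 𝓞 K) ∈ v.asIdeal → UniqueOver K L v.asIdeal) :
    ∃ S : Finset (HeightOneSpectrum (𝓞 B)),
      S.card ≤ 2 * {v : HeightOneSpectrum (𝓞 K) | (m : 𝓞 K) ∈ v.asIdeal}.ncard ∧
      ∀ w : HeightOneSpectrum (𝓞 B), (m : 𝓞 B) ∈ w.asIdeal → w ∈ S := by
  have hmK : (m : 𝓞 K) ≠ 0 := by exact_mod_cast hm
  have hmB : (m : 𝓞 B) ≠ 0 := by exact_mod_cast hm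
  have hfK := fin_places hmK
  have hfB := fin_places hmB
  have hfd : FiniteDimensional L B := Module.Finite.of_restrictScalars_finite ℚ L B
  refine ⟨hfB.toFinset, ?_, fun w hw => (Set.Finite.mem_toFinset hfB).mpr hw⟩
  rw [Set.ncard_eq_toFinset_card _ hfK]
  have hsc : ∀ y : 𝓞 K, algebraMap (𝓞 L) (𝓞 B) (algebraMap (𝓞 K) (𝓞 L) y) =
      algebraMap (𝓞 K) (𝓞 B) y := by
    intro y
    apply RingOfIntegers.coe_injective
    exact (IsScalarTower.algebraMap_apply K L B (y : K)).symm
  -- the place below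
  have hbelow : ∀ w : HeightOneSpectrum (𝓞 B), (m : 𝓞 B) ∈ w.asIdeal →
      ∃ v : HeightOneSpectrum (𝓞 K), v.asIdeal = w.asIdeal.under (𝓞 K) ∧
        (m : 𝓞 K) ∈ v.asIdeal := by
    intro w hw
    have hmem : (m : 𝓞 K) ∈ w.asIdeal.under (𝓞 K) := by
      rw [Ideal.under_def, Ideal.mem_comap, map_intCast]
      exact hw
    have hp : w.asIdeal.IsPrime := w.isPrime
    refine ⟨⟨w.asIdeal.under (𝓞 K), Ideal.IsPrime.comap _, ?_⟩, rfl, hmem⟩
    intro h0
    rw [h0, Ideal.mem_bot] at hmem
    exact hmK hmem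
  by_cases hemp : Nonempty (HeightOneSpectrum (𝓞 K))
  swap
  · have h0 : hfB.toFinset = ∅ := by
      rw [Finset.eq_empty_iff_forall_notMem]
      intro w hw
      rw [Set.Finite.mem_toFinset] at hw
      exact hemp ⟨(hbelow w hw).choose⟩
    rw [h0]
    exact Nat.zero_le _
  choose! β hβ1 hβ2 using hbelow
  refine Finset.card_le_mul_card_image_of_maps_to (f := β) (fun w hw => ?_) 2 (fun v hv => ?_)
  · rw [Set.Finite.mem_toFinset] at hw ⊢
    exact hβ2 w hw
  · rw [Set.Finite.mem_toFinset] at hv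
    have hu := hbad v hv
    by_cases hne : (hfB.toFinset.filter (fun w => β w = v)).Nonempty
    · obtain ⟨w, hw⟩ := hne
      rw [Finset.mem_filter, Set.Finite.mem_toFinset] at hw
      have hex : ∀ w' ∈ hfB.toFinset.filter (fun w => β w = v),
          ∃ γ : B ≃ₐ[L] B, ∀ x, w.valuation B (γ x) = w'.valuation B x := by
        intro w' hw'
        rw [Finset.mem_filter, Set.Finite.mem_toFinset] at hw'
        have i1 : w'.asIdeal.IsPrime := w'.isPrime
        have i2 : w.asIdeal.IsPrime := w.isPrime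
        refine H11L.Le_trans (L := L) w w' (hu _ _ (Ideal.IsPrime.comap _) (Ideal.IsPrime.comap _)
          ?_ ?_)
        · rw [Ideal.map_le_iff_le_comap]
          intro y hy
          rw [Ideal.mem_comap]
          change algebraMap (𝓞 L) (𝓞 B) (algebraMap (𝓞 K) (𝓞 L) y) ∈ w'.asIdeal
          rw [hsc]
          rw [← hw'.2, hβ1 w' hw'.1] at hy
          exact hy
        · rw [Ideal.map_le_iff_le_comap]
          intro y hy
          rw [Ideal.mem_comap]
          change algebraMap (𝓞 L) (𝓞 B) (algebraMap (𝓞 K) (𝓞 L) y) ∈ w.asIdeal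
          rw [hsc]
          rw [← hw.2, hβ1 w hw.1] at hy
          exact hy
      choose! Γ hΓ using hex
      have hcard : Fintype.card (B ≃ₐ[L] B) ≤ 2 := by
        rw [← Nat.card_eq_fintype_card, IsGalois.card_aut_eq_finrank]
        exact h2
      refine le_trans ?_ hcard
      rw [← Finset.card_univ]
      refine Finset.card_le_card_of_injOn Γ (fun _ _ => Finset.mem_coe.mpr (Finset.mem_univ _)) ?_
      intro w1 h1 w2 h2' he
      rw [Finset.mem_coe] at h1 h2'
      refine place_eq_of_val fun x => ?_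
      rw [← hΓ w1 h1, ← hΓ w2 h2', he]
    · rw [Finset.not_nonempty_iff_eq_empty] at hne
      rw [hne]
      exact Nat.zero_le _

end H55E
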