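import Pool.Agent.H55.TE.Df

/-!
Closure properties (helper55; no row).
-/

set_option autoImplicit false
open scoped Classical

open WeierstrassCurve IsDedekindDomain NumberField WithZero Pool.Agent.H10 Pool.Agent.H11 H55T3

namespace H55E

theorem v3_div {B : Type*} [Field B] [NumberField B] {x y : B} (hx : V3 B x) (hy : V3 B y) :
    V3 B (x / y) := by
  refine ⟨div_ne_zero hx.1 hy.1, fun w => ?_⟩
  rw [map_div₀, log_div ((Valuation.ne_zero_iff _).mpr hx.1) ((Valuation.ne_zero_iff _).mpr hy.1)]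
  exact dvd_sub (hx.2 w) (hy.2 w)

theorem near_div {B : Type*} [Field B] [NumberField B] {w : HeightOneSpectrum (𝓞 B)}
    (h3 : (3 : 𝓞 B) ∈ w.asIdeal) {x y : B} (hx : Near w x) (hy : Near w y) : Near w (x / y) := by
  obtain ⟨t, ht⟩ := hx
  obtain ⟨u, hu⟩ := hy
  have h31 : w.valuation B 3 < 1 := by
    have h : w.valuation B (algebraMap (𝓞 B) B 3) < 1 :=
      (w.valuation_lt_one_iff_mem (K := B) (3 : 𝓞 B)).2 h3
    rwa [map_ofNat] at h
  have h27 : w.valuation B 27 < 1 := by
    have e : (27 : B) = 3 ^ 3 := by norm_num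
    rw [e, map_pow]
    exact pow_lt_one₀ zero_le h31 three_ne_zero
  have hlt : ∀ z : B, w.valuation B (z - 1) ^ 2 ≤ w.valuation B 27 → w.valuation B z = 1 := by
    intro z hz
    have h1 : w.valuation B (z - 1) < 1 := by
      by_contra hcon
      rw [not_lt] at hcon
      exact absurd (hz.trans_lt h27) (not_lt.2 (one_le_pow₀ hcon))
    have e : z = (z - 1) + 1 := by ring
    rw [e, Valuation.map_add_eq_of_lt_right _ (by rwa [map_one]), map_one]
  have hy1 := hlt _ hu
  have hx1 := hlt _ ht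
  have hne : y * u ^ 3 ≠ 0 := by
    intro h0
    rw [h0, map_zero] at hy1
    exact zero_ne_one hy1
  have hy0 : y ≠ 0 := left_ne_zero_of_mul hne
  have hu0 : u ≠ 0 := fun h0 => hne (by rw [h0]; ring)
  refine ⟨t / u, ?_⟩
  have e : x / y * (t / u) ^ 3 - 1 = ((x * t ^ 3 - 1) - (y * u ^ 3 - 1)) / (y * u ^ 3) := by
    field_simp
    ring
  rw [e, map_div₀, hy1, div_one]
  rcases le_total (w.valuation B (x * t ^ 3 - 1)) (w.valuation B (y * u ^ 3 - 1)) with h | h
  · calc w.valuation B ((x * t ^ 3 - 1) - (y * u ^ 3 - 1)) ^ 2 ≤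
        w.valuation B (y * u ^ 3 - 1) ^ 2 := by
          apply pow_le_pow_left' _ 2
          exact (Valuation.map_sub _ _ _).trans (max_le h le_rfl)
      _ ≤ _ := hu
  · calc w.valuation B ((x * t ^ 3 - 1) - (y * u ^ 3 - 1)) ^ 2 ≤
        w.valuation B (x * t ^ 3 - 1) ^ 2 := by
          apply pow_le_pow_left' _ 2
          exact (Valuation.map_sub _ _ _).trans (max_le le_rfl h)
      _ ≤ _ := ht

theorem twi_div {L B : Type*} [Field L] [Field B] [Algebra L B] {s x y : B} (hx : Twi L s x)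
    (hy : Twi L s y) : Twi L s (x / y) := by
  intro g hg
  obtain ⟨a, ha⟩ := hx g hg
  obtain ⟨b, hb⟩ := hy g hg
  refine ⟨a / b, ?_⟩
  rw [div_pow, ← ha, ← hb, map_div₀, div_mul_div_comm]

theorem cu_div {B : Type*} [Field B] {x y : B} (hx : x ∈ Cu B) (hy : y ∈ Cu B) : x / y ∈ Cu B := by
  obtain ⟨a, rfl⟩ := hx
  obtain ⟨b, rfl⟩ := hy
  exact ⟨a / b, by rw [div_pow]⟩

/-- The classes in `S` are bounded by the classes of `F` when elements with norm a cube are cubes. -/
theorem cov_cls {B F : Type*} [Field B] [NumberField B] [Field F] [NumberField F] {n : ℕ}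
    (hn : IsCls F n) {S : Set B} (N : B → F) (hN : ∀ x ∈ S, V3 F (N x))
    (hdiv : ∀ x ∈ S, ∀ y ∈ S, x / y ∈ S) (hNd : ∀ x ∈ S, ∀ y ∈ S, N (x / y) = N x / N y)
    (R : ∀ x ∈ S, (∃ y, N x = y ^ 3) → ∃ y, x = y ^ 3) : Cov S (Cu B) n := by
  obtain ⟨τ, hτ⟩ := hn
  have h := cov_map (S := S) (H := Cu B) (fun x => τ (N x)) (fun x hx y hy hxy => by
    apply R _ (hdiv x hx y hy)
    rw [hNd x hx y hy]
    exact hτ _ _ (hN x hx) (hN y hy) hxy)
  rwa [Nat.card_fin] at h

/-- The goodness goes up, at one place. -/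
theorem good_up1 {k L : Type} [Field k] [NumberField k] [Field L] [NumberField L] [Algebra k L]
    {D α β : 𝓞 k} (hD : ∀ v : HeightOneSpectrum (𝓞 k), (3 : 𝓞 k) ∈ v.asIdeal → D ∉ v.asIdeal ^ 2)
    (w : HeightOneSpectrum (𝓞 L)) (hw : (3 : 𝓞 L) ∈ w.asIdeal)
    (hunr : w.valuation L 3 = exp (-1 : ℤ)) :
    ∃ v : HeightOneSpectrum (𝓞 k), v.asIdeal = w.asIdeal.under (𝓞 k) ∧ (3 : 𝓞 k) ∈ v.asIdeal ∧
      (w.valuation L (algebraMap k L (D : k)) = 1 ∨
        w.valuation L (algebraMap k L (D : k)) = exp (-1 : ℤ)) ∧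
      (GoodD v D α β → GoodVO (w.valuation L) (algebraMap k L (D : k)) (algebraMap k L (α : k))
        (algebraMap k L (β : k))) := by
  have h3 : (3 : 𝓞 k) ∈ w.asIdeal.comap (algebraMap (𝓞 k) (𝓞 L)) := by
    rw [Ideal.mem_comap, map_ofNat]
    exact hw
  have hne : w.asIdeal.comap (algebraMap (𝓞 k) (𝓞 L)) ≠ ⊥ := by
    intro h0
    rw [h0, Ideal.mem_bot] at h3
    norm_num at h3
  have hpr : (w.asIdeal.comap (algebraMap (𝓞 k) (𝓞 L))).IsPrime := Ideal.comap_isPrime _ _
  let v : HeightOneSpectrum (𝓞 k) := ⟨w.asIdeal.comap (algebraMap (𝓞 k) (𝓞 L)), hpr, hne⟩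
  have hlo : w.asIdeal.LiesOver v.asIdeal := ⟨rfl⟩
  have hval : ∀ x : k, w.valuation L (algebraMap k L x) = v.valuation k x := by
    intro x
    have h1 := HeightOneSpectrum.valuation_liesOver (K := k) L v w (3 : k)
    have h13 : algebraMap k L 3 = 3 := map_ofNat _ 3
    rw [h13, hunr] at h1
    have h2 : ∀ {a : WithZero (Multiplicative ℤ)} {e : ℕ}, a ^ e = exp (-1 : ℤ) → e = 1 := by
      intro a e h
      have ha : a ≠ 0 := by
        rintro rfl
        rcases Nat.eq_zero_or_pos e with h0 | h0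
        · subst h0
          rw [pow_zero] at h
          have h2 := h.symm
          rw [← exp_zero, exp_inj] at h2
          omega
        · rw [zero_pow h0.ne'] at h
          exact exp_ne_zero h.symm
      rw [← exp_log ha, ← exp_nsmul, exp_inj, nsmul_eq_mul] at h
      have h2 : (e : ℤ) ∣ 1 := ⟨-(log a), by linarith⟩
      have h3 := Int.natCast_dvd_natCast.1 (by simpa using h2 : ((e : ℕ) : ℤ) ∣ ((1 : ℕ) : ℤ))
      exact Nat.dvd_one.1 h3
    have h4 := HeightOneSpectrum.valuation_liesOver (K := k) L v w x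
    rw [h2 h1, pow_one] at h4
    exact h4.symm
  have hint : ∀ x : 𝓞 k, v.valuation k (x : k) = v.intValuation x := fun x =>
    v.valuation_of_algebraMap x
  have hle : ∀ (x : 𝓞 k) (n : ℕ), x ∈ v.asIdeal ^ n → v.intValuation x ≤ exp (-(n : ℤ)) :=
    fun x n => (v.intValuation_le_pow_iff_mem x n).2
  have hlt : ∀ (x : 𝓞 k) (n : ℕ), x ∉ v.asIdeal ^ n → exp (-(n : ℤ)) < v.intValuation x :=
    fun x n h => not_le.1 (mt (v.intValuation_le_pow_iff_mem x n).1 h)
  have hγ : 27 * algebraMap k L (β : k) -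
      4 * algebraMap k L (D : k) * (algebraMap k L (α : k)) ^ 3 =
      algebraMap k L ((27 * β - 4 * D * α ^ 3 : 𝓞 k) : k) := by
    have h7 : ((27 * β - 4 * D * α ^ 3 : 𝓞 k) : k) =
        27 * (β : k) - 4 * (D : k) * (α : k) ^ 3 := by
      have h8 : ((27 * β - 4 * D * α ^ 3 : 𝓞 k) : k) =
          algebraMap (𝓞 k) k (27 * β - 4 * D * α ^ 3) := rfl
      rw [h8, map_sub, map_mul, map_mul, map_mul, map_pow, map_ofNat, map_ofNat]
    rw [h7, map_sub, map_mul, map_mul, map_mul, map_pow, map_ofNat, map_ofNat]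
  have hD1 : D ∉ v.asIdeal → w.valuation L (algebraMap k L (D : k)) = 1 := by
    intro h0
    rw [hval, hint]
    exact (v.intValuation_eq_one_iff).2 h0
  have hD2 : D ∈ v.asIdeal → w.valuation L (algebraMap k L (D : k)) = exp (-1 : ℤ) := by
    intro h0
    rw [hval, hint]
    refine le_antisymm ?_ ?_
    · have := hle D 1 (by rwa [pow_one])
      push_cast at this
      exact this
    · have h5 := hlt D 2 (hD v h3)
      by_contra hcon
      rw [not_le] at hcon
      have hD0 : v.intValuation D ≠ 0 := fun h => by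
        rw [h] at h5
        exact not_lt_zero h5
      rw [← exp_log hD0, exp_lt_exp] at hcon h5
      push_cast at h5
      omega
  refine ⟨v, rfl, h3, ?_, ?_⟩
  · by_cases h0 : D ∈ v.asIdeal
    · exact Or.inr (hD2 h0)
    · exact Or.inl (hD1 h0)
  rintro (⟨h0, i, h1, h2, h4⟩ | ⟨h0, i, h1, h2, h4⟩)
  · refine Or.inl ⟨hD1 h0, i, ?_, ?_, ?_⟩
    · rw [hval, hint]
      have := hle α (i + 1) h1
      push_cast at this
      exact this
    · rw [hγ, hval, hint]
      have := hle _ (3 * i + 5) h2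
      push_cast at this
      exact this
    · rw [hval, hint]
      have := hlt β (3 * i + 3) h4
      push_cast at this
      exact this
  · refine Or.inr ⟨hD2 h0, i, ?_, ?_, ?_⟩
    · rw [hval, hint]
      have := hle α (i + 1) h1
      push_cast at this
      exact this
    · rw [hval, hint]
      have := hle β (3 * i + 1) h2
      push_cast at this
      exact this
    · rw [hval, hint]
      have := hlt β (3 * i + 3) h4
      push_cast at this
      exact this

end H55E
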