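import Pool.Agent.H55.T3.S10
import Pool.Agent.H11.KSn

/-!
Definitions for the exact growth of the three-Selmer groups (MP_78d38b_T3E, helper55; no row).
-/

set_option autoImplicit false
open scoped Classical

open WeierstrassCurve IsDedekindDomain NumberField WithZero Pool.Agent.H10 Pool.Agent.H11 H55T3

namespace H55E

/-- At most `n` elements of `S` represent the elements of `S` modulo `H`. -/
def Cov {B : Type*} [Field B] (S H : Set B) (n : ℕ) : Prop :=
  ∃ R : Finset B, R.card ≤ n ∧ (∀ r ∈ R, r ∈ S) ∧ ∀ x ∈ S, ∃ r ∈ R, x / r ∈ H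

/-- the cubes -/
def Cu (B : Type*) [Field B] : Set B := {x | ∃ y, x = y ^ 3}

/-- nonzero and all valuations divisible by three -/
def V3 (B : Type*) [Field B] [NumberField B] (x : B) : Prop :=
  x ≠ 0 ∧ ∀ w : HeightOneSpectrum (𝓞 B), (3 : ℤ) ∣ log (w.valuation B x)

/-- near to a cube at `w` -/
def Near {B : Type*} [Field B] [NumberField B] (w : HeightOneSpectrum (𝓞 B)) (x : B) : Prop :=
  ∃ t : B, w.valuation B (x * t ^ 3 - 1) ^ 2 ≤ w.valuation B 27

/-- the twisted classes -/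
def Twi (L : Type*) {B : Type*} [Field L] [Field B] [Algebra L B] (s x : B) : Prop :=
  ∀ g : B ≃ₐ[L] B, g s = -s → ∃ y, x * g x = y ^ 3

/-- at most `n` classes of elements with valuations divisible by three -/
def IsCls (F : Type*) [Field F] [NumberField F] (n : ℕ) : Prop :=
  ∃ τ : F → Fin n, ∀ x y, V3 F x → V3 F y → τ x = τ y → ∃ z, x / y = z ^ 3

/-- At most `n` cochains represent the locally trivial classes with values in the kernel. -/
def RepK (L : Type) [Field L] [NumberField L] (V : WeierstrassCurve L) (n : ℕ) : Prop :=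
  ∃ R : Finset (Coch L V), R.card ≤ n ∧ ∀ f ∈ ShaZ L V, (∀ σ, Kr (f σ)) →
    ∃ r ∈ R, ∃ T, Kr T ∧ f = r + cbd V T

/-- At most `n` cochains represent the locally trivial classes with values in the three-torsion. -/
def Rep3 (L : Type) [Field L] [NumberField L] (V : WeierstrassCurve L) (n : ℕ) : Prop :=
  ∃ R : Finset (Coch L V), R.card ≤ n ∧ ∀ f ∈ ShaZ L V, (∀ σ, 3 • f σ = 0) →
    ∃ r ∈ R, ∃ S, 3 • S = 0 ∧ f = r + cbd V S

theorem Cov.mono {B : Type*} [Field B] {S H : Set B} {n m : ℕ} (h : Cov S H n) (hnm : n ≤ m) :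
    Cov S H m := by
  obtain ⟨R, h1, h2⟩ := h
  exact ⟨R, h1.trans hnm, h2⟩

theorem RepK.mono {L : Type} [Field L] [NumberField L] {V : WeierstrassCurve L} {n m : ℕ}
    (h : RepK L V n) (hnm : n ≤ m) : RepK L V m := by
  obtain ⟨R, h1, h2⟩ := h
  exact ⟨R, h1.trans hnm, h2⟩

theorem Rep3.mono {L : Type} [Field L] [NumberField L] {V : WeierstrassCurve L} {n m : ℕ}
    (h : Rep3 L V n) (hnm : n ≤ m) : Rep3 L V m := by
  obtain ⟨R, h1, h2⟩ := h
  exact ⟨R, h1.trans hnm, h2⟩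

theorem cov_map {B : Type*} [Field B] {S H : Set B} {ι : Type*} [Finite ι] (τ : B → ι)
    (h : ∀ x ∈ S, ∀ y ∈ S, τ x = τ y → x / y ∈ H) : Cov S H (Nat.card ι) := by
  have := Fintype.ofFinite ι
  let c : ι → B := fun i => if h : ∃ x ∈ S, τ x = i then h.choose else 0
  have hc : ∀ x ∈ S, c (τ x) ∈ S ∧ τ (c (τ x)) = τ x := by
    intro x hx
    have h1 : ∃ y ∈ S, τ y = τ x := ⟨x, hx, rfl⟩
    have h2 : c (τ x) = h1.choose := dif_pos h1
    rw [h2]
    exact h1.choose_spec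
  refine ⟨(Finset.univ.image c).filter (fun x => x ∈ S), ?_, ?_, ?_⟩
  · refine (Finset.card_filter_le _ _).trans ?_
    refine Finset.card_image_le.trans ?_
    rw [Finset.card_univ, Nat.card_eq_fintype_card]
  · intro r hr
    exact (Finset.mem_filter.1 hr).2
  · intro x hx
    obtain ⟨h1, h2⟩ := hc x hx
    refine ⟨c (τ x), ?_, h x hx _ h1 h2.symm⟩
    rw [Finset.mem_filter, Finset.mem_image]
    exact ⟨⟨τ x, Finset.mem_univ _, rfl⟩, h1⟩

theorem cov_trans {B : Type*} [Field B] {S H H' : Set B} {n m : ℕ} (h0 : ∀ x ∈ S, x ≠ 0)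
    (h0H : ∀ x ∈ H, x ≠ 0) (hd : ∀ x ∈ H', ∀ y ∈ H', x / y ∈ H') (h1 : Cov S H n) (h2 : Cov H H' m) :
    Cov S H' (n * m) := by
  obtain ⟨R, hR, hRS, hR1⟩ := h1
  obtain ⟨Q, hQ, hQH, hQ1⟩ := h2
  let P : B × B → B → Prop := fun p x => x ∈ S ∧ x / p.1 / p.2 ∈ H'
  let c : B × B → B := fun p => if h : ∃ x, P p x then h.choose else 0
  have hc : ∀ p, (∃ x, P p x) → P p (c p) := by
    intro p hp
    have h2 : c p = hp.choose := dif_pos hp
    rw [h2]
    exact hp.choose_spec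
  refine ⟨((R ×ˢ Q).image c).filter (fun x => x ∈ S), ?_, ?_, ?_⟩
  · refine (Finset.card_filter_le _ _).trans ?_
    refine Finset.card_image_le.trans ?_
    rw [Finset.card_product]
    exact Nat.mul_le_mul hR hQ
  · intro r hr
    exact (Finset.mem_filter.1 hr).2
  · intro x hx
    obtain ⟨r, hr, hxr⟩ := hR1 x hx
    obtain ⟨q, hq, hxq⟩ := hQ1 _ hxr
    have hP : ∃ x, P (r, q) x := ⟨x, hx, hxq⟩
    obtain ⟨h3, h4⟩ := hc _ hP
    refine ⟨c (r, q), ?_, ?_⟩
    · rw [Finset.mem_filter, Finset.mem_image]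
      exact ⟨⟨(r, q), Finset.mem_product.2 ⟨hr, hq⟩, rfl⟩, h3⟩
    · have h5 := hd _ hxq _ h4
      have hr0 : r ≠ 0 := h0 r (hRS r hr)
      have hq0 : q ≠ 0 := h0H q (hQH q hq)
      have hx0 : c (r, q) ≠ 0 := h0 _ h3
      have e : x / c (r, q) = x / r / q / (c (r, q) / r / q) := by
        field_simp
      rw [e]
      exact h5

end H55E
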