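import Pool.Agent.H55.TE.Cl

/-!
Definitions for the counting (helper55; no row).
-/

set_option autoImplicit false
open scoped Classical

open WeierstrassCurve IsDedekindDomain NumberField WithZero Pool.Agent.H10 Pool.Agent.H11 H55T3

namespace H55E

/-- the number of the places above `m` -/
noncomputable def nB (K : Type) [Field K] [NumberField K] (m : ℤ) : ℕ :=
  {v : HeightOneSpectrum (𝓞 K) | (m : 𝓞 K) ∈ v.asIdeal}.ncard

/-- the parameters on the real side, `s^2 = D` -/
def DR (K L : Type) {B : Type} [Field K] [NumberField K] [Field L] [NumberField L] [Field B]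
    [NumberField B] [Algebra K L] [Algebra L B] [Algebra K B] (s : B) (D α β : 𝓞 K) : Set B :=
  {d | d ≠ 0 ∧ FinSol3 B s (algebraMap K B ((α : K) / 3)) (algebraMap K B (β : K)) d ∧
    FinM s (algebraMap K L (D : K)) (algebraMap K L ((α : K) / 3)) (algebraMap K L (β : K)) d ∧
    Twi L s d}

/-- the parameters on the real side, `s ∈ L` -/
def DR1 (K : Type) {L : Type} [Field K] [NumberField K] [Field L] [NumberField L]
    [Algebra K L] (s : L) (α β : 𝓞 K) : Set L :=
  {d | d ≠ 0 ∧ FinSol3 L s (algebraMap K L ((α : K) / 3)) (algebraMap K L (β : K)) d}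

/-- the parameters on the minus side, `s^2 = -3 D` -/
def DM (K L : Type) {C : Type} [Field K] [NumberField K] [Field L] [Field C]
    [NumberField C] [Algebra L C] [Algebra K C] (s : C) (α γ : 𝓞 K) : Set C :=
  {d | d ≠ 0 ∧ FinSol3 C s (algebraMap K C ((α : K) / 3)) (algebraMap K C ((γ : K) / 9)) d ∧
    Twi L s d}

/-- valuations divisible by three, twisted, and near to cubes at the places above three with `P` -/
def HR (L : Type) {B : Type} [Field L] [Field B] [NumberField B] [Algebra L B] (s : B)
    (P : HeightOneSpectrum (𝓞 B) → Prop) : Set B :=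
  {x | V3 B x ∧ Twi L s x ∧ ∀ W : HeightOneSpectrum (𝓞 B), (3 : 𝓞 B) ∈ W.asIdeal → P W → Near W x}

theorem hr_div {L B : Type} [Field L] [Field B] [NumberField B] [Algebra L B] {s : B}
    {P : HeightOneSpectrum (𝓞 B) → Prop} {x y : B} (hx : x ∈ HR L s P) (hy : y ∈ HR L s P) :
    x / y ∈ HR L s P :=
  ⟨v3_div hx.1 hy.1, twi_div hx.2.1 hy.2.1, fun W hW hP => near_div hW (hx.2.2 W hW hP)
    (hy.2.2 W hW hP)⟩

end H55E
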