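import Pool.Agent.H55.TE.Df

/-!
Row Fa (about 50 lines): the field `K(√c)`.

PROOF. `f := X ^ 2 - C c` is irreducible (X_pow_sub_C_irreducible_of_prime Nat.prime_two h0, as in `min_c`, Pool/Agent/H55/T3/SQa.lean). F := AdjoinRoot f with `Fact (Irreducible f)`, s0 := AdjoinRoot.root f. It is a finite extension of K (AdjoinRoot.powerBasis / Monic.finite), so a number field (NumberField.of_module_finite K F). s0 ^ 2 = c: AdjoinRoot.eval₂_root / aeval. adjoin K {s0} = ⊤: AdjoinRoot.adjoinRoot_eq_top (for Algebra.adjoin) and IntermediateField.adjoin_simple_toSubalgebra_of_integral, or: every element is `AdjoinRoot.mk f p`, a polynomial in s0.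
 φ := AdjoinRoot.liftAlgHom f (Algebra.ofId K B) s _ (AdjoinRoot.liftAlgHom_root).
-/

/-!
Row Fa (about 50 lines): the field `K(√c)`.

PROOF. `f := X ^ 2 - C c` is irreducible; `F := AdjoinRoot f`.
-/

set_option autoImplicit false
open scoped Classical

open WeierstrassCurve IsDedekindDomain NumberField WithZero Pool.Agent.H10 Pool.Agent.H11 H55T3

namespace H55E

theorem exists_F {K : Type} [Field K] [NumberField K] {c : K} (h0 : ∀ z : K, z ^ 2 ≠ c) :
    ∃ (F : Type) (_ : Field F) (_ : NumberField F) (_ : Algebra K F) (s0 : F),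
      s0 ^ 2 = algebraMap K F c ∧ IntermediateField.adjoin K {s0} = ⊤ ∧
      ∀ (B : Type) [Field B] [NumberField B] [Algebra K B] (s : B), s ^ 2 = algebraMap K B c →
        ∃ φ : F →ₐ[K] B, φ s0 = s := by
  have hirr : Irreducible (Polynomial.X ^ 2 - Polynomial.C c : Polynomial K) :=
    X_pow_sub_C_irreducible_of_prime Nat.prime_two h0
  have hmon : (Polynomial.X ^ 2 - Polynomial.C c : Polynomial K).Monic :=
    Polynomial.monic_X_pow_sub_C _ two_ne_zero
  have hf : Fact (Irreducible (Polynomial.X ^ 2 - Polynomial.C c : Polynomial K)) := ⟨hirr⟩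
  have hfd : Module.Finite K (AdjoinRoot (Polynomial.X ^ 2 - Polynomial.C c : Polynomial K)) :=
    hmon.finite_adjoinRoot
  have hnf : NumberField (AdjoinRoot (Polynomial.X ^ 2 - Polynomial.C c : Polynomial K)) :=
    NumberField.of_module_finite K _
  refine ⟨AdjoinRoot (Polynomial.X ^ 2 - Polynomial.C c : Polynomial K), inferInstance, hnf,
    inferInstance, AdjoinRoot.root _, ?_, ?_, ?_⟩
  · have h1 := AdjoinRoot.eval₂_root (Polynomial.X ^ 2 - Polynomial.C c : Polynomial K)
    rw [Polynomial.eval₂_sub, Polynomial.eval₂_pow, Polynomial.eval₂_X, Polynomial.eval₂_C,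
      sub_eq_zero] at h1
    rw [h1, AdjoinRoot.algebraMap_eq]
  · exact IntermediateField.adjoin_root_eq_top (Polynomial.X ^ 2 - Polynomial.C c : Polynomial K)
  · intro B _ _ _ s hs
    have h2 : (Polynomial.X ^ 2 - Polynomial.C c : Polynomial K).eval₂
        (Algebra.ofId K B : K →+* B) s = 0 := by
      rw [Polynomial.eval₂_sub, Polynomial.eval₂_pow, Polynomial.eval₂_X, Polynomial.eval₂_C,
        sub_eq_zero, hs]
      rfl
    exact ⟨AdjoinRoot.liftAlgHom _ (Algebra.ofId K B) s h2, by
      rw [AdjoinRoot.coe_liftAlgHom, AdjoinRoot.lift_root]⟩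

end H55E
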