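import Pool.Agent.H55.TE.Df

/-!
Row Fb (about 60 lines): from `A` to `F = K(s0)`.

PROOF. IsGalois F B (IsGalois.tower_top_of_isGalois K F B). For `x : A` the element `algebraMap A B x` is fixed by every `g : B ≃ₐ[F] B` (apply hA to `g.restrictScalars K`: it fixes `s = algebraMap F B s0`), so it is `algebraMap F B y` (IsGalois.mem_range_algebraMap_iff_fixed). So there is a ring hom `ι : A →+* F` with `algebraMap F B (ι x) = algebraMap A B x`
 (choose; ring hom laws by injectivity of `algebraMap F B`). `letI : Algebra A F := ι.toAlgebra`, IsScalarTower A F B. Let `x` be as in NoNewCubeG F B, `norm F x = y ^ 3`. Then `norm A x = norm A (norm F x)` (Algebra.norm_norm, in `A ⊆ F ⊆ B`) `= (norm A y) ^ 3`, and H applies.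
-/

set_option autoImplicit false
open scoped Classical

open WeierstrassCurve IsDedekindDomain NumberField WithZero Pool.Agent.H10 Pool.Agent.H11 H55T3

namespace H55E

theorem cubeG_F {K A B F : Type} [Field K] [NumberField K] [Field A] [NumberField A] [Field B]
    [NumberField B] [Field F] [NumberField F] [Algebra K B] [IsGalois K B] [Algebra A B]
    [Algebra K F] [Algebra F B] [IsScalarTower K F B] {s : B} {s0 : F}
    (hs : algebraMap F B s0 = s)
    (hA : ∀ g : B ≃ₐ[K] B, g s = s → ∀ x : A, g (algebraMap A B x) = algebraMap A B x)
    (H : NoNewCubeG A B) : NoNewCubeG F B := by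
  haveI hG : IsGalois F B := IsGalois.tower_top_of_isGalois K F B
  haveI : FiniteDimensional F B := Module.Finite.of_restrictScalars_finite ℚ F B
  have hinj : Function.Injective (algebraMap F B) := (algebraMap F B).injective
  have hex : ∀ x : A, ∃ y : F, algebraMap F B y = algebraMap A B x := by
    intro x
    have h1 : algebraMap A B x ∈ Set.range (algebraMap F B) := by
      rw [IsGalois.mem_range_algebraMap_iff_fixed]
      intro g
      refine hA (g.restrictScalars K) ?_ x
      rw [← hs]
      exact g.commutes s0
    exact h1
  choose f hf using hex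
  let ι : A →+* F :=
    { toFun := f
      map_one' := by
        apply hinj
        rw [hf, map_one, map_one]
      map_mul' := by
        intro x y
        apply hinj
        rw [hf, map_mul, map_mul, hf, hf]
      map_zero' := by
        apply hinj
        rw [hf, map_zero, map_zero]
      map_add' := by
        intro x y
        apply hinj
        rw [hf, map_add, map_add, hf, hf] }
  letI : Algebra A F := ι.toAlgebra
  haveI : IsScalarTower A F B := IsScalarTower.of_algebraMap_eq fun x => (hf x).symm
  haveI : FiniteDimensional A F := Module.Finite.of_restrictScalars_finite ℚ A F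
  intro x hx h1 h2 h3
  obtain ⟨y, hy⟩ := h3
  refine H x hx h1 h2 ⟨Algebra.norm A y, ?_⟩
  rw [← Algebra.norm_norm (R := A) (S := F) (A := B) (a := x), hy, map_pow]

end H55E
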