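import Pool.Agent.H55.TE.Df

/-!
Row Fc (about 50 lines): the product over the automorphisms which fix `s` is the norm to `F = K(s0)`.

PROOF. IsGalois F C (tower_top). Algebra.norm_eq_prod_automorphisms: `algebraMap F C (norm F e) = ∏ g : C ≃ₐ[F] C, g e`. Bijection between `univ.filter (g s = s)` in `C ≃ₐ[K] C` and `univ` in `C ≃ₐ[F] C` (Finset.prod_bij' or prod_bij, `i g := g.restrictScalars K` from right to left; surjective: a `g` with `g s = s` is F-linear:
 the set of the `x : F` with `g (algebraMap F C x) = algebraMap F C x` is an intermediate field of F/K which contains s0, and `adjoin K {s0} = ⊤` (IntermediateField.adjoin_induction as in Pool/Agent/H55/T3/S2.lean)).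
-/

set_option autoImplicit false
open scoped Classical

open WeierstrassCurve IsDedekindDomain NumberField WithZero Pool.Agent.H10 Pool.Agent.H11 H55T3

namespace H55E

theorem prod_norm {K C F : Type} [Field K] [NumberField K] [Field C] [NumberField C] [Field F]
    [NumberField F] [Algebra K C] [IsGalois K C] [Algebra K F] [Algebra F C] [IsScalarTower K F C]
    {s : C} {s0 : F} (hs : algebraMap F C s0 = s) (hgen : IntermediateField.adjoin K {s0} = ⊤)
    (e : C) : ∏ g ∈ Finset.univ.filter (fun g : C ≃ₐ[K] C => g s = s), g e =
      algebraMap F C (Algebra.norm F e) := by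
  have : IsGalois F C := IsGalois.tower_top_of_isGalois K F C
  have : FiniteDimensional F C := Module.Finite.of_restrictScalars_finite K F C
  have hfix : ∀ g : C ≃ₐ[K] C, g s = s → ∀ x : F, g (algebraMap F C x) = algebraMap F C x := by
    intro g hg x
    have hx : x ∈ IntermediateField.adjoin K {s0} := by rw [hgen]; trivial
    induction hx using IntermediateField.adjoin_induction with
    | mem y hy =>
      rw [Set.mem_singleton_iff] at hy
      rw [hy, hs, hg]
    | algebraMap y =>
      rw [← IsScalarTower.algebraMap_apply, g.commutes]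
    | add y z _ _ h1 h2 => rw [map_add, map_add, h1, h2]
    | inv y _ h1 => rw [map_inv₀, map_inv₀, h1]
    | mul y z _ _ h1 h2 => rw [map_mul, map_mul, h1, h2]
  rw [Algebra.norm_eq_prod_automorphisms]
  symm
  refine Finset.prod_bij (fun (g : C ≃ₐ[F] C) _ => g.restrictScalars K) ?_ ?_ ?_ ?_
  · intro g _
    rw [Finset.mem_filter]
    refine ⟨Finset.mem_univ _, ?_⟩
    rw [AlgEquiv.restrictScalars_apply, ← hs, g.commutes]
  · intro g _ g' _ h
    ext x
    have := DFunLike.congr_fun h x
    rwa [AlgEquiv.restrictScalars_apply, AlgEquiv.restrictScalars_apply] at this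
  · intro g hg
    rw [Finset.mem_filter] at hg
    refine ⟨AlgEquiv.ofRingEquiv (f := g.toRingEquiv) (fun x => hfix g hg.2 x), Finset.mem_univ _, ?_⟩
    ext x
    rfl
  · intro g _
    rw [AlgEquiv.restrictScalars_apply]

end H55E
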