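import Pool.Agent.H55.TE.Df

/-!
Row Ga (about 100 lines): from the two kernels to the three-torsion. Model: `i0` in Pool/Agent/H55/T3/I0.lean (same notation).

PROOF. `bL := h.bc (AlgebraicClosure L)`, `bL' := h'.bcd (AlgebraicClosure L)` as in i0. For a cochain `f` put `F f := fun τ => pf V' W' D a b _ (f τ)`.
 Let `R1`, `R2` be the finite sets of H1 and H2. For `r ∈ R2` let `P r g` be: `g ∈ ShaZ L V'`, `∀ σ, 3 • g σ = 0` and `∃ T, Kr T ∧ F g = r + cbd W' T`. Choose `c r` with `P r (c r)` if such a `g` exists, else `c r = 0`.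
 R := image of `(r1, r2) ↦ c r2 + r1` on `R1 ×ˢ R2` (card_image_le, card_product).
 Let `f ∈ ShaZ L V'`, `3 • f σ = 0`. `F f` is a cocycle, locally trivial (pf_cocycle, pf_locTriv), Kr valued (kr_psF): H2: `F f = r2 + cbd W' T'`, so `P r2 f`, so `g := c r2` has `P r2 g`: `F g = r2 + cbd W' T''`. Then `F f τ - F g τ = (cbd W' (T' - T'')) τ`
 (cbd_add, cbd_neg), Kr (T' - T'') (kr_add, kr_neg for `bL'`), lift_kr: `T' - T'' = pf S0`, `3 • S0 = 0`. `t := f - g - cbd V' S0` is in ShaZ (sub_mem, cbd_mem_shaZ) and `pf (t τ) = 0` (pf_sub, pf_act), so `Kr (t τ)` (psF_eq_zero) as in i0.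
 H1: `t = r1 + cbd V' T`, Kr T, `3 • T = 0` (kr_three). `f = (g + r1) + cbd V' (S0 + T)`.
-/

set_option autoImplicit false
open scoped Classical

open WeierstrassCurve IsDedekindDomain NumberField WithZero Pool.Agent.H10 Pool.Agent.H11 H55T3

namespace H55E

theorem rep3_of_repK {L : Type} [Field L] [NumberField L] {V' W' : WeierstrassCurve L} {D a b : L}
    (h : Is3 V' D a b) (h' : Is3 W' (-3 * D) a (dl D a b)) {n m : ℕ} (H1 : RepK L V' n)
    (H2 : RepK L W' m) : Rep3 L V' (n * m) := by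
  obtain ⟨R1, hR1, H1⟩ := H1
  obtain ⟨R2, hR2, H2⟩ := H2
  have bL := h.bc (AlgebraicClosure L)
  have bL' := h'.bcd (AlgebraicClosure L)
  let F : Coch L V' → Coch L W' := fun f τ => pf V' W' D a b _ (f τ)
  let P : Coch L W' → Coch L V' → Prop := fun r g =>
    g ∈ ShaZ L V' ∧ (∀ σ, 3 • g σ = 0) ∧ ∃ T, Kr T ∧ F g = r + cbd W' T
  let c : Coch L W' → Coch L V' := fun r => if h : ∃ g, P r g then h.choose else 0
  have hc : ∀ r, (∃ g, P r g) → P r (c r) := by
    intro r hr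
    have h2 : c r = hr.choose := dif_pos hr
    rw [h2]
    exact hr.choose_spec
  refine ⟨(R1 ×ˢ R2).image (fun p => c p.2 + p.1), ?_, ?_⟩
  · refine Finset.card_image_le.trans ?_
    rw [Finset.card_product]
    exact Nat.mul_le_mul hR1 hR2
  · intro f hf hf3
    obtain ⟨r2, hr2, T', hT', hF⟩ := H2 (F f)
      ⟨pf_cocycle h h' hf.1, pf_locTriv h h' hf.2⟩ (fun σ => kr_psF bL bL' (hf3 σ))
    obtain ⟨hgZ, hg3, T'', hT'', hFg⟩ := hc r2 ⟨f, hf, hf3, T', hT', hF⟩
    have hKd : Kr (T' - T'') := by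
      rw [sub_eq_add_neg]
      exact kr_add bL' hT' (kr_neg.2 hT'')
    obtain ⟨S0, hS0, hS3⟩ := lift_kr bL bL' hKd
    obtain ⟨t, ht⟩ : ∃ t : Coch L V', t = f - c r2 - cbd V' S0 := ⟨_, rfl⟩
    have htZ : t ∈ ShaZ L V' := by
      rw [ht]
      exact (ShaZ L V').sub_mem ((ShaZ L V').sub_mem hf hgZ) (cbd_mem_shaZ V' S0)
    have htK : ∀ τ, Kr (t τ) := by
      intro τ
      rw [← psF_eq_zero bL bL']
      show pf V' W' D a b _ (t τ) = 0
      have e1 : t τ = f τ - c r2 τ - (act (inv_bc L V') τ S0 - S0) := by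
        rw [ht]
        rfl
      rw [e1, pf_sub h h', pf_sub h h', pf_sub h h', pf_act h h']
      have e2 : pf V' W' D a b (AlgebraicClosure L) S0 = T' - T'' := hS0
      have e3 : pf V' W' D a b (AlgebraicClosure L) (f τ) =
          r2 τ + (act (inv_bc L W') τ T' - T') := congrFun hF τ
      have e4 : pf V' W' D a b (AlgebraicClosure L) (c r2 τ) =
          r2 τ + (act (inv_bc L W') τ T'' - T'') := congrFun hFg τ
      rw [e2, e3, e4, map_sub]
      abel
    obtain ⟨r1, hr1, T, hT, hT1⟩ := H1 t htZ htK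
    refine ⟨c r2 + r1, Finset.mem_image.2 ⟨(r1, r2), Finset.mem_product.2 ⟨hr1, hr2⟩, rfl⟩,
      S0 + T, ?_, ?_⟩
    · rw [nsmul_add, hS3, kr_three bL hT, add_zero]
    · have e5 : f = t + c r2 + cbd V' S0 := by
        rw [ht]
        abel
      rw [e5, hT1, cbd_add]
      abel

end H55E
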