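import Pool.Agent.H55.TE.Df
import Pool.Agent.H86.T3G.Cnt3

/-!
Row Gb (about 150 lines): points and Tate-Shafarevich classes from the three-Selmer group.

PROOF. `iL := inv_bc (Ω := AlgebraicClosure L) L E`. Work with the additive group `Coch L E`. A := the AddSubgroup of `f ∈ ShaZ L E` with `∀ σ, 3 • f σ = 0`; `B3 E ≤ A` (I0.lean; cbd_mem_shaZ); C := the AddSubgroup of the `f ∈ A` with `∃ Y, f = cbd E Y`; `B3 E ≤ C ≤ A`.
 H gives: Q := A ⧸ (B3 E).addSubgroupOf A is finite with Nat.card Q ≤ n (injection into the finite set `R`: for `q` choose `r ∈ R` for `q.out`; if two classes have the same `r` then the difference of the representatives is `cbd (S - S')`, so it is in B3).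
 M := the image of C in Q (AddSubgroup.map (QuotientAddGroup.mk' _) (C.addSubgroupOf A)). Nat.card Q = Nat.card (Q ⧸ M) * Nat.card M (AddSubgroup.card_eq_card_quotient_mul_card_addSubgroup).
 T := for every class in `Q ⧸ M` one representative in A (image of a `Fintype.univ` under `fun x => x.out.out`), T.card ≤ Nat.card (Q ⧸ M).
 P := for every `m ∈ M`: choose `f ∈ C` over `m`, `f = cbd E Y`, `3 • f = 0`, so `act iL σ (3 • Y) = 3 • Y` for all σ and `3 • Y` is the image of a point `X ∈ E(L)` (pm_descent, used in Pool/Agent/H86/T3G/Cnt3.lean, proof of count_classes3: `hX`); P := the image of `m ↦ X`, P.card ≤ Nat.card M.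
 (1) X' ∈ E(L): there is Y' with `3 • Y' = j X'`, `j := pm (algebraMap L (AlgebraicClosure L)) rfl` (smul_surjective for the elliptic curve over the algebraic closure, used in Pool/Agent/H11/MW.lean exists_inj; E.baseChange is elliptic), `cbd E Y' ∈ C` (3 • cbd = cbd (3 • Y') = 0 as `j X'` is invariant: `hinv` in Cnt3.lean). Its class `m`; `f = cbd E Y` the chosen one over `m`, `X ∈ P`: `cbd Y' - cbd Y = cbd S`, `3 • S = 0`,
 so `Y' - Y - S` is invariant, `= j Z`, and `j X' - j X = 3 • (Y' - Y) = 3 • (Y' - Y - S) = j (3 • Z)`: X' = X + 3 • Z (pm_injective).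
 (2) f cocycle, locally trivial, `3 • f σ = act σ Y - Y` (isCobound_iff): `Y = 3 • Z` (smul_surjective), `f' := f - cbd E Z ∈ A`. The representative `t ∈ T` of the class of `f'` modulo C (and B3): `f' - t ∈ C`: so `f - t` is a coboundary.
-/

set_option autoImplicit false
open scoped Classical

open WeierstrassCurve IsDedekindDomain NumberField WithZero Pool.Agent.H10 Pool.Agent.H11 H55T3

namespace H55E

lemma Gb_rep {G : Type*} [AddCommGroup G] (H K : AddSubgroup G) (h : H.relIndex K ≠ 0) :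
    ∃ S : Finset G, S.card ≤ H.relIndex K ∧ (∀ s ∈ S, s ∈ K) ∧ ∀ f ∈ K, ∃ s ∈ S, f - s ∈ H := by
  have hfin : Finite (K ⧸ H.addSubgroupOf K) := Nat.finite_of_card_ne_zero h
  have := Fintype.ofFinite (K ⧸ H.addSubgroupOf K)
  refine ⟨Finset.univ.image fun q : K ⧸ H.addSubgroupOf K => ((q.out : K) : G), ?_, ?_, ?_⟩
  · refine Finset.card_image_le.trans (le_of_eq ?_)
    rw [Finset.card_univ, ← Nat.card_eq_fintype_card]
    rfl
  · intro s hs
    rw [Finset.mem_image] at hs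
    obtain ⟨q, _, rfl⟩ := hs
    exact (q.out : K).2
  · intro f hf
    refine ⟨((((⟨f, hf⟩ : K) : K ⧸ H.addSubgroupOf K).out : K) : G),
      Finset.mem_image_of_mem _ (Finset.mem_univ _), ?_⟩
    have h1 : ((((⟨f, hf⟩ : K) : K ⧸ H.addSubgroupOf K).out : K) : K ⧸ H.addSubgroupOf K) =
        ((⟨f, hf⟩ : K) : K ⧸ H.addSubgroupOf K) := QuotientAddGroup.out_eq' _
    rw [QuotientAddGroup.eq] at h1
    have h2 : -((((⟨f, hf⟩ : K) : K ⧸ H.addSubgroupOf K).out : K) : G) + f ∈ H := h1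
    rwa [neg_add_eq_sub] at h2

lemma Gb_idx {G : Type*} [AddCommGroup G] {H K : AddSubgroup G} {R : Finset G} {n : ℕ}
    (hn : R.card ≤ n) (h : ∀ f ∈ K, ∃ r ∈ R, f - r ∈ H) :
    H.relIndex K ≠ 0 ∧ H.relIndex K ≤ n := by
  have h1 : ∀ q : K ⧸ H.addSubgroupOf K, ∃ r : R, ((q.out : K) : G) - r ∈ H := by
    intro q
    obtain ⟨r, hr, hrH⟩ := h _ (q.out : K).2
    exact ⟨⟨r, hr⟩, hrH⟩
  choose φ hφ using h1
  have hinj : Function.Injective φ := by
    intro q q' hq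
    have h2 := hφ q
    have h3 := hφ q'
    rw [hq] at h2
    have h4 := H.sub_mem h3 h2
    rw [sub_sub_sub_cancel_right] at h4
    rw [← QuotientAddGroup.out_eq' q, ← QuotientAddGroup.out_eq' q', QuotientAddGroup.eq]
    show -((q.out : K) : G) + ((q'.out : K) : G) ∈ H
    rwa [neg_add_eq_sub]
  have hfin : Finite (K ⧸ H.addSubgroupOf K) := Finite.of_injective φ hinj
  have hne : Nonempty (K ⧸ H.addSubgroupOf K) := ⟨(0 : K ⧸ H.addSubgroupOf K)⟩
  refine ⟨Nat.card_pos.ne', ?_⟩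
  have h5 : Nat.card (K ⧸ H.addSubgroupOf K) ≤ Nat.card R :=
    Nat.card_le_card_of_injective φ hinj
  rw [Nat.card_eq_fintype_card (α := R), Fintype.card_coe] at h5
  exact h5.trans hn

lemma Gb_abs {G : Type*} [AddCommGroup G] {B C A : AddSubgroup G} (h1 : B ≤ C) (h2 : C ≤ A)
    {R : Finset G} {n : ℕ} (hn : R.card ≤ n) (h : ∀ f ∈ A, ∃ r ∈ R, f - r ∈ B) :
    ∃ S T : Finset G, S.card * T.card ≤ n ∧ (∀ s ∈ S, s ∈ C) ∧ (∀ f ∈ C, ∃ s ∈ S, f - s ∈ B) ∧
      ∀ f ∈ A, ∃ t ∈ T, f - t ∈ C := by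
  obtain ⟨h3, h4⟩ := Gb_idx hn h
  have h5 := AddSubgroup.relIndex_mul_relIndex B C A h1 h2
  have h6 : B.relIndex C ≠ 0 := fun h0 => h3 (by rw [← h5, h0, Nat.zero_mul])
  have h7 : C.relIndex A ≠ 0 := fun h0 => h3 (by rw [← h5, h0, Nat.mul_zero])
  obtain ⟨S, hS1, hS2, hS3⟩ := Gb_rep B C h6
  obtain ⟨T, hT1, _, hT3⟩ := Gb_rep C A h7
  exact ⟨S, T, (Nat.mul_le_mul hS1 hT1).trans (h5.le.trans h4), hS2, hS3, hT3⟩

/-- the coboundary as a homomorphism -/
noncomputable def Gb_cb {L : Type} [Field L] [NumberField L] (E : WeierstrassCurve L) :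
    (E.baseChange (AlgebraicClosure L)).toAffine.Point →+ Coch L E :=
  AddMonoidHom.mk' (cbd E) (cbd_add E)

lemma Gb_cb_apply {L : Type} [Field L] [NumberField L] (E : WeierstrassCurve L)
    (S : (E.baseChange (AlgebraicClosure L)).toAffine.Point) : Gb_cb E S = cbd E S := rfl

theorem points_of_rep3 {L : Type} [Field L] [NumberField L] {E : WeierstrassCurve L}
    [E.IsElliptic] {n : ℕ} (H : Rep3 L E n) :
    ∃ (P : Finset E.toAffine.Point) (T : Finset (Coch L E)),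
      (∀ X : E.toAffine.Point, ∃ p ∈ P, ∃ S, X = p + 3 • S) ∧
      (∀ f, IsCocycle L E f → IsLocTriv L E f → IsCobound L E (fun σ => 3 • f σ) →
        ∃ t ∈ T, IsCobound L E (fun σ => f σ - t σ)) ∧ P.card * T.card ≤ n := by
  obtain ⟨R, hR, hR2⟩ := H
  have hL : E.map (algebraMap L (AlgebraicClosure L)) = E.baseChange (AlgebraicClosure L) := rfl
  set j₀ := pm (algebraMap L (AlgebraicClosure L)) hL with hj₀
  have hinv : ∀ (σ : AlgebraicClosure L ≃ₐ[L] AlgebraicClosure L) (Y : E.toAffine.Point),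
      act (inv_bc L E) σ (j₀ Y) = j₀ Y := by
    intro σ Y
    unfold Pool.Agent.H10.act
    rw [hj₀, pm_pm]
    exact pm_congr _ _ (fun x => σ.commutes x) _
  have hdesc : ∀ Z : (E.baseChange (AlgebraicClosure L)).toAffine.Point, cbd E Z = 0 →
      ∃ X : E.toAffine.Point, j₀ X = Z := by
    intro Z hZ
    refine pm_descent hL (inv_bc L E) _ fun σ => ?_
    exact sub_eq_zero.1 (congrFun hZ σ)
  set A : AddSubgroup (Coch L E) := ShaZ L E ⊓ (nsmulAddMonoidHom (α := Coch L E) 3).ker with hA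
  have hmA : ∀ f : Coch L E, f ∈ A ↔ f ∈ ShaZ L E ∧ 3 • f = 0 := fun f => Iff.rfl
  set C : AddSubgroup (Coch L E) := A ⊓ (Gb_cb E).range with hC
  have hmC : ∀ f : Coch L E, f ∈ C ↔ f ∈ A ∧ ∃ Y, cbd E Y = f := fun f => Iff.rfl
  have hn3 : ∀ Y : (E.baseChange (AlgebraicClosure L)).toAffine.Point,
      3 • cbd E Y = cbd E (3 • Y) := fun Y => (map_nsmul (Gb_cb E) 3 Y).symm
  have hBC : B3 E ≤ C := by
    rintro _ ⟨S, hS, rfl⟩
    refine ⟨⟨cbd_mem_shaZ E S, ?_⟩, S, rfl⟩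
    show 3 • cbd E S = 0
    rw [hn3, hS, cbd_zero]
  obtain ⟨S, T, hST, hS1, hS2, hT⟩ := Gb_abs hBC inf_le_left hR (fun f hf => by
    obtain ⟨r, hr, S, hS, hfS⟩ := hR2 f hf.1 (fun σ => congrFun ((hmA f).1 hf).2 σ)
    refine ⟨r, hr, S, hS, ?_⟩
    rw [hfS, add_sub_cancel_left])
  have hX : ∀ s ∈ S, ∃ (X : E.toAffine.Point)
      (Y : (E.baseChange (AlgebraicClosure L)).toAffine.Point), cbd E Y = s ∧ j₀ X = 3 • Y := by
    intro s hs
    obtain ⟨h1, Y, hY⟩ := (hmC s).1 (hS1 s hs)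
    obtain ⟨X, hX⟩ := hdesc (3 • Y) (by rw [← hn3, hY]; exact ((hmA s).1 h1).2)
    exact ⟨X, Y, hY, hX⟩
  choose! X Y hXY using hX
  refine ⟨S.image X, T, ?_, ?_, ?_⟩
  · intro X'
    obtain ⟨Y', hY'⟩ := smul_surjective (E.baseChange (AlgebraicClosure L)) 3 (by norm_num) (j₀ X')
    have hY'C : cbd E Y' ∈ C := by
      refine (hmC _).2 ⟨(hmA _).2 ⟨cbd_mem_shaZ E Y', ?_⟩, Y', rfl⟩
      rw [hn3, hY']
      funext σ
      exact sub_eq_zero.2 (hinv σ X')
    obtain ⟨s, hs, S0, hS0, hsS0⟩ := hS2 _ hY'C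
    obtain ⟨hY, hX⟩ := hXY s hs
    obtain ⟨Z, hZ⟩ := hdesc (Y' - Y s - S0) (by
      have h1 : cbd E (Y' - Y s - S0) = cbd E Y' - cbd E (Y s) - cbd E S0 := by
        rw [← Gb_cb_apply, map_sub, map_sub]
        rfl
      rw [h1, hY, hsS0, sub_self])
    refine ⟨X s, Finset.mem_image_of_mem _ hs, Z, ?_⟩
    apply pm_injective (algebraMap L (AlgebraicClosure L)) hL
    rw [← hj₀, map_add, map_nsmul, hZ, nsmul_sub, nsmul_sub, hS0, sub_zero, hY', hX,
      add_sub_cancel]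
  · intro f hf1 hf2 hf3
    rw [Pool.Agent.H10.isCobound_iff] at hf3
    obtain ⟨Y1, hY1⟩ := hf3
    obtain ⟨Z, hZ⟩ := smul_surjective (E.baseChange (AlgebraicClosure L)) 3 (by norm_num) Y1
    have hfA : f - cbd E Z ∈ A := by
      refine (hmA _).2 ⟨(ShaZ L E).sub_mem ⟨hf1, hf2⟩ (cbd_mem_shaZ E Z), ?_⟩
      rw [nsmul_sub, hn3, hZ]
      funext σ
      show 3 • f σ - (act (inv_bc L E) σ Y1 - Y1) = 0
      rw [← hY1 σ, sub_self]
    obtain ⟨t, ht, htC⟩ := hT _ hfA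
    obtain ⟨_, Y2, hY2⟩ := (hmC _).1 htC
    refine ⟨t, ht, ?_⟩
    rw [Pool.Agent.H10.isCobound_iff]
    refine ⟨Z + Y2, fun σ => ?_⟩
    have h1 : f - t = cbd E (Z + Y2) := by
      rw [cbd_add, hY2]
      abel
    exact congrFun h1 σ
  · exact (Nat.mul_le_mul_right _ Finset.card_image_le).trans hST

end H55E
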