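import Pool.Agent.H55.TE.Df

/-!
Row Gc (about 160 lines): the Kummer parameter in `B = L(s)`, `s^2 = D` not a square in `L`. Model: `k7` in Pool/Agent/H55/T3/K7.lean with `K := L` (take `V' := V`, `V.map (algebraMap L L)`... simpler: copy the first half of the proof with `h : Is3 V D a b` over `L`, `VB := V.map (algebraMap L B)`, `hLB : V.map (algebraMap L B) = VB := rfl`).

PROOF. (1) For `f ∈ ShaZ L V` (ShaZ: ⟨cocycle, locally trivial⟩), Kr valued: `F := Pool.Agent.H10.trans (jj L B) (map_jj hLB) f`, `hFc`, `hFk`, kum3 over B for `resF hLB f`: r, d, loc3: FinSol3; k7_loc: FinM; K7_opp: the twisted condition (`hopp` in k7). Put δ f := d (choose; else 1). So for every such `f` there are `d` and `r ≠ 0` in AlgebraicClosure B with `r ^ 3 = d`, and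
 `hr2 : ∀ τ : Gal(B), τ r = ee (s) (b) (F (τ.restrictScalars L)) * r`. State a private lemma with this existence and define δ by choice (keep `r f` too).
 (2) `f`, `f'`, `δ f / δ f' = y ^ 3`, `y ≠ 0`: `r / (r' y)` has cube one, so it is `z = ee s b T`, Kr T (ee_surj), and for τ over B: `τ z / z = ee (F τ) / ee (F' τ)` (hr2), `τ z = ee (act τ T)` (ee_pm, τ fixes s and b), so `ee (F τ - F' τ) = ee (act τ T - T)` (ee_add, ee_neg) and `F τ - F' τ = act τ T - T` for all τ over B (ee_inj; Kr by kr_add, kr_neg, kr_pm). (Compare the end of k5 in K5.lean.)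
 (3) From Gal(B) to Gal(L): `c := F - F'` on `Ω ≃ₐ[L] Ω`, Ω = AlgebraicClosure B, with values in the subgroup Q of the kernel points (as in k7); K7_coc (K7.lean) with N := the kernel of the restriction to B (as in the proof of K7_one: hker, hcard, Dn_two, Dn_hom): `T' ∈ Q` with `c σ = act σ T' - T'` for all σ.
 (4) back to the closure of L: step (3) of k7: `T0 := pm (jj L B).symm _ T'` and `f τ - f' τ = act τ T0 - T0` (apply pm_injective; `F τ' = pm (f τ)`).
-/

set_option autoImplicit false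
open scoped Classical

open WeierstrassCurve IsDedekindDomain NumberField WithZero Pool.Agent.H10 Pool.Agent.H11 H55T3

namespace H55E

/-- (1) the Kummer parameter -/
private theorem Gc_par {L B : Type} [Field L] [NumberField L] [Field B] [NumberField B]
    [Algebra L B] [IsGalois L B] {V : WeierstrassCurve L} {VB : WeierstrassCurve B} {D a b : L}
    (h : Is3 V D a b) (hLB : V.map (algebraMap L B) = VB) {s : B}
    (hs : s ^ 2 = algebraMap L B D) (hgen : ∀ g : B ≃ₐ[L] B, g s = s → g = 1)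
    {f : Coch L V} (hf : f ∈ ShaZ L V) (hk : ∀ σ, Kr (f σ)) :
    ∃ (r : AlgebraicClosure B) (d : B), r ≠ 0 ∧ d ≠ 0 ∧
      r ^ 3 = algebraMap B (AlgebraicClosure B) d ∧
      (∀ τ : AlgebraicClosure B ≃ₐ[B] AlgebraicClosure B,
        τ r = ee (algebraMap B (AlgebraicClosure B) s) (algebraMap L (AlgebraicClosure B) b)
          (Pool.Agent.H10.trans (jj L B) (map_jj hLB) f (τ.restrictScalars L)) * r) ∧
      FinSol3 B s (algebraMap L B a) (algebraMap L B (9 * b + 4 * D * a ^ 3)) d ∧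
      FinM s D a (9 * b + 4 * D * a ^ 3) d ∧
      ∀ g : B ≃ₐ[L] B, g s = -s → ∃ y, g d * d = y ^ 3 := by
  obtain ⟨hc, hl⟩ := hf
  obtain ⟨F, hFdef⟩ : ∃ F, F = Pool.Agent.H10.trans (jj L B) (map_jj hLB) f := ⟨_, rfl⟩
  have hFc : IsCoc (inv_up hLB) F := by
    rw [hFdef]
    exact isCoc_trans (jj L B) (map_jj hLB) (h' := inv_up hLB)
      ((Pool.Agent.H10.isCocycle_iff f).1 hc)
  have hFk : ∀ σ, Kr (F σ) := by
    intro σ
    rw [hFdef]
    exact (kr_pm _ _).2 (hk _)
  have hE : Is3 (VB.baseChange (AlgebraicClosure B)) (algebraMap L (AlgebraicClosure B) D)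
      (algebraMap L (AlgebraicClosure B) a) (algebraMap L (AlgebraicClosure B) b) :=
    h.up (map_up hLB)
  have hVB : Is3 VB (algebraMap L B D) (algebraMap L B a) (algebraMap L B b) := h.up hLB
  have hcB := isCocycle_res hLB hc
  have hlB := isLocTriv_res hLB hc hl
  have hres : resF hLB f = fun ρ : AlgebraicClosure B ≃ₐ[B] AlgebraicClosure B =>
      F (ρ.restrictScalars L) := by
    rw [hFdef]
    rfl
  have hkB : ∀ σ, Kr (resF hLB f σ) := by
    intro σ
    rw [hres]
    exact hFk _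
  obtain ⟨r, d, hr, hd0, hd, hr'⟩ := kum3 (k := B) (hVB.bc (AlgebraicClosure B)) hs (inv_bc B VB)
    ((Pool.Agent.H10.isCocycle_iff _).1 hcB) hkB
  have hfin := loc3 hVB hs hlB hkB hr hd hr'
  have hcc : 9 * algebraMap L B b + 4 * algebraMap L B D * (algebraMap L B a) ^ 3 =
      algebraMap L B (9 * b + 4 * D * a ^ 3) := by
    simp only [map_add, map_mul, map_pow, map_ofNat]
  rw [hcc] at hfin
  have hr2 : ∀ τ : AlgebraicClosure B ≃ₐ[B] AlgebraicClosure B,
      τ r = ee (algebraMap B (AlgebraicClosure B) s)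
        (algebraMap L (AlgebraicClosure B) b) (F (τ.restrictScalars L)) * r := by
    intro τ
    have h1 := hr' τ
    rw [← IsScalarTower.algebraMap_apply L B (AlgebraicClosure B), hres] at h1
    exact h1
  have hfinM := k7_loc h hLB hs hgen hl hk hr hd (by
    intro τ
    have h1 := hr2 τ
    rw [hFdef] at h1
    exact h1)
  have hopp : ∀ g0 : B ≃ₐ[L] B, g0 s = -s → ∃ y, g0 d * d = y ^ 3 := by
    intro g0 hg0
    obtain ⟨y, _, hy⟩ := K7_opp hE hs (inv_up hLB) hFc hFk hr hd hr2 (lf g0)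
      (by rw [lf_apply, hg0, map_neg])
    exact ⟨y, hy (g0 d) (lf_apply g0 d)⟩
  refine ⟨r, d, hr, hd0, hd, ?_, hfin, hfinM, hopp⟩
  intro τ
  have h1 := hr2 τ
  rw [hFdef] at h1
  exact h1

/-- (2) comparison over `B` -/
private theorem Gc_cmp {L B : Type} [Field L] [NumberField L] [Field B] [NumberField B]
    [Algebra L B] {VB : WeierstrassCurve B} {D a b : L}
    (hE : Is3 (VB.baseChange (AlgebraicClosure B)) (algebraMap L (AlgebraicClosure B) D)
      (algebraMap L (AlgebraicClosure B) a) (algebraMap L (AlgebraicClosure B) b)) {s : B}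
    (hs : s ^ 2 = algebraMap L B D)
    {F F' : (AlgebraicClosure B ≃ₐ[L] AlgebraicClosure B) →
      (VB.baseChange (AlgebraicClosure B)).toAffine.Point}
    (hk : ∀ σ, Kr (F σ)) (hk' : ∀ σ, Kr (F' σ))
    {r r' : AlgebraicClosure B} {d d' y : B} (hr : r ≠ 0) (hr' : r' ≠ 0)
    (hd0 : d ≠ 0) (hd0' : d' ≠ 0)
    (hd : r ^ 3 = algebraMap B (AlgebraicClosure B) d)
    (hd' : r' ^ 3 = algebraMap B (AlgebraicClosure B) d')
    (hF : ∀ τ : AlgebraicClosure B ≃ₐ[B] AlgebraicClosure B,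
      τ r = ee (algebraMap B (AlgebraicClosure B) s) (algebraMap L (AlgebraicClosure B) b)
        (F (τ.restrictScalars L)) * r)
    (hF' : ∀ τ : AlgebraicClosure B ≃ₐ[B] AlgebraicClosure B,
      τ r' = ee (algebraMap B (AlgebraicClosure B) s) (algebraMap L (AlgebraicClosure B) b)
        (F' (τ.restrictScalars L)) * r')
    (hy : d / d' = y ^ 3) :
    ∃ T, Kr T ∧ ∀ τ : AlgebraicClosure B ≃ₐ[B] AlgebraicClosure B,
      F (τ.restrictScalars L) = F' (τ.restrictScalars L) +
        (Pool.Agent.H10.act (inv_bc B VB) τ T - T) := by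
  have hsE : (algebraMap B (AlgebraicClosure B) s) ^ 2 = algebraMap L (AlgebraicClosure B) D := by
    rw [← map_pow, hs, ← IsScalarTower.algebraMap_apply]
  have hy' : d = d' * y ^ 3 := by
    rw [← hy]
    field_simp
  have hy0 : y ≠ 0 := by
    rintro rfl
    apply hd0
    rw [hy']
    ring
  obtain ⟨Y, hY⟩ : ∃ Y, Y = algebraMap B (AlgebraicClosure B) y := ⟨_, rfl⟩
  have hY0 : Y ≠ 0 := by
    rw [hY]
    exact (map_ne_zero _).2 hy0
  have e1 : r ^ 3 = r' ^ 3 * Y ^ 3 := by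
    rw [hd, hy', map_mul, map_pow, ← hd', hY]
  have hrY : r' * Y ≠ 0 := mul_ne_zero hr' hY0
  obtain ⟨z, hz⟩ : ∃ z, r = z * (r' * Y) := ⟨r / (r' * Y), (div_mul_cancel₀ _ hrY).symm⟩
  have hz3 : z ^ 3 = 1 := by
    have h1 : z ^ 3 * (r' * Y) ^ 3 = 1 * (r' * Y) ^ 3 := by
      rw [← mul_pow, ← hz, e1]
      ring
    exact mul_right_cancel₀ (pow_ne_zero 3 hrY) h1
  have hz0 : z ≠ 0 := by
    rintro rfl
    rw [zero_pow three_ne_zero] at hz3
    exact zero_ne_one hz3
  obtain ⟨T, hT, hTz⟩ := ee_surj hE hsE hz3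
  refine ⟨T, hT, fun τ => ?_⟩
  have k2 : Kr (Pool.Agent.H10.act (inv_bc B VB) τ T) := (kr_pm _ _).2 hT
  have k3 : Kr (Pool.Agent.H10.act (inv_bc B VB) τ T - T) := by
    rw [sub_eq_add_neg]
    exact kr_add hE k2 (kr_neg.2 hT)
  apply ee_inj hE hsE (hk _) (kr_add hE (hk' _) k3)
  rw [ee_add hE hsE (hk' _) k3, sub_eq_add_neg, ee_add hE hsE k2 (kr_neg.2 hT),
    ee_neg hE hsE hT, hTz]
  have e3 : ee (algebraMap B (AlgebraicClosure B) s) (algebraMap L (AlgebraicClosure B) b)
      (Pool.Agent.H10.act (inv_bc B VB) τ T) = τ z := by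
    have h1 := ee_pm (s := algebraMap B (AlgebraicClosure B) s)
      (b := algebraMap L (AlgebraicClosure B) b)
      (φ := (τ : AlgebraicClosure B →+* AlgebraicClosure B)) (inv_bc B VB τ) T
    have h2 : (τ : AlgebraicClosure B →+* AlgebraicClosure B)
        (algebraMap B (AlgebraicClosure B) s) = algebraMap B (AlgebraicClosure B) s :=
      τ.commutes _
    have h3 : (τ : AlgebraicClosure B →+* AlgebraicClosure B)
        (algebraMap L (AlgebraicClosure B) b) = algebraMap L (AlgebraicClosure B) b := by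
      rw [IsScalarTower.algebraMap_apply L B (AlgebraicClosure B)]
      exact τ.commutes _
    rw [h2, h3, hTz] at h1
    exact h1
  rw [e3]
  have e4 : τ r = τ z * (ee (algebraMap B (AlgebraicClosure B) s)
      (algebraMap L (AlgebraicClosure B) b) (F' (τ.restrictScalars L)) * r' * Y) := by
    rw [hz, map_mul, map_mul, hF', hY, τ.commutes]
  rw [hF, hz] at e4
  have e6 : (ee (algebraMap B (AlgebraicClosure B) s) (algebraMap L (AlgebraicClosure B) b)
      (F (τ.restrictScalars L))) * z =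
      ee (algebraMap B (AlgebraicClosure B) s) (algebraMap L (AlgebraicClosure B) b)
        (F' (τ.restrictScalars L)) * τ z := by
    apply mul_right_cancel₀ hrY
    rw [mul_assoc, e4]
    ring
  rw [← mul_assoc, ← e6, mul_assoc, mul_inv_cancel₀ hz0, mul_one]

/-- (3) from `B` to `L` -/
private theorem Gc_down {L B : Type} [Field L] [NumberField L] [Field B] [NumberField B]
    [Algebra L B] [IsGalois L B] {V : WeierstrassCurve L} {VB : WeierstrassCurve B} {D a b : L}
    (hLB : V.map (algebraMap L B) = VB)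
    (hE : Is3 (VB.baseChange (AlgebraicClosure B)) (algebraMap L (AlgebraicClosure B) D)
      (algebraMap L (AlgebraicClosure B) a) (algebraMap L (AlgebraicClosure B) b))
    (h2 : Module.finrank L B = 2)
    {F F' : (AlgebraicClosure B ≃ₐ[L] AlgebraicClosure B) →
      (VB.baseChange (AlgebraicClosure B)).toAffine.Point}
    (hF : IsCoc (inv_up hLB) F) (hF' : IsCoc (inv_up hLB) F')
    (hk : ∀ σ, Kr (F σ)) (hk' : ∀ σ, Kr (F' σ))
    {T : (VB.baseChange (AlgebraicClosure B)).toAffine.Point} (hT : Kr T)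
    (H : ∀ τ : AlgebraicClosure B ≃ₐ[B] AlgebraicClosure B,
      F (τ.restrictScalars L) = F' (τ.restrictScalars L) +
        (Pool.Agent.H10.act (inv_bc B VB) τ T - T)) :
    ∃ T', Kr T' ∧ ∀ τ, F τ = F' τ + (Pool.Agent.H10.act (inv_up hLB) τ T' - T') := by
  let Q : AddSubgroup (VB.baseChange (AlgebraicClosure B)).toAffine.Point :=
    { carrier := {P | Kr P}
      zero_mem' := (kr_zero :
        Kr (0 : (VB.baseChange (AlgebraicClosure B)).toAffine.Point))
      add_mem' := by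
        intro P P' hP hP'
        exact kr_add hE hP hP'
      neg_mem' := by
        intro P hP
        exact kr_neg.2 hP }
  have hQ3 : ∀ x ∈ Q, 3 • x = 0 := fun x hx => kr_three hE hx
  have hQa : ∀ τ : AlgebraicClosure B ≃ₐ[L] AlgebraicClosure B, ∀ x ∈ Q,
      Pool.Agent.H10.act (inv_up hLB) τ x ∈ Q := fun τ x hx => (kr_pm _ _).2 hx
  have hker : ∀ τ : AlgebraicClosure B ≃ₐ[L] AlgebraicClosure B,
      τ ∈ (AlgEquiv.restrictNormalHom (F := L) (K₁ := AlgebraicClosure B) B).ker ↔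
      ∀ x : B, τ (algebraMap B (AlgebraicClosure B) x) = algebraMap B (AlgebraicClosure B) x :=
    fun τ => K6a_ker τ
  have hcard : Nat.card (B ≃ₐ[L] B) = 2 := by
    rw [IsGalois.card_aut_eq_finrank, h2]
  obtain ⟨T', hT', H'⟩ := K7_coc (Dn_hom (inv_up hLB))
    ((AlgEquiv.restrictNormalHom (F := L) (K₁ := AlgebraicClosure B) B).ker :
      Set (AlgebraicClosure B ≃ₐ[L] AlgebraicClosure B))
    (fun σ τ hσ hτ => by
      rw [SetLike.mem_coe, MonoidHom.mem_ker] at hσ hτ ⊢
      rw [map_mul]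
      exact Dn_two hcard hσ hτ)
    (fun σ hσ => by
      rw [SetLike.mem_coe, inv_mem_iff]
      exact hσ)
    (fun ρ σ hρ hσ => by
      rw [SetLike.mem_coe, mul_mem_cancel_left hρ]
      exact hσ)
    (c := fun τ => F τ - F' τ)
    (fun σ τ => by
      change _ = _ + Pool.Agent.H10.act (inv_up hLB) σ (_ - _)
      rw [hF.2, hF'.2, map_sub]
      abel)
    Q hQ3 (fun σ x hx => hQa σ x hx)
    (fun σ => Q.sub_mem (hk σ) (hk' σ))
    (show T ∈ Q from hT)
    (fun ρ hρ => by
      have h1 := H (K6a_mk ρ ((hker ρ).1 hρ))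
      change _ = Pool.Agent.H10.act (inv_up hLB) ρ T - T
      have e1 : (K6a_mk ρ ((hker ρ).1 hρ)).restrictScalars L = ρ := rfl
      rw [e1] at h1
      rw [h1, add_sub_cancel_left]
      rfl)
  refine ⟨T', hT', fun τ => ?_⟩
  have h1 := H' τ
  change F τ - F' τ = Pool.Agent.H10.act (inv_up hLB) τ T' - T' at h1
  rw [← h1]
  abel

/-- (4) back to the closure of `L` -/
private theorem Gc_back {L B : Type} [Field L] [NumberField L] [Field B] [NumberField B]
    [Algebra L B] {V : WeierstrassCurve L} {VB : WeierstrassCurve B}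
    (hLB : V.map (algebraMap L B) = VB) {f f' : Coch L V}
    {T' : (VB.baseChange (AlgebraicClosure B)).toAffine.Point} (hT' : Kr T')
    (H : ∀ τ, Pool.Agent.H10.trans (jj L B) (map_jj hLB) f τ =
      Pool.Agent.H10.trans (jj L B) (map_jj hLB) f' τ +
        (Pool.Agent.H10.act (inv_up hLB) τ T' - T')) :
    ∃ T, Kr T ∧ f = f' + cbd V T := by
  let j := jj L B
  refine ⟨pm (j.symm : AlgebraicClosure B →+* AlgebraicClosure L) (map_jj_symm hLB) T',
    (kr_pm _ _).2 hT', ?_⟩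
  funext τ
  let τ' : AlgebraicClosure B ≃ₐ[L] AlgebraicClosure B := (j.symm.trans τ).trans j
  have hτ' : ∀ z, τ' z = j (τ (j.symm z)) := fun z => rfl
  have e1 : (j.trans τ').trans j.symm = τ := by
    refine AlgEquiv.ext fun y => ?_
    change j.symm (τ' (j y)) = τ y
    rw [hτ', j.symm_apply_apply, j.symm_apply_apply]
  have h1 := H τ'
  have hTT : pm (j : AlgebraicClosure L →+* AlgebraicClosure B) (map_jj hLB)
      (pm (j.symm : AlgebraicClosure B →+* AlgebraicClosure L) (map_jj_symm hLB) T') = T' := by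
    rw [pm_pm]
    exact pm_eq_self _ (fun x => j.apply_symm_apply x) T'
  have hFτ : ∀ f : Coch L V, Pool.Agent.H10.trans (jj L B) (map_jj hLB) f τ' =
      pm (j : AlgebraicClosure L →+* AlgebraicClosure B) (map_jj hLB) (f τ) := by
    intro f
    unfold Pool.Agent.H10.trans
    rw [e1]
  apply pm_injective (j : AlgebraicClosure L →+* AlgebraicClosure B) (map_jj hLB)
  have h6 : pm (j : AlgebraicClosure L →+* AlgebraicClosure B) (map_jj hLB)
      (Pool.Agent.H10.act (inv_bc L V) τ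
        (pm (j.symm : AlgebraicClosure B →+* AlgebraicClosure L) (map_jj_symm hLB) T')) =
      Pool.Agent.H10.act (inv_up hLB) τ' T' := by
    unfold Pool.Agent.H10.act
    rw [pm_pm, pm_pm]
    apply pm_congr
    intro x
    change j (τ (j.symm x)) = τ' x
    rw [hτ']
  rw [hFτ, hFτ] at h1
  change _ = pm (j : AlgebraicClosure L →+* AlgebraicClosure B) (map_jj hLB)
    (f' τ + (Pool.Agent.H10.act (inv_bc L V) τ
      (pm (j.symm : AlgebraicClosure B →+* AlgebraicClosure L) (map_jj_symm hLB) T') -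
      pm (j.symm : AlgebraicClosure B →+* AlgebraicClosure L) (map_jj_symm hLB) T'))
  rw [h1, map_add, map_sub, h6, hTT]

theorem kum_two {L B : Type} [Field L] [NumberField L] [Field B] [NumberField B] [Algebra L B]
    [IsGalois L B] {V : WeierstrassCurve L} {D a b : L} (h : Is3 V D a b) {s : B}
    (hs : s ^ 2 = algebraMap L B D) (h2 : Module.finrank L B = 2)
    (hgen : ∀ g : B ≃ₐ[L] B, g s = s → g = 1) :
    ∃ δ : Coch L V → B, (∀ f ∈ ShaZ L V, (∀ σ, Kr (f σ)) → δ f ≠ 0 ∧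
      FinSol3 B s (algebraMap L B a) (algebraMap L B (9 * b + 4 * D * a ^ 3)) (δ f) ∧
      FinM s D a (9 * b + 4 * D * a ^ 3) (δ f) ∧
      ∀ g : B ≃ₐ[L] B, g s = -s → ∃ y, g (δ f) * δ f = y ^ 3) ∧
    ∀ f ∈ ShaZ L V, (∀ σ, Kr (f σ)) → ∀ f' ∈ ShaZ L V, (∀ σ, Kr (f' σ)) →
      (∃ y, δ f / δ f' = y ^ 3) → ∃ T, Kr T ∧ f = f' + cbd V T := by
  obtain ⟨VB, hLB⟩ : ∃ VB, V.map (algebraMap L B) = VB := ⟨_, rfl⟩
  have hE : Is3 (VB.baseChange (AlgebraicClosure B)) (algebraMap L (AlgebraicClosure B) D)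
      (algebraMap L (AlgebraicClosure B) a) (algebraMap L (AlgebraicClosure B) b) :=
    h.up (map_up hLB)
  have key : ∀ f : Coch L V, ∃ (r : AlgebraicClosure B) (d : B), f ∈ ShaZ L V →
      (∀ σ, Kr (f σ)) → r ≠ 0 ∧ d ≠ 0 ∧
      r ^ 3 = algebraMap B (AlgebraicClosure B) d ∧
      (∀ τ : AlgebraicClosure B ≃ₐ[B] AlgebraicClosure B,
        τ r = ee (algebraMap B (AlgebraicClosure B) s) (algebraMap L (AlgebraicClosure B) b)
          (Pool.Agent.H10.trans (jj L B) (map_jj hLB) f (τ.restrictScalars L)) * r) ∧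
      FinSol3 B s (algebraMap L B a) (algebraMap L B (9 * b + 4 * D * a ^ 3)) d ∧
      FinM s D a (9 * b + 4 * D * a ^ 3) d ∧
      ∀ g : B ≃ₐ[L] B, g s = -s → ∃ y, g d * d = y ^ 3 := by
    intro f
    by_cases hf : f ∈ ShaZ L V ∧ ∀ σ, Kr (f σ)
    · obtain ⟨r, d, hrd⟩ := Gc_par h hLB hs hgen hf.1 hf.2
      exact ⟨r, d, fun _ _ => hrd⟩
    · exact ⟨1, 1, fun h1 h2 => absurd ⟨h1, h2⟩ hf⟩
  choose r δ hδ using key
  refine ⟨δ, fun f hf hk => ?_, fun f hf hk f' hf' hk' hy => ?_⟩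
  · obtain ⟨_, h1, _, _, h3, h4, h5⟩ := hδ f hf hk
    exact ⟨h1, h3, h4, h5⟩
  · obtain ⟨y, hy⟩ := hy
    obtain ⟨a1, a2, a3, a4, -⟩ := hδ f hf hk
    obtain ⟨b1, b2, b3, b4, -⟩ := hδ f' hf' hk'
    have hFk : ∀ σ, Kr (Pool.Agent.H10.trans (jj L B) (map_jj hLB) f σ) :=
      fun σ => (kr_pm _ _).2 (hk _)
    have hFk' : ∀ σ, Kr (Pool.Agent.H10.trans (jj L B) (map_jj hLB) f' σ) :=
      fun σ => (kr_pm _ _).2 (hk' _)
    have hFc : IsCoc (inv_up hLB) (Pool.Agent.H10.trans (jj L B) (map_jj hLB) f) :=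
      isCoc_trans (jj L B) (map_jj hLB) (h' := inv_up hLB)
        ((Pool.Agent.H10.isCocycle_iff f).1 hf.1)
    have hFc' : IsCoc (inv_up hLB) (Pool.Agent.H10.trans (jj L B) (map_jj hLB) f') :=
      isCoc_trans (jj L B) (map_jj hLB) (h' := inv_up hLB)
        ((Pool.Agent.H10.isCocycle_iff f').1 hf'.1)
    obtain ⟨T, hT, HT⟩ := Gc_cmp hE hs hFk hFk' a1 b1 a2 b2 a3 b3 a4 b4 hy
    obtain ⟨T', hT', HT'⟩ := Gc_down hLB hE h2 hFc hFc' hFk hFk' hT HT
    exact Gc_back hLB hT' HT'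

end H55E
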