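import Pool.Agent.H55.TE.Df

/-!
Row Gd (about 90 lines): the Kummer parameter in `L`, `s^2 = D`, `s ∈ L`. Model: `k5` in Pool/Agent/H55/T3/K5.lean.

PROOF. (1) For `f ∈ ShaZ L V`, Kr valued: kum3 (as in k5): r ≠ 0, d ≠ 0, `r ^ 3 = d`, `σ r = ee s b (f σ) * r` for all σ; loc3: FinSol3 L s a (9 b + 4 D a^3) d. Private lemma; define δ by choice (keep `r`).
 (2) `δ f / δ f' = y ^ 3`, `y ≠ 0`: `z := r / (r' y)` has cube one: `z = ee s b T`, Kr T (ee_surj). For all σ: `σ z / z = ee (f σ) / ee (f' σ)` and `σ z = ee (act σ T)` (ee_pm, σ fixes s and b), so `f σ = f' σ + (act σ T - T)` (ee_inj with ee_add, ee_neg; kr_add, kr_neg, kr_pm), as at the end of k5.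
-/

set_option autoImplicit false
open scoped Classical

open WeierstrassCurve IsDedekindDomain NumberField WithZero Pool.Agent.H10 Pool.Agent.H11 H55T3

namespace H55E

theorem kum_one {L : Type} [Field L] [NumberField L] {V : WeierstrassCurve L} {D a b : L}
    (h : Is3 V D a b) {s : L} (hs : s ^ 2 = D) :
    ∃ δ : Coch L V → L, (∀ f ∈ ShaZ L V, (∀ σ, Kr (f σ)) → δ f ≠ 0 ∧
      FinSol3 L s a (9 * b + 4 * D * a ^ 3) (δ f)) ∧
    ∀ f ∈ ShaZ L V, (∀ σ, Kr (f σ)) → ∀ f' ∈ ShaZ L V, (∀ σ, Kr (f' σ)) →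
      (∃ y, δ f / δ f' = y ^ 3) → ∃ T, Kr T ∧ f = f' + cbd V T := by
  have hE := h.bc (AlgebraicClosure L)
  have hsE : (algebraMap L (AlgebraicClosure L) s) ^ 2 = algebraMap L (AlgebraicClosure L) D := by
    rw [← map_pow, hs]
  have key : ∀ f : Coch L V, ∃ d : L, f ∈ ShaZ L V → (∀ σ, Kr (f σ)) → (d ≠ 0 ∧
      FinSol3 L s a (9 * b + 4 * D * a ^ 3) d) ∧ ∃ r : AlgebraicClosure L, r ≠ 0 ∧
      r ^ 3 = algebraMap L (AlgebraicClosure L) d ∧
      ∀ σ : AlgebraicClosure L ≃ₐ[L] AlgebraicClosure L,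
        σ r = ee (algebraMap L (AlgebraicClosure L) s) (algebraMap L (AlgebraicClosure L) b) (f σ) * r := by
    intro f
    by_cases hf : f ∈ ShaZ L V ∧ ∀ σ, Kr (f σ)
    · obtain ⟨⟨hf1, hf2⟩, hk⟩ := hf
      obtain ⟨r, d, hr, hd, hrd, hσ⟩ := kum3 hE hs (inv_bc L V) ((Pool.Agent.H10.isCocycle_iff f).1 hf1) hk
      exact ⟨d, fun _ _ => ⟨⟨hd, loc3 h hs hf2 hk hr hrd hσ⟩, r, hr, hrd, hσ⟩⟩
    · exact ⟨1, fun h1 h2 => absurd ⟨h1, h2⟩ hf⟩
  choose δ hδ using key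
  refine ⟨δ, fun f hf hk => (hδ f hf hk).1, ?_⟩
  rintro f hf hk f' hf' hk' ⟨y, hy⟩
  obtain ⟨⟨hd, _⟩, r, hr, hrd, hσ⟩ := hδ f hf hk
  obtain ⟨⟨hd', _⟩, r', hr', hrd', hσ'⟩ := hδ f' hf' hk'
  have hy0 : y ≠ 0 := by
    rintro rfl
    rw [zero_pow three_ne_zero, div_eq_zero_iff] at hy
    rcases hy with hy | hy
    · exact hd hy
    · exact hd' hy
  rw [div_eq_iff hd'] at hy
  obtain ⟨Y, hY⟩ : ∃ Y, Y = algebraMap L (AlgebraicClosure L) y := ⟨_, rfl⟩
  have hY0 : Y ≠ 0 := by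
    rw [hY]
    exact (map_ne_zero_iff _ (algebraMap L (AlgebraicClosure L)).injective).2 hy0
  have e1 : r ^ 3 = r' ^ 3 * Y ^ 3 := by
    rw [hrd, hy, map_mul, map_pow, hrd', hY]
    ring
  have hrY : r' * Y ≠ 0 := mul_ne_zero hr' hY0
  obtain ⟨z, hz⟩ : ∃ z, r = z * (r' * Y) := ⟨r / (r' * Y), (div_mul_cancel₀ _ hrY).symm⟩
  have hz3 : z ^ 3 = 1 := by
    have h1 : z ^ 3 * (r' * Y) ^ 3 = 1 * (r' * Y) ^ 3 := by
      rw [← mul_pow, ← hz, e1]
      ring
    exact mul_right_cancel₀ (pow_ne_zero 3 hrY) h1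
  have hz0 : z ≠ 0 := by
    rintro rfl
    rw [zero_pow three_ne_zero] at hz3
    exact zero_ne_one hz3
  obtain ⟨T, hT, hTz⟩ := ee_surj hE hsE hz3
  refine ⟨T, hT, ?_⟩
  funext τ
  have k2 : Kr (Pool.Agent.H10.act (inv_bc L V) τ T) := (kr_pm _ _).2 hT
  have k3 : Kr (Pool.Agent.H10.act (inv_bc L V) τ T - T) := by
    rw [sub_eq_add_neg]
    exact kr_add hE k2 (kr_neg.2 hT)
  have hgoal : f τ = f' τ + (Pool.Agent.H10.act (inv_bc L V) τ T - T) := by
    apply ee_inj hE hsE (hk τ) (kr_add hE (hk' τ) k3)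
    rw [ee_add hE hsE (hk' τ) k3, sub_eq_add_neg, ee_add hE hsE k2 (kr_neg.2 hT), ee_neg hE hsE hT,
      hTz]
    have e3 : ee (algebraMap L (AlgebraicClosure L) s)
        (algebraMap L (AlgebraicClosure L) b) (Pool.Agent.H10.act (inv_bc L V) τ T) = τ z := by
      have h1 := ee_pm (s := algebraMap L (AlgebraicClosure L) s)
        (b := algebraMap L (AlgebraicClosure L) b)
        (φ := (τ : AlgebraicClosure L →+* AlgebraicClosure L)) (inv_bc L V τ) T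
      have h2 : (τ : AlgebraicClosure L →+* AlgebraicClosure L)
          (algebraMap L (AlgebraicClosure L) s) = algebraMap L (AlgebraicClosure L) s := τ.commutes _
      have h3 : (τ : AlgebraicClosure L →+* AlgebraicClosure L)
          (algebraMap L (AlgebraicClosure L) b) = algebraMap L (AlgebraicClosure L) b := τ.commutes _
      rw [h2, h3, hTz] at h1
      exact h1
    rw [e3]
    have e4 := hσ τ
    rw [hz, map_mul, map_mul, hσ', hY, τ.commutes, ← hY] at e4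
    have e6 : (ee (algebraMap L (AlgebraicClosure L) s)
        (algebraMap L (AlgebraicClosure L) b) (f τ)) * z =
        ee (algebraMap L (AlgebraicClosure L) s)
        (algebraMap L (AlgebraicClosure L) b) (f' τ) * τ z := by
      apply mul_right_cancel₀ hrY
      rw [mul_assoc, ← e4]
      ring
    rw [← mul_assoc, ← e6, mul_assoc, mul_inv_cancel₀ hz0, mul_one]
  exact hgoal

end H55E
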