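import Pool.Agent.H55.TE.Df

/-!
Row La (about 130 lines): at most five local classes (`Cls2`, Pool/Agent/H55/T3/GDf.lean). Compare `vs2` in Pool/Agent/H55/T3/Vs.lean or Ws.lean.

PROOF. `c := 9 b + 4 a^3`. `η₀ := if h : ∃ η, V η ≤ 1 ∧ V a = 1 ∧ V (η^2 a^3 - 2 b) < 1 then h.choose else 0`. Put `P₀ d := ∃ t ≠ 0, V (d t^3 - 1) ≤ exp (-2)`, `P₁ d := ∃ t ≠ 0, V (d t^3 (2 c) - 1) ≤ exp (-2)`, `P₂ d := ∃ t ≠ 0, V (d t^3 (2 c)⁻¹ - 1) ≤ exp (-2)`,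
 `P₃ d := V η₀ ≤ 1 ∧ ∃ t ≠ 0, V (d t^3 - (1 + 3 η₀)) ≤ exp (-2)`, `P₄ d := V η₀ ≤ 1 ∧ ∃ t ≠ 0, V (d t^3 - (1 - 3 η₀)) ≤ exp (-2)`. Cls2 V a b d gives one of them. In its first alternative: V a = 1, `(η^2 - η₀^2) a^3 = (η^2 a^3 - 2 b) - (η₀^2 a^3 - 2 b)` is < 1, so V (η - η₀) < 1 or V (η + η₀) < 1
 (product < 1, both factors ≤ 1), so V (3 (η ∓ η₀)) ≤ exp (-2) (le_exp_neg_one) and `d t^3 - (1 ± 3 η₀) = (d t^3 - (1 + 3 η)) + 3 (η ∓ η₀)`.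
 τ d := the least i with P_i d (nested if). If the types are equal then P_i d and P_i d' hold for the same i. Common lemma: V (x - c) ≤ exp (-2), V (y - c) ≤ exp (-2), V c = 1 imply V (x / y - 1) ≤ exp (-2): V y = 1, x / y - 1 = ((x - c) - (y - c)) / y. For i = 0: x = d t^3, y = d' t'^3, c = 1; i = 1, 2: x = d t^3 (2 c)^{±1}, y = d' t'^3 (2 c)^{±1}, the factor is not zero;
 i = 3, 4: c = 1 ± 3 η₀ has V = 1. Each time `d / d' * (t / t')^3 = x / y`.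
-/

set_option autoImplicit false
open scoped Classical

open WeierstrassCurve IsDedekindDomain NumberField WithZero Pool.Agent.H10 Pool.Agent.H11 H55T3

namespace H55E

private theorem La_pair {F : Type*} [Field F] {V : Valuation F (WithZero (Multiplicative ℤ))}
    {d d' q c t t' : F} (hc : V c = 1) (hd : d' ≠ 0) (ht : t' ≠ 0)
    (h : V (d * t ^ 3 * q - c) ≤ exp (-2 : ℤ)) (h' : V (d' * t' ^ 3 * q - c) ≤ exp (-2 : ℤ)) :
    ∃ t, V (d / d' * t ^ 3 - 1) ≤ exp (-2 : ℤ) := by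
  have hlt2 : (exp (-2 : ℤ) : WithZero (Multiplicative ℤ)) < 1 :=
    exp_neg_two_lt.trans exp_neg_lt_one
  have hy : V (d' * t' ^ 3 * q) = 1 := by
    have e1 : d' * t' ^ 3 * q = c + (d' * t' ^ 3 * q - c) := by ring
    rw [e1, Valuation.map_add_eq_of_lt_left _ (by rw [hc]; exact h'.trans_lt hlt2), hc]
  have hq : q ≠ 0 := by
    rintro rfl
    rw [mul_zero, map_zero] at hy
    exact zero_ne_one hy
  refine ⟨t / t', ?_⟩
  have e1 : d / d' * (t / t') ^ 3 = (d * t ^ 3 * q) / (d' * t' ^ 3 * q) := by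
    field_simp
  have hy0 : d' * t' ^ 3 * q ≠ 0 := by
    intro h0
    rw [h0, map_zero] at hy
    exact zero_ne_one hy
  have e3 : (d * t ^ 3 * q) / (d' * t' ^ 3 * q) - 1 =
      ((d * t ^ 3 * q - c) - (d' * t' ^ 3 * q - c)) / (d' * t' ^ 3 * q) := by
    rw [div_sub_one hy0]
    congr 1
    ring
  rw [e1, e3, map_div₀, hy, div_one]
  exact V_sub_le h h'

private def La_q {F : Type*} [Field F] (c : F) : Fin 5 → F := ![1, 2 * c, (2 * c)⁻¹, 1, 1]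

private def La_c {F : Type*} [Field F] (η : F) : Fin 5 → F := ![1, 1, 1, 1 + 3 * η, 1 - 3 * η]

private theorem La_V {F : Type*} [Field F] {V : Valuation F (WithZero (Multiplicative ℤ))}
    (h3 : V 3 = exp (-1 : ℤ)) {η : F} (hη : V η ≤ 1) (i : Fin 5) : V (La_c η i) = 1 := by
  have h1 : V (1 : F) = 1 := map_one V
  have h4 : V (1 + 3 * η) = 1 := Valuation.map_one_add_of_lt V (Vs_three_lt h3 hη)
  have h5 : V (1 - 3 * η) = 1 := by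
    have e : (1 : F) - 3 * η = 1 + 3 * (-η) := by ring
    rw [e]
    exact Valuation.map_one_add_of_lt V (Vs_three_lt h3 (by rw [Valuation.map_neg]; exact hη))
  fin_cases i
  · exact h1
  · exact h1
  · exact h1
  · exact h4
  · exact h5

private theorem La_cls {F : Type*} [Field F] {V : Valuation F (WithZero (Multiplicative ℤ))}
    (h3 : V 3 = exp (-1 : ℤ)) {a b η₀ d : F} (hη₀ : V η₀ ≤ 1)
    (h : ∀ η : F, V η ≤ 1 → V a = 1 → V (η ^ 2 * a ^ 3 - 2 * b) < 1 →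
      V (η₀ ^ 2 * a ^ 3 - 2 * b) < 1) (hd : Cls2 V a b d) :
    ∃ i : Fin 5, ∃ t : F, t ≠ 0 ∧
      V (d * t ^ 3 * La_q (9 * b + 4 * a ^ 3) i - La_c η₀ i) ≤ exp (-2 : ℤ) := by
  rcases hd with ⟨t, η, ht, hη, hV, hroot, hc⟩ | ⟨t, ht, hc⟩ | ⟨-, t, ht, hc | hc⟩
  · have hroot₀ := h η hη hV hroot
    have hprod : V ((η - η₀) * (η + η₀)) < 1 := by
      have e1 : (η ^ 2 * a ^ 3 - 2 * b) - (η₀ ^ 2 * a ^ 3 - 2 * b) =
          ((η - η₀) * (η + η₀)) * a ^ 3 := by ring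
      have h5 := V_sub_lt hroot hroot₀
      rw [e1, map_mul, map_pow, hV, one_pow, mul_one] at h5
      exact h5
    by_cases hlt : V (η - η₀) < 1
    · refine ⟨3, t, ht, ?_⟩
      have e1 : d * t ^ 3 * La_q (9 * b + 4 * a ^ 3) 3 - La_c η₀ 3 =
          (d * t ^ 3 - (1 + 3 * η)) + 3 * (η - η₀) := by
        change d * t ^ 3 * 1 - (1 + 3 * η₀) = _
        ring
      rw [e1]
      exact V_add_le hc (Vs_three h3 hlt)
    · have h5 : V (η - η₀) = 1 := le_antisymm (V_sub_le hη hη₀) (not_lt.1 hlt)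
      rw [map_mul, h5, one_mul] at hprod
      refine ⟨4, t, ht, ?_⟩
      have e1 : d * t ^ 3 * La_q (9 * b + 4 * a ^ 3) 4 - La_c η₀ 4 =
          (d * t ^ 3 - (1 + 3 * η)) + 3 * (η + η₀) := by
        change d * t ^ 3 * 1 - (1 - 3 * η₀) = _
        ring
      rw [e1]
      exact V_add_le hc (Vs_three h3 hprod)
  · refine ⟨0, t, ht, ?_⟩
    change V (d * t ^ 3 * 1 - 1) ≤ _
    rw [mul_one]
    exact hc
  · exact ⟨1, t, ht, hc⟩
  · exact ⟨2, t, ht, hc⟩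

theorem typ_cls2 {F : Type*} [Field F] {V : Valuation F (WithZero (Multiplicative ℤ))}
    (h3 : V 3 = exp (-1 : ℤ)) {a b : F} (ha : V a ≤ 1) (hb : V b ≤ 1) :
    ∃ τ : F → Fin 5, ∀ d d' : F, d ≠ 0 → d' ≠ 0 → Cls2 V a b d → Cls2 V a b d' → τ d = τ d' →
      ∃ t, V (d / d' * t ^ 3 - 1) ≤ exp (-2 : ℤ) := by
  obtain ⟨η₀, hη₀, hroot⟩ : ∃ η₀ : F, V η₀ ≤ 1 ∧ ∀ η : F, V η ≤ 1 → V a = 1 →
      V (η ^ 2 * a ^ 3 - 2 * b) < 1 → V (η₀ ^ 2 * a ^ 3 - 2 * b) < 1 := by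
    by_cases hex : ∃ η : F, V η ≤ 1 ∧ V (η ^ 2 * a ^ 3 - 2 * b) < 1
    · obtain ⟨η₀, h1, h2⟩ := hex
      exact ⟨η₀, h1, fun _ _ _ _ => h2⟩
    · refine ⟨0, by rw [map_zero]; exact zero_le, fun η h1 _ h2 => absurd ⟨η, h1, h2⟩ hex⟩
  let P : Fin 5 → F → Prop := fun i d => ∃ t : F, t ≠ 0 ∧
    V (d * t ^ 3 * La_q (9 * b + 4 * a ^ 3) i - La_c η₀ i) ≤ exp (-2 : ℤ)
  let τ : F → Fin 5 := fun d => if h : ∃ i, P i d then h.choose else 0
  have hτ : ∀ d, Cls2 V a b d → P (τ d) d := by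
    intro d hd
    have h1 : ∃ i, P i d := La_cls h3 hη₀ hroot hd
    have h2 : τ d = h1.choose := dif_pos h1
    rw [h2]
    exact h1.choose_spec
  refine ⟨τ, fun d d' _ hd' h h' he => ?_⟩
  obtain ⟨t, -, ht⟩ := hτ d h
  obtain ⟨t', ht0', ht'⟩ := hτ d' h'
  rw [← he] at ht'
  exact La_pair (La_V h3 hη₀ (τ d)) hd' ht0' ht ht'

end H55E
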