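import Pool.Agent.H55.TE.La

/-!
Row Lb (about 110 lines): the classes at a good place where `s` is unramified. Model: `H11L.loc_unrO` in Pool/Agent/H11/T3L/Lo.lean; copy it up to `hcls`.

PROOF. As in loc_unrO (with A, C, E, a' = s A / 3^(i+1), b' = s (27 C - 4 E A^3) / 3^(3 i + 5), va, vb, vab): for every d ≠ 0 with LocSol one gets `hcls : Cls2 Valued.v a' b' d` and `cls2_descend hW3 va vb hd hcls : Cls2 (W.valuation B) a' b' d`. Take τ from typ_cls2 for `V := W.valuation B`, a', b'. Near: `exp (-2)^2 = exp (-4) ≤ exp (-3) = W 27`.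
-/

set_option autoImplicit false
open scoped Classical

open WeierstrassCurve IsDedekindDomain NumberField WithZero Pool.Agent.H10 Pool.Agent.H11 H55T3

namespace H55E

theorem typ_unr {K B : Type} [Field K] [NumberField K] [Field B] [NumberField B] [Algebra K B]
    {D : K} {s : B} (hs : s ^ 2 = algebraMap K B D) {α β : K} (W : HeightOneSpectrum (𝓞 B))
    (hD : W.valuation B (algebraMap K B D) = 1) (hW3 : W.valuation B 3 = exp (-1 : ℤ)) {i : ℕ}
    (g1 : W.valuation B (algebraMap K B α) ≤ exp (-(i + 1 : ℤ)))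
    (g2 : W.valuation B (algebraMap K B (27 * β - 4 * D * α ^ 3)) ≤ exp (-(3 * i + 5 : ℤ)))
    (g3 : exp (-(3 * i + 3 : ℤ)) < W.valuation B (algebraMap K B β)) :
    ∃ τ : B → Fin 5, ∀ d d' : B, d ≠ 0 → d' ≠ 0 →
      LocSol (algebraMap B (W.adicCompletion B) s)
        (algebraMap B (W.adicCompletion B) (algebraMap K B (α / 3)))
        (algebraMap B (W.adicCompletion B) (algebraMap K B β))
        (algebraMap B (W.adicCompletion B) d) →
      LocSol (algebraMap B (W.adicCompletion B) s)
        (algebraMap B (W.adicCompletion B) (algebraMap K B (α / 3)))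
        (algebraMap B (W.adicCompletion B) (algebraMap K B β))
        (algebraMap B (W.adicCompletion B) d') → τ d = τ d' → Near W (d / d') := by
  have h9 : W.valuation B 9 = exp (-2 : ℤ) := by
    have e : (9 : B) = 3 * 3 := by norm_num
    rw [e, map_mul, hW3, ← exp_add]
    rfl
  have h27 : W.valuation B 27 = exp (-3 : ℤ) := by
    have e : (27 : B) = 3 * 9 := by norm_num
    rw [e, map_mul, hW3, h9, ← exp_add]
    rfl
  have h3B : (3 : B) ≠ 0 := by norm_num
  have e3 : Valued.v (3 : W.adicCompletion B) = exp (-1 : ℤ) := by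
    rw [valued_ofNat W 3]; exact hW3
  obtain ⟨A, hA⟩ : ∃ A, A = algebraMap K B α := ⟨_, rfl⟩
  obtain ⟨C, hC⟩ : ∃ C, C = algebraMap K B β := ⟨_, rfl⟩
  obtain ⟨E, hE⟩ : ∃ E, E = algebraMap K B D := ⟨_, rfl⟩
  rw [← hE] at hs hD
  have eG : algebraMap K B (27 * β - 4 * D * α ^ 3) = 27 * C - 4 * E * A ^ 3 := by
    rw [hA, hC, hE]
    simp only [map_sub, map_mul, map_pow, map_ofNat]
  have eA3 : algebraMap K B (α / 3) = A / 3 := by rw [map_div₀, map_ofNat, hA]
  rw [eG] at g2
  rw [eA3, ← hC]
  rw [← hA] at g1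
  rw [← hC] at g3
  have vs : W.valuation B s = 1 := by
    apply H11L.Lo_sq
    rw [← map_pow, hs, hD]
  obtain ⟨a', ha'⟩ : ∃ a' : B, a' = s * A / 3 ^ (i + 1) := ⟨_, rfl⟩
  obtain ⟨b', hb'⟩ : ∃ b' : B, b' = s * (27 * C - 4 * E * A ^ 3) / 3 ^ (3 * i + 5) :=
    ⟨_, rfl⟩
  have p3 : (3 : B) ^ i ≠ 0 := pow_ne_zero i h3B
  have ea : s * (A / 3) = 3 ^ i * a' := by
    rw [ha', pow_succ]
    field_simp
  have ec : s * C = (3 ^ i) ^ 3 * (9 * b' + 4 * a' ^ 3) := by
    have p1 : (3 : B) ^ (3 * i + 5) = (3 ^ i) ^ 3 * 243 := by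
      rw [pow_add, mul_comm 3 i, pow_mul]
      norm_num
    have p2 : (3 : B) ^ (i + 1) = 3 ^ i * 3 := pow_succ _ _
    have e1 : (3 ^ i) ^ 3 * (9 * b' + 4 * a' ^ 3) =
        s * (27 * C - 4 * E * A ^ 3) / 27 + 4 * (s * s ^ 2) * A ^ 3 / 27 := by
      rw [hb', ha', p1, p2]
      field_simp
      ring
    rw [e1, hs]
    field_simp
    ring
  have va : W.valuation B a' ≤ 1 := by
    rw [ha', ← exp_zero, Y1_div hW3, map_mul, vs, one_mul]
    exact g1.trans (le_of_eq (congrArg exp (by push_cast; ring)))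
  have vb : W.valuation B b' ≤ 1 := by
    rw [hb', ← exp_zero, Y1_div hW3, map_mul, vs, one_mul]
    exact g2.trans (le_of_eq (congrArg exp (by push_cast; ring)))
  have vab : ¬ (W.valuation B a' < 1 ∧ W.valuation B b' < 1) := by
    rintro ⟨h1, h2⟩
    have q1 : W.valuation B a' ≤ exp (-1 : ℤ) := le_exp_neg_one h1
    have q2 : W.valuation B b' ≤ exp (-1 : ℤ) := le_exp_neg_one h2
    have q3 : W.valuation B (9 * b' + 4 * a' ^ 3) ≤ exp (-3 : ℤ) := by
      refine (Valuation.map_add _ _ _).trans (max_le ?_ ?_)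
      · rw [map_mul, h9]
        calc exp (-2 : ℤ) * W.valuation B b' ≤ exp (-2 : ℤ) * exp (-1 : ℤ) :=
              mul_le_mul_right q2 _
          _ = exp (-3 : ℤ) := by
              rw [← exp_add]
              rfl
      · rw [map_mul, map_pow]
        have h4 : W.valuation B 4 ≤ 1 := by exact_mod_cast V_int (V := W.valuation B) (4 : ℤ)
        calc W.valuation B 4 * W.valuation B a' ^ 3 ≤
              1 * exp (-1 : ℤ) ^ 3 := by
              exact mul_le_mul' h4 (pow_le_pow_left' q1 3)
          _ = exp (-3 : ℤ) := by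
              rw [one_mul, ← exp_nsmul]
              rfl
    apply not_le.2 g3
    have e1 : W.valuation B C = W.valuation B (s * C) := by rw [map_mul, vs, one_mul]
    rw [e1, ec, map_mul (W.valuation B), map_pow, Y1_pow hW3, ← exp_nsmul]
    calc exp (3 • (-(i : ℤ))) * W.valuation B (9 * b' + 4 * a' ^ 3) ≤
          exp (3 • (-(i : ℤ))) * exp (-3 : ℤ) := mul_le_mul_right q3 _
      _ = exp (-(3 * (i : ℤ) + 3)) := by
          rw [← exp_add]
          congr 1
          simp only [nsmul_eq_mul]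
          push_cast
          ring
  have hcls : ∀ d : B, d ≠ 0 →
      LocSol (algebraMap B (W.adicCompletion B) s) (algebraMap B (W.adicCompletion B) (A / 3))
        (algebraMap B (W.adicCompletion B) C) (algebraMap B (W.adicCompletion B) d) →
      Cls2 (W.valuation B) a' b' d := by
    intro d hd H
    have hdw : algebraMap B (W.adicCompletion B) d ≠ 0 := by
      rw [Ne, map_eq_zero]
      exact hd
    have hLoc2 : LocSol (1 : W.adicCompletion B)
        (algebraMap B (W.adicCompletion B) a')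
        (9 * algebraMap B (W.adicCompletion B) b' + 4 * algebraMap B (W.adicCompletion B) a' ^ 3)
        (algebraMap B (W.adicCompletion B) d) := by
      refine locSol_t (t := algebraMap B (W.adicCompletion B) (3 ^ i)) ?_ ?_ ?_ H
      · rw [Ne, map_eq_zero]
        exact p3
      · rw [← map_mul, ea, map_mul]
      · rw [← map_mul, ec, map_mul, map_pow (algebraMap B (W.adicCompletion B)) (3 ^ i)]
        congr 1
        simp only [map_add, map_mul, map_pow, map_ofNat]
    refine cls2_descend hW3 va vb hd ?_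
    by_cases ha : W.valuation B a' < 1
    · have hb : W.valuation B b' = 1 :=
        le_antisymm vb (not_lt.1 fun hb => vab ⟨ha, hb⟩)
      exact wb e3 (by rw [valued_algebraMap]; exact ha) (by rw [valued_algebraMap]; exact hb)
        hdw hLoc2
    · have ha1 : W.valuation B a' = 1 :=
        le_antisymm va (not_lt.1 ha)
      exact wa e3 (by rw [valued_algebraMap]; exact ha1)
        (by rw [valued_algebraMap]; exact vb) hdw hLoc2
  obtain ⟨τ, hτ⟩ := typ_cls2 (V := W.valuation B) hW3 va vb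
  refine ⟨τ, fun d d' hd hd' H H' hdd => ?_⟩
  obtain ⟨t, ht⟩ := hτ d d' hd hd' (hcls d hd H) (hcls d' hd' H') hdd
  refine ⟨t, ?_⟩
  calc W.valuation B (d / d' * t ^ 3 - 1) ^ 2 ≤ exp (-2 : ℤ) ^ 2 := pow_le_pow_left' ht 2
    _ ≤ W.valuation B 27 := by
      rw [h27, ← exp_nsmul, exp_le_exp]
      simp

end H55E
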