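import Pool.Agent.H55.TE.Df

/-!
Row Lc (about 220 lines): at most three local classes (`ClsM`, Pool/Agent/H11/T3L/Df.lean). Model: `Ld_L` and `clsM_gal` in Pool/Agent/H11/T3L/Ld.lean; copy them with a second element in the place of the conjugate (`g d` becomes `d`, `d` becomes `d'`).

PROOF. Call (X, Y) admissible if v X ≤ 1, v Y ≤ 1, v (3 Y^2 - X^3 - δ (b + 3 a X)^2) ≤ exp (-2). (X₀, Y₀) := an admissible pair if there is one, else (0, 0).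
 (1) If (X, Y), (X', Y') are admissible then v (X - X') ≤ exp (-1) and v (Y - Y') ≤ exp (-1) or v (Y + Y') ≤ exp (-1): the proof of Ld_L with X', Y' for σ X, σ Y up to `hYY : v ((Y' - Y) * (Y' + Y)) < 1`; then one factor is < 1 (both are ≤ 1), le_exp_neg_one.
 (2) type 0: the first alternative of ClsM; type 1: the second alternative holds with some X, Y such that v (Y - Y₀) ≤ exp (-1); type 2: it holds with some X, Y such that v (Y + Y₀) ≤ exp (-1). ClsM gives type 0, 1 or 2 by (1). τ := the least type (nested if; other values of Fin 5 for nothing).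
 (3) two elements of type 0: `d t^3 = 1 + z`, `d' t'^3 = 1 + z'`, `W z, W z' ≤ ρ^3`, ρ = W s (as in clsM_gal): `(d / d') (t / t')^3 - 1 = (z - z') / (1 + z')`, W ≤ ρ^3.
 (4) two elements of the same type 1 or 2: v (Y - Y') ≤ exp (-1), v (X - X') ≤ exp (-1), M = b + 3 a X, M' similarly, v (M - M') ≤ exp (-2). `d t^3 = Q + z`, `Q = 9 Y + 3 M s`, W z ≤ ρ^6, W Q = ρ^3, `d' t'^3 = Q' + z'`. `(d / d') (t / t')^3 - 1 = ((Q - Q') + (z - z')) / (Q' + z')`,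
 `Q - Q' = 9 (Y - Y') + 3 (M - M') s` has W ≤ ρ^6 (hk3 in clsM_gal). So W ≤ ρ^6 / ρ^3.
-/

set_option autoImplicit false
open scoped Classical

open WeierstrassCurve IsDedekindDomain NumberField WithZero Pool.Agent.H10 Pool.Agent.H11 H55T3

namespace H55E

section aux

variable {L : Type} [Field L] {v : Valuation L (WithZero (Multiplicative ℤ))}

private theorem Lc_mul {x y : L} {m n k : ℤ} (hx : v x ≤ exp m) (hy : v y ≤ exp n)
    (hk : m + n = k) : v (x * y) ≤ exp k := by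
  rw [map_mul, ← hk, exp_add]
  exact mul_le_mul' hx hy

private theorem Lc_mono {x : L} {m n : ℤ} (hx : v x ≤ exp m) (h : m ≤ n) : v x ≤ exp n :=
  hx.trans (exp_le_exp.2 h)

private theorem Lc_le0 {x : L} (hx : v x ≤ 1) : v x ≤ exp (0 : ℤ) := by
  rw [exp_zero]
  exact hx

private theorem Lc_lt {x : L} (hx : v x ≤ exp (-1 : ℤ)) : v x < 1 := hx.trans_lt exp_neg_lt_one

/-- admissible pairs -/
private def LcAdm (v : Valuation L (WithZero (Multiplicative ℤ))) (δ a b X Y : L) : Prop :=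
  v X ≤ 1 ∧ v Y ≤ 1 ∧ v (3 * Y ^ 2 - X ^ 3 - δ * (b + 3 * a * X) ^ 2) ≤ exp (-2 : ℤ)

private theorem Lc_close (h3 : v 3 = exp (-1 : ℤ)) {δ a b X Y X' Y' : L} (hδ : v δ = 1)
    (ha : v a ≤ 1) (hb : v b ≤ 1) (h : LcAdm v δ a b X Y) (h' : LcAdm v δ a b X' Y') :
    (v (Y' - Y) ≤ exp (-1 : ℤ) ∨ v (Y' + Y) ≤ exp (-1 : ℤ)) ∧ v (X' - X) ≤ exp (-1 : ℤ) := by
  obtain ⟨hX, hY, h⟩ := h
  obtain ⟨hX', hY', h'⟩ := h'
  obtain ⟨M, hM⟩ : ∃ M : L, M = b + 3 * a * X := ⟨_, rfl⟩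
  obtain ⟨M', hM'⟩ : ∃ M' : L, M' = b + 3 * a * X' := ⟨_, rfl⟩
  rw [← hM] at h
  rw [← hM'] at h'
  have h3' : v 3 ≤ exp (-1 : ℤ) := h3.le
  have hb0 := Lc_le0 hb
  have hδ0 : v δ ≤ exp (0 : ℤ) := Lc_le0 hδ.le
  have hX0 := Lc_le0 hX
  have hY0 := Lc_le0 hY
  have hX'0 := Lc_le0 hX'
  have hY'0 := Lc_le0 hY'
  have haX : ∀ Z : L, v Z ≤ 1 → v (3 * (a * Z)) ≤ exp (-1 : ℤ) := fun Z hZ =>
    Lc_mul h3' (Lc_mul (Lc_le0 ha) (Lc_le0 hZ) rfl) (by norm_num)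
  have hMg : ∀ Z : L, v Z ≤ 1 → v (b + 3 * a * Z) ≤ exp (0 : ℤ) := by
    intro Z hZ
    have e : b + 3 * a * Z = b + 3 * (a * Z) := by ring
    rw [e]
    exact V_add_le hb0 (Lc_mono (haX Z hZ) (by norm_num))
  have hM0 : v M ≤ exp (0 : ℤ) := by
    rw [hM]
    exact hMg X hX
  have hM'0 : v M' ≤ exp (0 : ℤ) := by
    rw [hM']
    exact hMg X' hX'
  -- X^3 + δ b^2
  have hgen : ∀ Z W : L, v Z ≤ 1 → v W ≤ 1 →
      v (3 * W ^ 2 - Z ^ 3 - δ * (b + 3 * a * Z) ^ 2) ≤ exp (-2 : ℤ) →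
      v (Z ^ 3 + δ * b ^ 2) ≤ exp (-1 : ℤ) := by
    intro Z W hZ hW hZW
    have e : Z ^ 3 + δ * b ^ 2 = 3 * W ^ 2 - (3 * W ^ 2 - Z ^ 3 - δ * (b + 3 * a * Z) ^ 2) -
        δ * ((3 * (a * Z)) * ((b + 3 * a * Z) + b)) := by
      ring
    rw [e]
    have hW2 : v (3 * W ^ 2) ≤ exp (-1 : ℤ) := by
      rw [pow_two]
      exact Lc_mul h3' (Lc_mul (Lc_le0 hW) (Lc_le0 hW) rfl) (by norm_num)
    refine V_sub_le (V_sub_le hW2 (Lc_mono hZW (by norm_num))) ?_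
    exact Lc_mul hδ0 (Lc_mul (haX Z hZ) (V_add_le (hMg Z hZ) hb0) rfl) (by norm_num)
  have hXb : v (X ^ 3 + δ * b ^ 2) ≤ exp (-1 : ℤ) := by
    rw [hM] at h
    exact hgen X Y hX hY h
  have hX'b : v (X' ^ 3 + δ * b ^ 2) ≤ exp (-1 : ℤ) := by
    rw [hM'] at h'
    exact hgen X' Y' hX' hY' h'
  have hX1 : v (X' - X) ≤ exp (-1 : ℤ) := by
    apply le_exp_neg_one
    have h5 : v ((X' - X) ^ 3) ≤ exp (-1 : ℤ) := by
      have e : (X' - X) ^ 3 = (X' ^ 3 + δ * b ^ 2) - (X ^ 3 + δ * b ^ 2)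
          - 3 * (X' * (X * (X' - X))) := by ring
      rw [e]
      refine V_sub_le (V_sub_le hX'b hXb) ?_
      exact Lc_mul h3' (Lc_mul hX'0 (Lc_mul hX0 (V_sub_le hX'0 hX0) rfl) rfl) (by norm_num)
    by_contra hcon
    rw [not_lt] at hcon
    have h6 := Lc_lt h5
    rw [map_pow] at h6
    exact absurd h6 (not_lt.2 (one_le_pow₀ hcon))
  have hX3 : v (X' ^ 3 - X ^ 3) ≤ exp (-2 : ℤ) := by
    have e : X' ^ 3 - X ^ 3 = (X' - X) * ((X' - X) * (X' - X)) + 3 * (X' * (X * (X' - X))) := by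
      ring
    rw [e]
    refine V_add_le ?_ ?_
    · exact Lc_mono (Lc_mul hX1 (Lc_mul hX1 hX1 rfl) rfl) (by norm_num)
    · exact Lc_mul h3' (Lc_mul hX'0 (Lc_mul hX0 hX1 rfl) rfl) (by norm_num)
  have hM1 : v (M' - M) ≤ exp (-2 : ℤ) := by
    have e : M' - M = 3 * (a * (X' - X)) := by
      rw [hM, hM']
      ring
    rw [e]
    exact Lc_mul h3' (Lc_mul (Lc_le0 ha) hX1 rfl) (by norm_num)
  have h3Y : v (3 * ((Y' - Y) * (Y' + Y))) ≤ exp (-2 : ℤ) := by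
    have e : 3 * ((Y' - Y) * (Y' + Y)) = (3 * Y' ^ 2 - X' ^ 3 - δ * M' ^ 2)
        - (3 * Y ^ 2 - X ^ 3 - δ * M ^ 2) + (X' ^ 3 - X ^ 3) + δ * ((M' - M) * (M' + M)) := by ring
    rw [e]
    refine V_add_le (V_add_le (V_sub_le h' h) hX3) ?_
    exact Lc_mul hδ0 (Lc_mul hM1 (V_add_le hM'0 hM0) rfl) (by norm_num)
  have hYY : v ((Y' - Y) * (Y' + Y)) < 1 := by
    rw [map_mul v 3, h3] at h3Y
    by_contra hcon
    rw [not_lt] at hcon
    have h7 : (exp (-1 : ℤ) : WithZero (Multiplicative ℤ)) ≤ exp (-2 : ℤ) :=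
      (le_mul_of_one_le_right' hcon).trans h3Y
    rw [exp_le_exp] at h7
    norm_num at h7
  refine ⟨?_, hX1⟩
  by_cases h8 : v (Y' - Y) < 1
  · exact Or.inl (le_exp_neg_one h8)
  · right
    apply le_exp_neg_one
    have h9 : v (Y' - Y) = 1 := le_antisymm (V_sub_le hY' hY) (not_lt.1 h8)
    rwa [map_mul, h9, one_mul] at hYY

/-- the first alternative -/
private def LcC0 (v : Valuation L (WithZero (Multiplicative ℤ))) (δ d₁ d₂ : L) : Prop :=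
  ∃ t₁ t₂ e₁ e₂ : L, Cube2 (3 * δ) e₁ e₂ t₁ t₂ ∧
    v (d₁ * e₁ + 3 * δ * d₂ * e₂ - 1) ≤ exp (-2 : ℤ) ∧ v (d₁ * e₂ + d₂ * e₁) ≤ exp (-1 : ℤ)

/-- the second alternative, with `Y` close to `Y₀` -/
private def LcC2 (v : Valuation L (WithZero (Multiplicative ℤ))) (δ a b Y₀ d₁ d₂ : L) : Prop :=
  v b = 1 ∧ ∃ t₁ t₂ e₁ e₂ X Y : L, Cube2 (3 * δ) e₁ e₂ t₁ t₂ ∧ LcAdm v δ a b X Y ∧
    v (Y - Y₀) ≤ exp (-1 : ℤ) ∧
    v (d₁ * e₁ + 3 * δ * d₂ * e₂ - 9 * Y) ≤ exp (-3 : ℤ) ∧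
    v (d₁ * e₂ + d₂ * e₁ - 3 * (b + 3 * a * X)) ≤ exp (-3 : ℤ)

/-- the type -/
private noncomputable def LcTau (v : Valuation L (WithZero (Multiplicative ℤ))) (δ a b Y₀ : L)
    (d : L × L) : Fin 5 :=
  if LcC0 v δ d.1 d.2 then 0 else if LcC2 v δ a b Y₀ d.1 d.2 then 1 else 2

private theorem Lc_cls (h3 : v 3 = exp (-1 : ℤ)) {δ a b : L} (hδ : v δ = 1) (ha : v a ≤ 1)
    (hb : v b ≤ 1) : ∃ Y₀ : L, ∀ d₁ d₂, H11L.ClsM v δ a b d₁ d₂ →
      LcC0 v δ d₁ d₂ ∨ LcC2 v δ a b Y₀ d₁ d₂ ∨ LcC2 v δ a b (-Y₀) d₁ d₂ := by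
  by_cases hex : ∃ X₀ Y₀ : L, LcAdm v δ a b X₀ Y₀
  · obtain ⟨X₀, Y₀, h0⟩ := hex
    refine ⟨Y₀, fun d₁ d₂ H => ?_⟩
    rcases H with ⟨t₁, t₂, e₁, e₂, -, hC, h5, h6⟩ |
      ⟨hVb, t₁, t₂, e₁, e₂, X, Y, -, hC, hX, hY, hrel, h5, h6⟩
    · exact Or.inl ⟨t₁, t₂, e₁, e₂, hC, h5, h6⟩
    · right
      have hA : LcAdm v δ a b X Y := ⟨hX, hY, hrel⟩
      rcases (Lc_close h3 hδ ha hb h0 hA).1 with h7 | h7
      · exact Or.inl ⟨hVb, t₁, t₂, e₁, e₂, X, Y, hC, hA, h7, h5, h6⟩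
      · refine Or.inr ⟨hVb, t₁, t₂, e₁, e₂, X, Y, hC, hA, ?_, h5, h6⟩
        rw [sub_neg_eq_add]
        exact h7
  · refine ⟨0, fun d₁ d₂ H => ?_⟩
    rcases H with ⟨t₁, t₂, e₁, e₂, -, hC, h5, h6⟩ |
      ⟨hVb, t₁, t₂, e₁, e₂, X, Y, -, hC, hX, hY, hrel, h5, h6⟩
    · exact Or.inl ⟨t₁, t₂, e₁, e₂, hC, h5, h6⟩
    · exact absurd ⟨X, Y, hX, hY, hrel⟩ hex

end aux

private theorem Lc_fin {B : Type} [Field B] {W : Valuation B (WithZero (Multiplicative ℤ))}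
    {D T D' T' : B} {c r : WithZero (Multiplicative ℤ)} (hc : W (D' * T' ^ 3) = c) (hc0 : c ≠ 0)
    (h : W (D * T ^ 3 - D' * T' ^ 3) ≤ r * c) : W (D / D' * (T / T') ^ 3 - 1) ≤ r := by
  have hZ : D' * T' ^ 3 ≠ 0 := by
    intro h0
    rw [h0, map_zero] at hc
    exact hc0 hc.symm
  have hD : D' ≠ 0 := left_ne_zero_of_mul hZ
  have hT : T' ≠ 0 := fun h0 => hZ (by rw [h0]; ring)
  have e : D / D' * (T / T') ^ 3 - 1 = (D * T ^ 3 - D' * T' ^ 3) / (D' * T' ^ 3) := by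
    field_simp
  rw [e, map_div₀, hc]
  exact div_le_of_le_mul₀ (zero_le) (zero_le) h

theorem typ_clsM {L B : Type} [Field L] [Field B] [CharZero L] [Algebra L B]
    {v : Valuation L (WithZero (Multiplicative ℤ))} {W : Valuation B (WithZero (Multiplicative ℤ))}
    (h3 : v 3 = exp (-1 : ℤ)) (hW3 : W 3 < 1) (hvW : ∀ z : L, v z ≤ 1 → W (algebraMap L B z) ≤ 1)
    {δ a b : L} (hδ : v δ = 1) (ha : v a ≤ 1) (hb : v b ≤ 1) {s : B}
    (hs : s ^ 2 = algebraMap L B (3 * δ)) :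
    ∃ τ : L × L → Fin 5, ∀ d₁ d₂ d₁' d₂' : L, H11L.ClsM v δ a b d₁ d₂ →
      H11L.ClsM v δ a b d₁' d₂' → τ (d₁, d₂) = τ (d₁', d₂') →
      ∃ t : B, W ((algebraMap L B d₁ + algebraMap L B d₂ * s) /
        (algebraMap L B d₁' + algebraMap L B d₂' * s) * t ^ 3 - 1) ≤ W s ^ 3 := by
  have h3L : (3 : L) ≠ 0 := by norm_num
  have hi3 : algebraMap L B 3 = 3 := map_ofNat _ 3
  have hinj : Function.Injective (algebraMap L B) := (algebraMap L B).injective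
  have h3B : (3 : B) ≠ 0 := by
    rw [← hi3]
    exact fun h0 => h3L (hinj (h0.trans (map_zero _).symm))
  have hunit : ∀ z : L, v z = 1 → W (algebraMap L B z) = 1 := by
    intro z hz
    have hz0 : z ≠ 0 := by
      intro h0
      rw [h0, map_zero] at hz
      exact zero_ne_one hz
    have h5 := hvW z hz.le
    have h6 := hvW z⁻¹ (by rw [map_inv₀, hz, inv_one])
    rw [map_inv₀, map_inv₀] at h6
    refine le_antisymm h5 ?_
    have hW0 : W (algebraMap L B z) ≠ 0 := by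
      rw [Ne, map_eq_zero, map_eq_zero]
      exact hz0
    exact (inv_le_one₀ (zero_lt_iff.2 hW0)).1 h6
  obtain ⟨ρ, hρ⟩ : ∃ ρ, ρ = W s := ⟨_, rfl⟩
  have hWs : W 3 = ρ ^ 2 := by
    rw [hρ, ← map_pow, hs, map_mul, map_mul, hi3, hunit δ hδ, mul_one]
  have hρ0 : ρ ≠ 0 := by
    intro h0
    rw [h0] at hWs
    have : W 3 ≠ 0 := (Valuation.ne_zero_iff W).2 h3B
    exact this (by rw [hWs, pow_two, mul_zero])
  have hρ1 : ρ < 1 := by
    by_contra hcon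
    rw [not_lt] at hcon
    rw [hWs] at hW3
    exact absurd hW3 (not_lt.2 (one_le_pow₀ hcon))
  have hk : ∀ (j : ℕ) (z : L), v z ≤ exp (-(j : ℤ)) → W (algebraMap L B z) ≤ ρ ^ (2 * j) := by
    intro j
    induction j with
    | zero =>
      intro z hz
      rw [mul_zero, pow_zero]
      apply hvW
      rw [Nat.cast_zero, neg_zero, exp_zero] at hz
      exact hz
    | succ j ih =>
      intro z hz
      have e1 : z = 3 * (z / 3) := by field_simp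
      have h5 : v (z / 3) ≤ exp (-(j : ℤ)) := by
        rw [map_div₀, h3]
        apply div_le_of_le_mul₀ zero_le zero_le
        rw [← exp_add]
        refine hz.trans (le_of_eq ?_)
        congr 1
        push_cast
        ring
      have h6 := ih _ h5
      rw [e1, map_mul, hi3, map_mul, hWs, Nat.mul_succ, Nat.add_comm, pow_add]
      exact mul_le_mul' le_rfl h6
  have hpow : ∀ {m n : ℕ}, m ≤ n → ρ ^ n ≤ ρ ^ m := fun h => pow_le_pow_right_of_le_one' hρ1.le h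
  have hpow' : ∀ {m n : ℕ}, m < n → ρ ^ n < ρ ^ m := fun h =>
    pow_lt_pow_right_of_lt_one₀ (zero_lt_iff.2 hρ0) hρ1 h
  -- bound for z = z1 + z2 s
  have hz12 : ∀ (k : ℕ) (z₁ z₂ : L), W (algebraMap L B z₁) ≤ ρ ^ k →
      W (algebraMap L B z₂) * ρ ≤ ρ ^ k →
      W (algebraMap L B z₁ + algebraMap L B z₂ * s) ≤ ρ ^ k := by
    intro k z₁ z₂ h5 h6
    refine V_add_le h5 ?_
    rw [map_mul, ← hρ]
    exact h6
  have hk3 : ∀ z₁ z₂ : L, v z₁ ≤ exp (-3 : ℤ) → v z₂ ≤ exp (-3 : ℤ) →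
      W (algebraMap L B z₁ + algebraMap L B z₂ * s) ≤ ρ ^ 6 := by
    intro z₁ z₂ h7 h8
    apply hz12
    · exact hk 3 z₁ (by exact_mod_cast h7)
    · have h9 := hk 3 z₂ (by exact_mod_cast h8)
      calc W (algebraMap L B z₂) * ρ ≤ ρ ^ 6 * 1 := mul_le_mul' h9 hρ1.le
        _ = ρ ^ 6 := mul_one _
  have hcube : ∀ {t₁ t₂ e₁ e₂ : L}, Cube2 (3 * δ) e₁ e₂ t₁ t₂ →
      (algebraMap L B t₁ + algebraMap L B t₂ * s) ^ 3 =
        algebraMap L B e₁ + algebraMap L B e₂ * s := by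
    intro t₁ t₂ e₁ e₂ h5
    obtain ⟨h6, h7⟩ := h5
    rw [h6, h7]
    simp only [map_add, map_mul, map_pow, hi3]
    rw [map_mul, hi3] at hs
    linear_combination (3 * algebraMap L B t₁ * algebraMap L B t₂ ^ 2 +
      algebraMap L B t₂ ^ 3 * s) * hs
  have hprod : ∀ {d₁ d₂ e₁ e₂ : L}, (algebraMap L B d₁ + algebraMap L B d₂ * s) *
      (algebraMap L B e₁ + algebraMap L B e₂ * s) =
      algebraMap L B (d₁ * e₁ + 3 * δ * d₂ * e₂) + algebraMap L B (d₁ * e₂ + d₂ * e₁) * s := by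
    intro d₁ d₂ e₁ e₂
    simp only [map_add, map_mul, hi3]
    rw [map_mul, hi3] at hs
    linear_combination (algebraMap L B d₂ * algebraMap L B e₂) * hs
  -- the first alternative
  have hC0 : ∀ d₁ d₂ : L, LcC0 v δ d₁ d₂ → ∃ T z : B,
      (algebraMap L B d₁ + algebraMap L B d₂ * s) * T ^ 3 = 1 + z ∧ W z ≤ ρ ^ 3 := by
    rintro d₁ d₂ ⟨t₁, t₂, e₁, e₂, hC, h5, h6⟩
    obtain ⟨z₁, hz₁⟩ : ∃ z, z = d₁ * e₁ + 3 * δ * d₂ * e₂ - 1 := ⟨_, rfl⟩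
    obtain ⟨z₂, hz₂⟩ : ∃ z, z = d₁ * e₂ + d₂ * e₁ := ⟨_, rfl⟩
    rw [← hz₁] at h5
    rw [← hz₂] at h6
    refine ⟨algebraMap L B t₁ + algebraMap L B t₂ * s,
      algebraMap L B z₁ + algebraMap L B z₂ * s, ?_, ?_⟩
    · rw [hcube hC, hprod, ← hz₂, hz₁, map_sub, map_one]
      ring
    · apply hz12
      · exact (hk 2 z₁ (by exact_mod_cast h5)).trans (hpow (by norm_num))
      · have h7 := hk 1 z₂ (by exact_mod_cast h6)
        rw [pow_succ ρ 2]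
        exact mul_le_mul' h7 le_rfl
  have h3' : v 3 ≤ exp (-1 : ℤ) := h3.le
  -- the second alternative
  have hC2 : ∀ Y₀ d₁ d₂ : L, LcC2 v δ a b Y₀ d₁ d₂ → ∃ (T z : B) (X Y : L),
      LcAdm v δ a b X Y ∧ v (Y - Y₀) ≤ exp (-1 : ℤ) ∧
      (algebraMap L B d₁ + algebraMap L B d₂ * s) * T ^ 3 =
        (algebraMap L B (9 * Y) + algebraMap L B (3 * (b + 3 * a * X)) * s) + z ∧ W z ≤ ρ ^ 6 ∧
      W (algebraMap L B (9 * Y) + algebraMap L B (3 * (b + 3 * a * X)) * s) = ρ ^ 3 := by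
    rintro Y₀ d₁ d₂ ⟨hVb, t₁, t₂, e₁, e₂, X, Y, hC, hA, hYY, h5, h6⟩
    obtain ⟨M, hM⟩ : ∃ M : L, M = b + 3 * a * X := ⟨_, rfl⟩
    have haX : v (a * X) ≤ exp (0 : ℤ) := Lc_mul (Lc_le0 ha) (Lc_le0 hA.1) (by norm_num)
    have h3aX : v (3 * (a * X)) ≤ exp (-1 : ℤ) := Lc_mul h3' haX (by norm_num)
    have hVM : v M = 1 := by
      have e4 : M = b + 3 * (a * X) := by rw [hM]; ring
      rw [e4, Valuation.map_add_eq_of_lt_left, hVb]
      rw [hVb]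
      exact Lc_lt h3aX
    rw [← hM] at h6
    obtain ⟨z₁, hz₁⟩ : ∃ z, z = d₁ * e₁ + 3 * δ * d₂ * e₂ - 9 * Y := ⟨_, rfl⟩
    obtain ⟨z₂, hz₂⟩ : ∃ z, z = d₁ * e₂ + d₂ * e₁ - 3 * M := ⟨_, rfl⟩
    rw [← hz₁] at h5
    rw [← hz₂] at h6
    refine ⟨algebraMap L B t₁ + algebraMap L B t₂ * s,
      algebraMap L B z₁ + algebraMap L B z₂ * s, X, Y, hA, hYY, ?_, hk3 z₁ z₂ h5 h6, ?_⟩
    · rw [hcube hC, hprod, ← hM, hz₁, hz₂, map_sub, map_sub]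
      ring
    · rw [← hM]
      have h7 : W (algebraMap L B (3 * M) * s) = ρ ^ 3 := by
        rw [map_mul, map_mul, map_mul, hi3, hWs, hunit M hVM, mul_one, ← hρ, ← pow_succ]
      have h8 : W (algebraMap L B (9 * Y)) ≤ ρ ^ 4 := by
        refine hk 2 _ ?_
        have e5 : 9 * Y = 3 * (3 * Y) := by ring
        rw [e5]
        exact Lc_mul h3' (Lc_mul h3' (Lc_le0 hA.2.1) rfl) (by norm_num)
      rw [Valuation.map_add_eq_of_lt_right, h7]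
      rw [h7]
      exact h8.trans_lt (hpow' (by norm_num))
  -- two elements of type 0
  have hT0 : ∀ d₁ d₂ d₁' d₂' : L, LcC0 v δ d₁ d₂ → LcC0 v δ d₁' d₂' →
      ∃ t : B, W ((algebraMap L B d₁ + algebraMap L B d₂ * s) /
        (algebraMap L B d₁' + algebraMap L B d₂' * s) * t ^ 3 - 1) ≤ ρ ^ 3 := by
    intro d₁ d₂ d₁' d₂' H H'
    obtain ⟨T, z, hT, hz⟩ := hC0 d₁ d₂ H
    obtain ⟨T', z', hT', hz'⟩ := hC0 d₁' d₂' H'
    refine ⟨T / T', Lc_fin (c := 1) ?_ one_ne_zero ?_⟩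
    · rw [hT']
      apply Valuation.map_one_add_of_lt
      exact hz'.trans_lt (by rw [← pow_zero ρ]; exact hpow' (by norm_num))
    · rw [hT, hT', mul_one]
      have e : 1 + z - (1 + z') = z - z' := by ring
      rw [e]
      exact V_sub_le hz hz'
  -- two elements of type 1 or 2
  have hT2 : ∀ Y₀ d₁ d₂ d₁' d₂' : L, LcC2 v δ a b Y₀ d₁ d₂ → LcC2 v δ a b Y₀ d₁' d₂' →
      ∃ t : B, W ((algebraMap L B d₁ + algebraMap L B d₂ * s) /
        (algebraMap L B d₁' + algebraMap L B d₂' * s) * t ^ 3 - 1) ≤ ρ ^ 3 := by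
    intro Y₀ d₁ d₂ d₁' d₂' H H'
    obtain ⟨T, z, X, Y, hA, hY, hT, hz, hQ⟩ := hC2 Y₀ d₁ d₂ H
    obtain ⟨T', z', X', Y', hA', hY', hT', hz', hQ'⟩ := hC2 Y₀ d₁' d₂' H'
    have hYY : v (Y - Y') ≤ exp (-1 : ℤ) := by
      have e : Y - Y' = (Y - Y₀) - (Y' - Y₀) := by ring
      rw [e]
      exact V_sub_le hY hY'
    have hXX : v (X - X') ≤ exp (-1 : ℤ) := (Lc_close h3 hδ ha hb hA' hA).2
    refine ⟨T / T', Lc_fin (c := ρ ^ 3) ?_ (pow_ne_zero 3 hρ0) ?_⟩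
    · rw [hT', Valuation.map_add_eq_of_lt_left, hQ']
      rw [hQ']
      exact hz'.trans_lt (hpow' (by norm_num))
    · rw [hT, hT', ← pow_add]
      have e : algebraMap L B (9 * Y) + algebraMap L B (3 * (b + 3 * a * X)) * s + z -
          (algebraMap L B (9 * Y') + algebraMap L B (3 * (b + 3 * a * X')) * s + z') =
          (algebraMap L B (9 * (Y - Y')) + algebraMap L B (3 * (3 * (a * (X - X')))) * s) +
            (z - z') := by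
        simp only [map_mul, map_sub, map_add]
        ring
      rw [e]
      refine V_add_le (hk3 _ _ ?_ ?_) (V_sub_le hz hz')
      · have e5 : 9 * (Y - Y') = 3 * (3 * (Y - Y')) := by ring
        rw [e5]
        exact Lc_mul h3' (Lc_mul h3' hYY rfl) (by norm_num)
      · exact Lc_mul h3' (Lc_mul h3' (Lc_mul (Lc_le0 ha) hXX rfl) rfl) (by norm_num)
  obtain ⟨Y₀, hY₀⟩ := Lc_cls h3 hδ ha hb
  rw [← hρ]
  refine ⟨LcTau v δ a b Y₀, fun d₁ d₂ d₁' d₂' H H' hτ => ?_⟩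
  have h0 : ∀ e₁ e₂ : L, LcC0 v δ e₁ e₂ → LcTau v δ a b Y₀ (e₁, e₂) = 0 := by
    intro e₁ e₂ h
    unfold LcTau
    rw [if_pos h]
  have h1 : ∀ e₁ e₂ : L, ¬ LcC0 v δ e₁ e₂ → LcC2 v δ a b Y₀ e₁ e₂ →
      LcTau v δ a b Y₀ (e₁, e₂) = 1 := by
    intro e₁ e₂ h h'
    unfold LcTau
    rw [if_neg h, if_pos h']
  have h2 : ∀ e₁ e₂ : L, ¬ LcC0 v δ e₁ e₂ → ¬ LcC2 v δ a b Y₀ e₁ e₂ →
      LcTau v δ a b Y₀ (e₁, e₂) = 2 := by
    intro e₁ e₂ h h'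
    unfold LcTau
    rw [if_neg h, if_neg h']
  have h01 : (0 : Fin 5) ≠ 1 := by decide
  have h02 : (0 : Fin 5) ≠ 2 := by decide
  have h12 : (1 : Fin 5) ≠ 2 := by decide
  by_cases c0 : LcC0 v δ d₁ d₂
  · by_cases c0' : LcC0 v δ d₁' d₂'
    · exact hT0 _ _ _ _ c0 c0'
    · exfalso
      rw [h0 _ _ c0] at hτ
      by_cases c1' : LcC2 v δ a b Y₀ d₁' d₂'
      · rw [h1 _ _ c0' c1'] at hτ
        exact h01 hτ
      · rw [h2 _ _ c0' c1'] at hτ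
        exact h02 hτ
  · by_cases c1 : LcC2 v δ a b Y₀ d₁ d₂
    · rw [h1 _ _ c0 c1] at hτ
      by_cases c0' : LcC0 v δ d₁' d₂'
      · rw [h0 _ _ c0'] at hτ
        exact absurd hτ.symm h01
      · by_cases c1' : LcC2 v δ a b Y₀ d₁' d₂'
        · exact hT2 Y₀ _ _ _ _ c1 c1'
        · rw [h2 _ _ c0' c1'] at hτ
          exact absurd hτ h12
    · rw [h2 _ _ c0 c1] at hτ
      by_cases c0' : LcC0 v δ d₁' d₂'
      · rw [h0 _ _ c0'] at hτ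
        exact absurd hτ.symm h02
      · by_cases c1' : LcC2 v δ a b Y₀ d₁' d₂'
        · rw [h1 _ _ c0' c1'] at hτ
          exact absurd hτ.symm h12
        · exact hT2 (-Y₀) _ _ _ _ (((hY₀ _ _ H).resolve_left c0).resolve_left c1)
            (((hY₀ _ _ H').resolve_left c0').resolve_left c1')

end H55E
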