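import Pool.Agent.H55.TE.Lc

/-!
Row Ld (about 130 lines): the classes at a good place where `s` is ramified. Model: `H11L.loc_ramO` in Pool/Agent/H11/T3L/Lo.lean; copy it up to `hcls2`.

PROOF. As in loc_ramO: δ with `algebraMap K L D = 3 δ`, w δ = 1, hns (D is not a square in the completion), a = α / 3^(i+1), b = β / 3^(3 i + 1), va, vb, vb2; for an element d ≠ 0 of B write `d = d₁ + d₂ s` (hB, choice), FinM gives LocM at w, so `clsM_of_locM`, `clsM_descend`: ClsM (w.valuation L) δ a b d₁ d₂. τ d := (τ of typ_clsM) (d₁, d₂) for the chosen d₁, d₂. hW3, hvW as in loc_ramO.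
 Near: `(W s ^ 3)^2 = (W s ^2)^3 = W 3 ^ 3 = W 27` (end of loc_ramO).
-/

set_option autoImplicit false
open scoped Classical

open WeierstrassCurve IsDedekindDomain NumberField WithZero Pool.Agent.H10 Pool.Agent.H11 H55T3

namespace H55E

theorem typ_ram {K L B : Type} [Field K] [NumberField K] [Field L] [NumberField L] [Field B]
    [NumberField B] [Algebra K L] [Algebra L B] [Algebra K B] [IsScalarTower K L B] {D : K} {s : B}
    (hs : s ^ 2 = algebraMap K B D) {α β : K}
    (W : HeightOneSpectrum (𝓞 B)) (w : HeightOneSpectrum (𝓞 L)) {e : ℕ} (he : e ≠ 0)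
    (hwW : ∀ x : L, w.valuation L x ^ e = W.valuation B (algebraMap L B x))
    (h3 : w.valuation L 3 = exp (-1 : ℤ))
    (h3D : w.valuation L (algebraMap K L D) = exp (-1 : ℤ)) {i : ℕ}
    (g1 : w.valuation L (algebraMap K L α) ≤ exp (-(i + 1 : ℤ)))
    (g2 : w.valuation L (algebraMap K L β) ≤ exp (-(3 * i + 1 : ℤ)))
    (g3 : exp (-(3 * i + 3 : ℤ)) < w.valuation L (algebraMap K L β))
    (hB : ∀ d : B, ∃ d₁ d₂ : L, d = algebraMap L B d₁ + algebraMap L B d₂ * s) :
    ∃ τ : B → Fin 5, ∀ d d' : B, d ≠ 0 → d' ≠ 0 →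
      FinM s (algebraMap K L D) (algebraMap K L (α / 3)) (algebraMap K L β) d →
      FinM s (algebraMap K L D) (algebraMap K L (α / 3)) (algebraMap K L β) d' →
      τ d = τ d' → Near W (d / d') := by
  have h3K : (3 : K) ≠ 0 := by norm_num
  obtain ⟨D1, hD1⟩ : ∃ D1 : K, D1 = D / 3 := ⟨_, rfl⟩
  have hDD : D = 3 * D1 := by rw [hD1]; field_simp
  obtain ⟨δ, hδ⟩ : ∃ δ : L, δ = algebraMap K L D1 := ⟨_, rfl⟩
  have hcast : algebraMap K L D = 3 * δ := by rw [hDD, map_mul, map_ofNat, hδ]
  have hD : w.valuation L δ = 1 := by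
    have h := h3D
    rw [hcast, map_mul, h3] at h
    have h5 : (exp (-1 : ℤ) : WithZero (Multiplicative ℤ)) ≠ 0 := exp_ne_zero
    exact mul_left_cancel₀ h5 (h.trans (mul_one _).symm)
  have hns : ∀ z : w.adicCompletion L, z ^ 2 ≠ algebraMap L _ (algebraMap K L D) := by
    intro z hz
    have h := congrArg Valued.v hz
    rw [map_pow, valued_algebraMap, h3D] at h
    have h0 : Valued.v z ≠ 0 := by
      intro h0
      rw [h0, zero_pow two_ne_zero] at h
      exact exp_ne_zero h.symm
    rw [← exp_log h0, ← exp_nsmul, exp_inj] at h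
    simp only [nsmul_eq_mul, Nat.cast_ofNat] at h
    omega
  obtain ⟨a, ha⟩ : ∃ a : K, a = α / 3 ^ (i + 1) := ⟨_, rfl⟩
  obtain ⟨b, hb⟩ : ∃ b : K, b = β / 3 ^ (3 * i + 1) := ⟨_, rfl⟩
  have ea : α / 3 = 3 ^ i * a := by
    rw [ha, pow_succ]
    field_simp
  have ec : β = (3 ^ i) ^ 3 * (3 * b) := by
    have p1 : (3 : K) ^ (3 * i + 1) = (3 ^ i) ^ 3 * 3 := by
      rw [pow_add, mul_comm 3 i, pow_mul]
      norm_num
    rw [hb, p1]
    have p3 : (3 : K) ^ i ≠ 0 := pow_ne_zero i h3K
    field_simp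
  have va : w.valuation L (algebraMap K L a) ≤ 1 := by
    rw [ha, map_div₀, map_pow, map_ofNat, ← exp_zero, Y1_div h3]
    exact g1.trans (le_of_eq (congrArg exp (by push_cast; ring)))
  have vb : w.valuation L (algebraMap K L b) ≤ 1 := by
    rw [hb, map_div₀, map_pow, map_ofNat, ← exp_zero, Y1_div h3]
    exact g2.trans (le_of_eq (congrArg exp (by push_cast; ring)))
  have vb2 : exp (-2 : ℤ) < w.valuation L (algebraMap K L b) := by
    by_contra hcon
    rw [not_lt, hb, map_div₀, map_pow, map_ofNat, Y1_div h3] at hcon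
    apply not_le.2 g3
    exact hcon.trans (le_of_eq (congrArg exp (by push_cast; ring)))
  have e3 : Valued.v (3 : w.adicCompletion L) = exp (-1 : ℤ) := by
    rw [valued_ofNat w 3]; exact h3
  have hcls2 : ∀ d₁ d₂ : L, algebraMap L B d₁ + algebraMap L B d₂ * s ≠ 0 →
      FinM s (algebraMap K L D) (algebraMap K L (α / 3)) (algebraMap K L β)
        (algebraMap L B d₁ + algebraMap L B d₂ * s) →
      H11L.ClsM (w.valuation L) δ (algebraMap K L a) (algebraMap K L b) d₁ d₂ := by
    intro d₁ d₂ hd HM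
    have hLoc := HM d₁ d₂ rfl w hns
    have hLoc2 : LocM (3 * algebraMap L (w.adicCompletion L) δ)
        (algebraMap L (w.adicCompletion L) (algebraMap K L a))
        (3 * algebraMap L (w.adicCompletion L) (algebraMap K L b))
        (algebraMap L (w.adicCompletion L) d₁) (algebraMap L (w.adicCompletion L) d₂) := by
      have eD : (3 : w.adicCompletion L) * algebraMap L (w.adicCompletion L) δ =
          algebraMap L (w.adicCompletion L) (algebraMap K L D) := by
        rw [hcast, map_mul, map_ofNat]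
      rw [eD]
      refine H11L.locM_scale (t := algebraMap L (w.adicCompletion L) (algebraMap K L (3 ^ i))) ?_ ?_ ?_
        hLoc
      · rw [Ne, map_eq_zero, map_eq_zero]
        exact pow_ne_zero i h3K
      · rw [ea, map_mul (algebraMap K L), map_mul]
      · rw [ec, map_mul (algebraMap K L), map_mul, map_pow (algebraMap K L) (3 ^ i),
          map_pow (algebraMap L (w.adicCompletion L)) (algebraMap K L (3 ^ i))]
        congr 1
        simp only [map_mul, map_ofNat]
    have hd12 : algebraMap L (w.adicCompletion L) d₁ ≠ 0 ∨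
        algebraMap L (w.adicCompletion L) d₂ ≠ 0 := by
      by_contra hcon
      rw [not_or, not_not, not_not, map_eq_zero, map_eq_zero] at hcon
      apply hd
      rw [hcon.1, hcon.2, map_zero, zero_mul, add_zero]
    have hcls := H11L.clsM_of_locM (V := Valued.v) e3 (by rw [valued_algebraMap]; exact hD)
      (by rw [valued_algebraMap]; exact va) (by rw [valued_algebraMap]; exact vb)
      (by rw [valued_algebraMap]; exact vb2) hd12 hLoc2
    exact H11L.clsM_descend h3 hD.le va hcls
  have hW3e : W.valuation B 3 = exp (-1 : ℤ) ^ e := by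
    rw [← h3, hwW, map_ofNat (algebraMap L B)]
  have hW3 : W.valuation B 3 < 1 := by
    rw [hW3e]
    exact pow_lt_one₀ zero_le H11L.Lo_exp he
  have hWD : W.valuation B (algebraMap L B δ) = 1 := by
    have h := hwW δ
    rw [hD, one_pow] at h
    exact h.symm
  have hvW : ∀ z : L, w.valuation L z ≤ 1 → W.valuation B (algebraMap L B z) ≤ 1 := by
    intro z hz
    rw [← hwW]
    exact pow_le_one₀ zero_le hz
  have hs' : s ^ 2 = algebraMap L B (3 * δ) := by
    rw [hs, ← hcast, IsScalarTower.algebraMap_apply K L B]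
  have hWs : W.valuation B s ^ 2 = W.valuation B 3 := by
    rw [← map_pow, hs', map_mul, map_mul, hWD, mul_one, map_ofNat]
  have e27 : (27 : B) = 3 ^ 3 := by norm_num
  obtain ⟨τ, hτ⟩ := typ_clsM (v := w.valuation L) (W := W.valuation B) h3 hW3 hvW hD va vb hs'
  choose d1 d2 hdd using hB
  have hc : ∀ d : B, d ≠ 0 →
      FinM s (algebraMap K L D) (algebraMap K L (α / 3)) (algebraMap K L β) d →
      H11L.ClsM (w.valuation L) δ (algebraMap K L a) (algebraMap K L b) (d1 d) (d2 d) := by
    intro d hd HM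
    refine hcls2 _ _ ?_ ?_
    · rw [← hdd]
      exact hd
    · rw [← hdd]
      exact HM
  refine ⟨fun d => τ (d1 d, d2 d), fun d d' hd hd' HM HM' hdd' => ?_⟩
  obtain ⟨t, ht⟩ := hτ _ _ _ _ (hc d hd HM) (hc d' hd' HM') hdd'
  rw [← hdd, ← hdd] at ht
  refine ⟨t, (pow_le_pow_left' ht 2).trans (le_of_eq ?_)⟩
  rw [e27, map_pow, ← hWs, ← pow_mul, ← pow_mul]

end H55E
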