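import Pool.Agent.H55.TE.Df

/-!
Row Le (about 80 lines): a unit representative at finitely many places.

PROOF. (1) For `w ∈ S` there is `π : B` with `w.valuation B π = exp (-1)` and `w'.valuation B π = 1` for all `w' ∈ S`, `w' ≠ w`: IsDedekindDomain.exists_forall_sub_mem_ideal (P := asIdeal, e := 2 for w and 1 for the others; simply e := 2 for all; residues: a uniformizer `ϖ` of w (intValuation_exists_uniformizer) at w and 1 at the others) gives `r : 𝓞 B`, `r - ϖ ∈ w ^ 2`, `r - 1 ∈ w' ^ 2`.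
 So `w (r - ϖ) ≤ exp (-2) < w ϖ` and `w r = w ϖ`; `w' (r - 1) < 1` and `w' r = 1`. (intValuation_le_pow_iff_mem.) (2) `3 k_w = log (w x)` for w ∈ S, `y := ∏ w ∈ S, π_w ^ k_w` (zpow): `w y = exp (- k_w)` (map_prod, Finset.prod_eq_single), so `w (x y^3) = exp (log (w x) - 3 k_w) = 1` (exp_log).
-/

set_option autoImplicit false
open scoped Classical

open WeierstrassCurve IsDedekindDomain NumberField WithZero Pool.Agent.H10 Pool.Agent.H11 H55T3

namespace H55E

private theorem Le_pi {B : Type} [Field B] [NumberField B] (S : Finset (HeightOneSpectrum (𝓞 B)))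
    (w : HeightOneSpectrum (𝓞 B)) (hw : w ∈ S) : ∃ π : B, w.valuation B π = exp (-1 : ℤ) ∧
      ∀ w' ∈ S, w' ≠ w → w'.valuation B π = 1 := by
  obtain ⟨ϖ, hϖ⟩ := w.intValuation_exists_uniformizer
  obtain ⟨r, hr⟩ := IsDedekindDomain.exists_forall_sub_mem_ideal (s := S)
    (fun w' : HeightOneSpectrum (𝓞 B) => w'.asIdeal) (fun _ => 2)
    (fun w' _ => w'.prime) (fun i _ j _ hij he => hij (HeightOneSpectrum.ext he))
    (fun w' => if (w' : HeightOneSpectrum (𝓞 B)) = w then ϖ else 1)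
  have h2 : (exp (-2 : ℤ) : WithZero (Multiplicative ℤ)) < exp (-1 : ℤ) := by
    rw [exp_lt_exp]
    norm_num
  have h21 : (exp (-2 : ℤ) : WithZero (Multiplicative ℤ)) < 1 := by
    rw [← exp_zero, exp_lt_exp]
    norm_num
  refine ⟨algebraMap (𝓞 B) B r, ?_, ?_⟩
  · have h1 := hr w hw
    rw [if_pos rfl, ← HeightOneSpectrum.intValuation_le_pow_iff_mem] at h1
    rw [HeightOneSpectrum.valuation_of_algebraMap]
    have h3 : w.intValuation (r - ϖ) < w.intValuation ϖ := by
      rw [hϖ]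
      exact lt_of_le_of_lt h1 h2
    have h4 : r = (r - ϖ) + ϖ := by ring
    rw [h4, Valuation.map_add_eq_of_lt_right _ h3, hϖ]
  · intro w' hw' hne
    have h1 := hr w' hw'
    rw [if_neg hne, ← HeightOneSpectrum.intValuation_le_pow_iff_mem] at h1
    rw [HeightOneSpectrum.valuation_of_algebraMap]
    have h3 : w'.intValuation (r - 1) < w'.intValuation 1 := by
      rw [map_one]
      exact lt_of_le_of_lt h1 h21
    have h4 : r = (r - 1) + 1 := by ring
    rw [h4, Valuation.map_add_eq_of_lt_right _ h3, map_one]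

theorem unit_rep {B : Type} [Field B] [NumberField B] (S : Finset (HeightOneSpectrum (𝓞 B)))
    {x : B} (hx : x ≠ 0) (h : ∀ w ∈ S, (3 : ℤ) ∣ log (w.valuation B x)) :
    ∃ y : B, y ≠ 0 ∧ ∀ w ∈ S, w.valuation B (x * y ^ 3) = 1 := by
  have hp := fun w : S => Le_pi S w.1 w.2
  choose π hπ hπ' using hp
  have hk := fun w : S => h w.1 w.2
  choose k hk using hk
  have hπ0 : ∀ w : S, π w ≠ 0 := by
    intro w h0
    have h1 := hπ w
    rw [h0, map_zero] at h1
    exact exp_ne_zero h1.symm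
  refine ⟨∏ w : S, π w ^ k w, Finset.prod_ne_zero_iff.2 fun w _ => zpow_ne_zero _ (hπ0 w), ?_⟩
  intro w hw
  have h1 : w.valuation B (∏ w : S, π w ^ k w) = exp (-(k ⟨w, hw⟩)) := by
    rw [map_prod, Finset.prod_eq_single (⟨w, hw⟩ : S)]
    · rw [map_zpow₀, hπ ⟨w, hw⟩, ← exp_zsmul]
      congr 1
      simp
    · intro w' _ hne
      rw [map_zpow₀, hπ' w' w hw (fun he => hne (Subtype.ext he.symm)), one_zpow]
    · intro hn
      exact absurd (Finset.mem_univ _) hn
  have hxv : w.valuation B x ≠ 0 := (Valuation.ne_zero_iff _).2 hx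
  have h2 := hk ⟨w, hw⟩
  rw [map_mul, map_pow, h1, ← exp_nsmul, ← exp_log hxv, ← exp_add]
  have h3 : log (w.valuation B x) + 3 • -(k ⟨w, hw⟩) = 0 := by
    have h4 : log (w.valuation B x) = 3 * k ⟨w, hw⟩ := h2
    rw [h4]
    simp
  rw [h3, exp_zero]

end H55E
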