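import Pool.Agent.H55.TE.Df
import Pool.Agent.H86.T3D.Rf

/-!
Row Lf (about 80 lines): units at a place of a quadratic extension.

PROOF. `q := absNorm v.asIdeal`, `κ := 𝓞 B ⧸ w.asIdeal` is a finite field with `absNorm w.asIdeal` elements, `absNorm w.asIdeal = q ^ f`, f the inertia degree (w lies over v: Ideal.absNorm_eq_pow_inertiaDeg or Ideal.inertiaDeg and Module.card_eq_pow_finrank for the vector space κ over `𝓞 L ⧸ v.asIdeal`), 1 ≤ f ≤ finrank L B ≤ 2 (from Ideal.sum_ramification_inertia, a summand is at most the sum, or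
 linear independence: three elements of `𝓞 B` whose classes are independent over the residue field of v are independent over L, `Ideal.finrank_quotient_map`-like lemmas). So `q ^ f - 1` divides `q ^ 2 - 1` (f = 1: q^2 - 1 = (q - 1) (q + 1); f = 2 trivial). `H73IS.int_close w u hu.le` (used in Pool/Agent/H86/T3D/Rf.lean): an integer a with w (a - u) < 1, so w a = 1, a ∉ w,
 `a ^ (card κ - 1) = 1` in κ (FiniteField.pow_card_sub_one_eq_one or pow_card for a group with zero), so `a ^ (q^2 - 1) - 1 ∈ w.asIdeal`; `u ^ n - a ^ n` is divisible by `u - a` with integral quotient (Commute.geom_sum / sub_dvd_pow_sub_pow in the valuation ring, or induction on n), so w (u ^ n - 1) < 1.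
-/

set_option autoImplicit false
open scoped Classical

open WeierstrassCurve IsDedekindDomain NumberField WithZero Pool.Agent.H10 Pool.Agent.H11 H55T3

namespace H55E

theorem res_two {L B : Type} [Field L] [NumberField L] [Field B] [NumberField B] [Algebra L B]
    (h2 : Module.finrank L B ≤ 2) (v : HeightOneSpectrum (𝓞 L)) (w : HeightOneSpectrum (𝓞 B))
    (hwv : w.asIdeal.under (𝓞 L) = v.asIdeal) {u : B} (hu : w.valuation B u = 1) :
    w.valuation B (u ^ (Ideal.absNorm v.asIdeal ^ 2 - 1) - 1) < 1 := by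
  have hl : w.asIdeal.LiesOver v.asIdeal := ⟨hwv.symm⟩
  have hvm : v.asIdeal.IsMaximal := v.isMaximal
  have hwm : w.asIdeal.IsMaximal := w.isMaximal
  have hwp : w.asIdeal.IsPrime := w.isPrime
  obtain ⟨f, hf⟩ : ∃ f, f = v.asIdeal.inertiaDeg' w.asIdeal := ⟨_, rfl⟩
  have hN : Ideal.absNorm w.asIdeal = Ideal.absNorm v.asIdeal ^ f := by
    rw [hf]
    exact Ideal.absNorm_eq_pow_inertiaDeg'_of_liesOver w.asIdeal v.asIdeal v.isPrime v.ne_bot
  have hf2 : f ≤ 2 := by
    have hfs : FaithfulSMul (𝓞 L) (𝓞 B) := inferInstance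
    have hnz : NoZeroSMulDivisors (𝓞 L) (𝓞 B) := by
      constructor
      intro c x hcx
      rw [Algebra.smul_def, mul_eq_zero] at hcx
      rcases hcx with h | h
      · left
        exact FaithfulSMul.algebraMap_injective (𝓞 L) (𝓞 B) (by rw [h, map_zero])
      · exact Or.inr h
    rw [hf]
    exact (Ideal.inertiaDeg_le_finrank (𝓞 B) L B w.asIdeal v.ne_bot).trans h2
  have hf0 : 0 < f := by
    rw [hf]
    exact Ideal.inertiaDeg'_pos v.asIdeal w.asIdeal
  have hdvd : Ideal.absNorm w.asIdeal - 1 ∣ Ideal.absNorm v.asIdeal ^ 2 - 1 := by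
    rw [hN]
    have h3 : f = 1 ∨ f = 2 := by omega
    rcases h3 with h | h
    · rw [h, pow_one]
      simpa using Nat.sub_dvd_pow_sub_pow (Ideal.absNorm v.asIdeal) 1 2
    · rw [h]
  obtain ⟨a, ha⟩ := H73IS.int_close w u hu.le
  have hwa : w.valuation B (a : B) = 1 := by
    have h3 : (a : B) = u + -(u - a) := by ring
    rw [h3, ← hu]
    apply Valuation.map_add_eq_of_lt_left
    rw [Valuation.map_neg, hu]
    exact ha
  have hna : a ∉ w.asIdeal := by
    intro h
    have h3 := (HeightOneSpectrum.valuation_lt_one_iff_mem (K := B) w a).2 h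
    exact absurd hwa h3.ne
  have hmem : a ^ (Ideal.absNorm v.asIdeal ^ 2 - 1) - 1 ∈ w.asIdeal := by
    obtain ⟨c, hc⟩ := hdvd
    rw [← Ideal.Quotient.eq_zero_iff_mem, map_sub, map_pow, map_one, hc, pow_mul]
    have hfin : Finite (𝓞 B ⧸ w.asIdeal) := Ideal.finiteQuotientOfFreeOfNeBot _ w.ne_bot
    let _ : Field (𝓞 B ⧸ w.asIdeal) := Ideal.Quotient.field w.asIdeal
    let _ : Fintype (𝓞 B ⧸ w.asIdeal) := Fintype.ofFinite _
    have h3 : Ideal.Quotient.mk w.asIdeal a ≠ 0 := fun h =>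
      hna (Ideal.Quotient.eq_zero_iff_mem.1 h)
    have h4 := FiniteField.pow_card_sub_one_eq_one _ h3
    have h5 : Fintype.card (𝓞 B ⧸ w.asIdeal) = Ideal.absNorm w.asIdeal := by
      rw [Ideal.absNorm_apply, Submodule.cardQuot_apply, Nat.card_eq_fintype_card]
    rw [h5] at h4
    rw [h4, one_pow, sub_self]
  have hlt : w.valuation B ((a : B) ^ (Ideal.absNorm v.asIdeal ^ 2 - 1) - 1) < 1 := by
    have h3 := (HeightOneSpectrum.valuation_lt_one_iff_mem (K := B) w _).2 hmem
    simpa using h3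
  have hpow : ∀ n : ℕ, w.valuation B (u ^ n - (a : B) ^ n) < 1 := by
    intro n
    induction n with
    | zero =>
      rw [pow_zero, pow_zero, sub_self, map_zero]
      exact zero_lt_one
    | succ n ih =>
      have h3 : u ^ (n + 1) - (a : B) ^ (n + 1) =
          u * (u ^ n - (a : B) ^ n) + (u - a) * (a : B) ^ n := by ring
      rw [h3]
      apply Valuation.map_add_lt
      · rw [map_mul, hu, one_mul]
        exact ih
      · rw [map_mul, map_pow, hwa, one_pow, mul_one]
        exact ha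
  have h6 : u ^ (Ideal.absNorm v.asIdeal ^ 2 - 1) - 1 =
      (u ^ (Ideal.absNorm v.asIdeal ^ 2 - 1) - (a : B) ^ (Ideal.absNorm v.asIdeal ^ 2 - 1)) +
      ((a : B) ^ (Ideal.absNorm v.asIdeal ^ 2 - 1) - 1) := by ring
  rw [h6]
  exact Valuation.map_add_lt _ (hpow _) hlt

/-- the exponent is prime to three -/
theorem mod_two {L : Type} [Field L] [NumberField L] (v : HeightOneSpectrum (𝓞 L))
    (h3 : (3 : 𝓞 L) ∈ v.asIdeal) : ∃ k : ℕ, Ideal.absNorm v.asIdeal ^ 2 - 1 = 3 * k + 2 := by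
  have h1 : Ideal.span {(3 : 𝓞 L)} ≤ v.asIdeal := by
    rw [Ideal.span_le, Set.singleton_subset_iff]
    exact h3
  have h2 := Ideal.absNorm_dvd_absNorm_of_le h1
  have h4 : Ideal.absNorm (Ideal.span {(3 : 𝓞 L)}) = 3 ^ Module.finrank ℤ (𝓞 L) := by
    rw [Ideal.absNorm_span_singleton]
    have h5 : (3 : 𝓞 L) = algebraMap ℤ (𝓞 L) 3 := by simp
    rw [h5, Algebra.norm_algebraMap, Int.natAbs_pow]
    rfl
  rw [h4, Nat.dvd_prime_pow Nat.prime_three] at h2
  obtain ⟨j, _, hj⟩ := h2
  have hj0 : j ≠ 0 := by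
    rintro rfl
    rw [pow_zero, Ideal.absNorm_eq_one_iff] at hj
    exact v.isPrime.ne_top hj
  obtain ⟨i, rfl⟩ := Nat.exists_eq_succ_of_ne_zero hj0
  have h6 : Ideal.absNorm v.asIdeal ^ 2 = 9 * 9 ^ i := by
    rw [hj, ← pow_mul, show i.succ * 2 = 2 * (i + 1) by rw [Nat.succ_eq_add_one]; ring, pow_mul,
      pow_succ]
    norm_num
    ring
  have h7 : 0 < 9 ^ i := by positivity
  refine ⟨3 * 9 ^ i - 1, ?_⟩
  rw [h6]
  omega

end H55E
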