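import Pool.Agent.H55.TE.Le
import Pool.Agent.H55.TE.Lf
import Pool.Agent.H10.StarGal

/-!
Row Lg (about 90 lines): a representative of norm one which is near to one.

PROOF. S := the finite set of the places w of B with `w.asIdeal.under (𝓞 L) = v.asIdeal` (finite: they contain 3; Ideal.finite_factors as in Pool/Agent/H86/T3D/ArbL.lean). unit_rep: y ≠ 0, `x₁ := x y^3` has valuation 1 at all w ∈ S. For w ∈ S: `w (σ x₁) = w' x₁` with w' a place which contains the same elements of 𝓞 L (exists_conj, Pool/Agent/H10/StarGal.lean), so w' ∈ S and w (σ x₁) = 1.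
 `n := absNorm v ^ 2 - 1 = 3 k + 2` (mod_two), `u₁ := x₁ / σ x₁`, `z := u₁ ^ n`: w (z - 1) < 1 (res_two), z σ z = (u₁ σ u₁)^n = 1 (σ σ x = x). `x₁ σ x₁ = c^3` with c = y₀ y σ y (x σ x = y₀^3), c ≠ 0, `u₁ = x₁^2 / c^3`, `z = x₁^(2 n) / c^(3 n) = x₁ (x₁^(2 k + 1) / c^n)^3` as 2 n = 3 (2 k + 1) + 1.
 So `x = z u^3` with `u := (y x₁^(2 k + 1) / c^n)⁻¹`.
-/

set_option autoImplicit false
open scoped Classical

open WeierstrassCurve IsDedekindDomain NumberField WithZero Pool.Agent.H10 Pool.Agent.H11 H55T3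

namespace H55E

theorem exists_z {L B : Type} [Field L] [NumberField L] [Field B] [NumberField B] [Algebra L B]
    (h2 : Module.finrank L B = 2) (v : HeightOneSpectrum (𝓞 L)) (h3 : (3 : 𝓞 L) ∈ v.asIdeal)
    {σ : B ≃ₐ[L] B} (hσ : ∀ x, σ (σ x) = x) {x : B} (hx : x ≠ 0)
    (hv : ∀ w : HeightOneSpectrum (𝓞 B), w.asIdeal.under (𝓞 L) = v.asIdeal →
      (3 : ℤ) ∣ log (w.valuation B x)) (hT : ∃ y, x * σ x = y ^ 3) :
    ∃ z u : B, u ≠ 0 ∧ x = z * u ^ 3 ∧ z * σ z = 1 ∧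
      ∀ w : HeightOneSpectrum (𝓞 B), w.asIdeal.under (𝓞 L) = v.asIdeal →
        w.valuation B (z - 1) < 1 := by
  have hfin : {w : HeightOneSpectrum (𝓞 B) | w.asIdeal.under (𝓞 L) = v.asIdeal}.Finite := by
    have h0 : Ideal.span {(3 : 𝓞 B)} ≠ 0 := by
      rw [Ne, Ideal.zero_eq_bot, Ideal.span_singleton_eq_bot]
      norm_num
    refine (Ideal.finite_factors h0).subset ?_
    intro w hw
    refine Ideal.dvd_span_singleton.mpr ?_
    have h1 : (3 : 𝓞 L) ∈ w.asIdeal.under (𝓞 L) := by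
      rw [show w.asIdeal.under (𝓞 L) = v.asIdeal from hw]
      exact h3
    have h2' : algebraMap (𝓞 L) (𝓞 B) 3 ∈ w.asIdeal := h1
    rwa [map_ofNat] at h2'
  obtain ⟨y, hy0, hy⟩ := unit_rep hfin.toFinset hx (fun w hw => hv w (by
    rw [Set.Finite.mem_toFinset] at hw
    exact hw))
  have hy' : ∀ w : HeightOneSpectrum (𝓞 B), w.asIdeal.under (𝓞 L) = v.asIdeal → w.valuation B (x * y ^ 3) = 1 :=
    fun w hw => hy w (by rw [Set.Finite.mem_toFinset]; exact hw)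
  obtain ⟨y₀, hy₀⟩ := hT
  obtain ⟨x₁, hx₁⟩ : ∃ x₁, x₁ = x * y ^ 3 := ⟨_, rfl⟩
  rw [← hx₁] at hy'
  have hx₁0 : x₁ ≠ 0 := by rw [hx₁]; exact mul_ne_zero hx (pow_ne_zero 3 hy0)
  have hσ0 : ∀ a : B, a ≠ 0 → σ a ≠ 0 := fun a ha => (map_ne_zero σ).2 ha
  have hσx : ∀ w : HeightOneSpectrum (𝓞 B), w.asIdeal.under (𝓞 L) = v.asIdeal → w.valuation B (σ x₁) = 1 := by
    intro w hw
    obtain ⟨w', h1, h2'⟩ := exists_conj σ w
    rw [h1]
    refine hy' w' ?_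
    rw [← hw]
    ext a
    exact h2' a
  obtain ⟨k, hk⟩ := mod_two v h3
  obtain ⟨n, hn⟩ : ∃ n, n = Ideal.absNorm v.asIdeal ^ 2 - 1 := ⟨_, rfl⟩
  rw [← hn] at hk
  obtain ⟨c, hc⟩ : ∃ c, c = y₀ * y * σ y := ⟨_, rfl⟩
  have hy₀0 : y₀ ≠ 0 := by
    intro h
    rw [h, zero_pow three_ne_zero] at hy₀
    rcases mul_eq_zero.1 hy₀ with h | h
    · exact hx h
    · exact hσ0 x hx h
  have hc0 : c ≠ 0 := by rw [hc]; exact mul_ne_zero (mul_ne_zero hy₀0 hy0) (hσ0 y hy0)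
  have hcc : x₁ * σ x₁ = c ^ 3 := by
    rw [hx₁, map_mul, map_pow, hc]
    calc x * y ^ 3 * (σ x * σ y ^ 3) = (x * σ x) * (y ^ 3 * σ y ^ 3) := by ring
      _ = _ := by rw [hy₀]; ring
  have hs0 : σ x₁ ≠ 0 := hσ0 _ hx₁0
  have hu1 : x₁ / σ x₁ = x₁ ^ 2 / c ^ 3 := by
    rw [← hcc]
    field_simp
  have hz : (x₁ / σ x₁) ^ n = x₁ * (x₁ ^ (2 * k + 1) / c ^ n) ^ 3 := by
    rw [hu1, div_pow, div_pow, ← pow_mul, ← pow_mul, ← pow_mul, ← pow_mul, mul_comm 3 n, ← mul_div_assoc]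
    congr 1
    rw [← pow_succ']
    congr 1
    omega
  refine ⟨(x₁ / σ x₁) ^ n, (y * (x₁ ^ (2 * k + 1) / c ^ n))⁻¹, ?_, ?_, ?_, ?_⟩
  · refine inv_ne_zero (mul_ne_zero hy0 (div_ne_zero (pow_ne_zero _ hx₁0) (pow_ne_zero _ hc0)))
  · rw [hz]
    obtain ⟨t, ht⟩ : ∃ t, t = x₁ ^ (2 * k + 1) / c ^ n := ⟨_, rfl⟩
    have ht0 : t ≠ 0 := by rw [ht]; exact div_ne_zero (pow_ne_zero _ hx₁0) (pow_ne_zero _ hc0)
    rw [← ht, hx₁]
    field_simp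
  · rw [map_pow, ← mul_pow, map_div₀, hσ]
    have : x₁ / σ x₁ * (σ x₁ / x₁) = 1 := by field_simp
    rw [this, one_pow]
  · intro w hw
    rw [hn]
    refine res_two h2.le v w hw ?_
    rw [map_div₀, hy' w hw, hσx w hw, div_one]

end H55E
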