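import Pool.Agent.H55.TE.Df

/-!
Row Lh (about 150 lines): two elements of norm one near to one with close second coordinates.

PROOF. `z = z₀ + z₁ s`, `y = y₀ + y₁ s` (images). v 2 = 1 (as v 3 = exp (-1): Ld_two in Pool/Agent/H11/T3L/Ld.lean), W 2 = 1. `W (algebraMap x) = v x ^ e`. Adding and subtracting hz1 and hz2: W (2 (z₀ - 1)) < 1, so v (z₀ - 1) < 1 (v x ^ e < 1 implies v x < 1), similarly v (y₀ - 1) < 1, v z₀ = v y₀ = 1, v (z₀ + y₀) = v (2 + (z₀ - 1) + (y₀ - 1)) = 1, v (z₀ + 1) = 1, W (2 z₁ s) < 1, so W (z₁ s) < 1; similarly W (y₁ s) < 1. W y = 1 (from W (y - 1) < 1).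
 Case (a) v D = 1, e = 1: W s ^ 2 = W D = 1, W s = 1; v z₁ < 1, v z₁ ≤ exp (-1) (le_exp_neg_one), `(z₀ - 1) (z₀ + 1) = D z₁^2`, so v (z₀ - 1) ≤ exp (-2), the same for y. `z - y = (z₀ - y₀) + (z₁ - y₁) s`: W ≤ exp (-2). So W (z / y - 1) ≤ exp (-2), square ≤ exp (-4) ≤ exp (-3) = W 27.
 Case (b) v D = exp (-1): W s ^ 2 = W D = exp (-1) ^ e. `(W (z₁ s))^2 = (v z₁ ^ 2 * exp (-1)) ^ e < 1`, so v z₁ ^ 2 * exp (-1) < 1, v z₁ ≤ 1 (if v z₁ = exp k then 2 k - 1 < 0), same for y₁. `(z₀ - y₀) (z₀ + y₀) = D (z₁ - y₁) (z₁ + y₁)`: v (z₀ - y₀) ≤ exp (-2). `W (z - y)^2 ≤ max (v (z₀ - y₀) ^ (2 e), v (z₁ - y₁) ^ (2 e) * exp (-1) ^ e) ≤ exp (-3) ^ e = W 27`.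
 W (z / y - 1) = W (z - y) / W y = W (z - y).
-/

set_option autoImplicit false
open scoped Classical

open WeierstrassCurve IsDedekindDomain NumberField WithZero Pool.Agent.H10 Pool.Agent.H11 H55T3

namespace H55E

private theorem Lh_lt {e : ℕ} {x : WithZero (Multiplicative ℤ)} (h : x ^ e < 1) : x < 1 := by
  by_contra hc
  rw [not_lt] at hc
  exact absurd h (not_lt.2 (one_le_pow₀ hc))

private theorem Lh_two {L : Type} [Field L] {v : Valuation L (WithZero (Multiplicative ℤ))}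
    (h3 : v 3 = exp (-1 : ℤ)) : v 2 = 1 := by
  have e1 : (2 : L) = -1 + 3 := by norm_num
  have h1 : v (1 : L) = 1 := map_one v
  have h4 : exp (-1 : ℤ) < (1 : WithZero (Multiplicative ℤ)) := by
    rw [← exp_zero, exp_lt_exp]
    norm_num
  rw [e1, Valuation.map_add_eq_of_lt_left, Valuation.map_neg, h1]
  rw [Valuation.map_neg, h1, h3]
  exact h4

private theorem Lh_base {L B : Type} [Field L] [Field B] [CharZero L] [Algebra L B]
    {v : Valuation L (WithZero (Multiplicative ℤ))} {W : Valuation B (WithZero (Multiplicative ℤ))}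
    {e : ℕ} (hvW : ∀ x : L, v x ^ e = W (algebraMap L B x)) (h2 : v 2 = 1)
    {D : L} {s : B} (hs : s ^ 2 = algebraMap L B D) {z₀ z₁ : L}
    (hz1 : W (algebraMap L B z₀ + algebraMap L B z₁ * s - 1) < 1)
    (hz2 : W (algebraMap L B z₀ - algebraMap L B z₁ * s - 1) < 1) :
    v (z₀ - 1) < 1 ∧ v (z₁ ^ 2 * D) < 1 := by
  have hW2 : W 2 = 1 := by
    have h3 := hvW 2
    rw [h2, one_pow, map_ofNat (algebraMap L B) 2] at h3
    exact h3.symm
  constructor
  · have h3 : W (algebraMap L B (z₀ - 1)) < 1 := by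
      have e1 : 2 * algebraMap L B (z₀ - 1) =
          (algebraMap L B z₀ + algebraMap L B z₁ * s - 1) +
            (algebraMap L B z₀ - algebraMap L B z₁ * s - 1) := by
        rw [map_sub, map_one]
        ring
      have h4 : W (2 * algebraMap L B (z₀ - 1)) < 1 := by
        rw [e1]
        exact (Valuation.map_add _ _ _).trans_lt (max_lt hz1 hz2)
      rwa [map_mul, hW2, one_mul] at h4
    rw [← hvW] at h3
    exact Lh_lt h3
  · have h3 : W (algebraMap L B z₁ * s) < 1 := by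
      have e1 : 2 * (algebraMap L B z₁ * s) =
          (algebraMap L B z₀ + algebraMap L B z₁ * s - 1) -
            (algebraMap L B z₀ - algebraMap L B z₁ * s - 1) := by ring
      have h4 : W (2 * (algebraMap L B z₁ * s)) < 1 := by
        rw [e1]
        exact (Valuation.map_sub _ _ _).trans_lt (max_lt hz1 hz2)
      rwa [map_mul, hW2, one_mul] at h4
    have h4 : W (algebraMap L B (z₁ ^ 2 * D)) < 1 := by
      have e2 : algebraMap L B (z₁ ^ 2 * D) = (algebraMap L B z₁ * s) * (algebraMap L B z₁ * s) := by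
        rw [map_mul, map_pow, ← hs]
        ring
      rw [e2, map_mul]
      exact mul_lt_one_of_lt_of_le h3 h3.le
    rw [← hvW] at h4
    exact Lh_lt h4

private theorem Lh_int {L : Type} [Field L] {v : Valuation L (WithZero (Multiplicative ℤ))}
    {D z₁ : L} (h : v (z₁ ^ 2 * D) < 1) :
    (v D = 1 → v z₁ ≤ exp (-1 : ℤ)) ∧ (v D = exp (-1 : ℤ) → v z₁ ≤ 1) := by
  rw [map_mul, map_pow] at h
  constructor
  · intro hD
    rw [hD, mul_one] at h
    have h1 : v z₁ < 1 := Lh_lt h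
    by_cases h0 : v z₁ = 0
    · rw [h0]
      exact zero_le
    · rw [← exp_log h0, ← exp_zero, exp_lt_exp] at h1
      rw [← exp_log h0, exp_le_exp]
      omega
  · intro hD
    rw [hD] at h
    by_cases h0 : v z₁ = 0
    · rw [h0]
      exact zero_le
    · rw [← exp_log h0, ← exp_nsmul, ← exp_add, ← exp_zero, exp_lt_exp] at h
      rw [← exp_log h0, ← exp_zero, exp_le_exp]
      rw [nsmul_eq_mul] at h
      push_cast at h
      omega

theorem z_near {L B : Type} [Field L] [Field B] [CharZero L] [Algebra L B]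
    {v : Valuation L (WithZero (Multiplicative ℤ))} {W : Valuation B (WithZero (Multiplicative ℤ))}
    {e : ℕ} (he : e ≠ 0) (hvW : ∀ x : L, v x ^ e = W (algebraMap L B x)) (h3 : v 3 = exp (-1 : ℤ))
    {D : L} {s : B} (hs : s ^ 2 = algebraMap L B D) {z₀ z₁ y₀ y₁ : L}
    (hz : z₀ ^ 2 - D * z₁ ^ 2 = 1) (hy : y₀ ^ 2 - D * y₁ ^ 2 = 1)
    (hz1 : W (algebraMap L B z₀ + algebraMap L B z₁ * s - 1) < 1)
    (hz2 : W (algebraMap L B z₀ - algebraMap L B z₁ * s - 1) < 1)
    (hy1 : W (algebraMap L B y₀ + algebraMap L B y₁ * s - 1) < 1)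
    (hy2 : W (algebraMap L B y₀ - algebraMap L B y₁ * s - 1) < 1)
    (hD : (v D = 1 ∧ e = 1 ∧ v (z₁ - y₁) ≤ exp (-2 : ℤ)) ∨
      (v D = exp (-1 : ℤ) ∧ v (z₁ - y₁) ≤ exp (-1 : ℤ))) :
    W ((algebraMap L B z₀ + algebraMap L B z₁ * s) /
      (algebraMap L B y₀ + algebraMap L B y₁ * s) - 1) ^ 2 ≤ W 27 := by
  have h2 : v 2 = 1 := Lh_two h3
  obtain ⟨a1, a2⟩ := Lh_base hvW h2 hs hz1 hz2
  obtain ⟨b1, b2⟩ := Lh_base hvW h2 hs hy1 hy2
  obtain ⟨a3, a4⟩ := Lh_int a2
  obtain ⟨b3, b4⟩ := Lh_int b2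
  have hm1 : exp (-1 : ℤ) ≤ (1 : WithZero (Multiplicative ℤ)) := by
    rw [← exp_zero, exp_le_exp]
    norm_num
  -- the two cases
  obtain ⟨c1, c2, c3⟩ : v (D * (z₁ - y₁)) ≤ exp (-2 : ℤ) ∧ v ((z₁ - y₁) ^ 2 * D) ≤ exp (-3 : ℤ) ∧
      v (z₁ + y₁) ≤ 1 := by
    rcases hD with ⟨hD1, -, hd⟩ | ⟨hD1, hd⟩
    · refine ⟨?_, ?_, ?_⟩
      · rw [map_mul, hD1, one_mul]
        exact hd
      · rw [map_mul, map_pow, hD1, mul_one]
        refine (pow_le_pow_left' hd 2).trans ?_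
        rw [← exp_nsmul, exp_le_exp]
        norm_num
      · exact (Valuation.map_add _ _ _).trans (max_le ((a3 hD1).trans hm1) ((b3 hD1).trans hm1))
    · refine ⟨?_, ?_, ?_⟩
      · rw [map_mul, hD1]
        refine (mul_le_mul_right hd _).trans ?_
        rw [← exp_add, exp_le_exp]
        norm_num
      · rw [map_mul, map_pow, hD1]
        refine (mul_le_mul_left (pow_le_pow_left' hd 2) _).trans ?_
        rw [← exp_nsmul, ← exp_add, exp_le_exp]
        norm_num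
      · exact (Valuation.map_add _ _ _).trans (max_le (a4 hD1) (b4 hD1))
  -- the first coordinates
  have hsum : v (z₀ + y₀) = 1 := by
    have e1 : z₀ + y₀ = 2 + ((z₀ - 1) + (y₀ - 1)) := by ring
    have h4 : v ((z₀ - 1) + (y₀ - 1)) < v 2 := by
      rw [h2]
      exact (Valuation.map_add _ _ _).trans_lt (max_lt a1 b1)
    rw [e1, Valuation.map_add_eq_of_lt_left _ h4, h2]
  have hd0 : v (z₀ - y₀) ≤ exp (-2 : ℤ) := by
    have e1 : (z₀ - y₀) * (z₀ + y₀) = D * (z₁ - y₁) * (z₁ + y₁) := by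
      linear_combination hz - hy
    have h4 := congrArg v e1
    rw [map_mul, hsum, mul_one, map_mul] at h4
    rw [h4]
    exact (mul_le_of_le_one_right' c3).trans c1
  -- the quotient
  have hWy : W (algebraMap L B y₀ + algebraMap L B y₁ * s) = 1 := by
    have e1 : algebraMap L B y₀ + algebraMap L B y₁ * s =
        1 + (algebraMap L B y₀ + algebraMap L B y₁ * s - 1) := by ring
    rw [e1]
    exact Valuation.map_one_add_of_lt _ hy1
  have hy0 : algebraMap L B y₀ + algebraMap L B y₁ * s ≠ 0 := by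
    intro h0
    rw [h0, map_zero] at hWy
    exact zero_ne_one hWy
  have e2 : (algebraMap L B z₀ + algebraMap L B z₁ * s) /
      (algebraMap L B y₀ + algebraMap L B y₁ * s) - 1 =
      (algebraMap L B (z₀ - y₀) + algebraMap L B (z₁ - y₁) * s) /
        (algebraMap L B y₀ + algebraMap L B y₁ * s) := by
    rw [div_sub_one hy0, map_sub, map_sub]
    congr 1
    ring
  have h27 : W 27 = exp (-3 : ℤ) ^ e := by
    have h4 := hvW 27
    rw [map_ofNat (algebraMap L B) 27] at h4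
    rw [← h4]
    have e3 : (27 : L) = 3 ^ 3 := by norm_num
    rw [e3, map_pow, h3, ← exp_nsmul]
    congr 2
  rw [e2, map_div₀, hWy, div_one, h27]
  have hA : W (algebraMap L B (z₀ - y₀)) ^ 2 ≤ exp (-3 : ℤ) ^ e := by
    rw [← hvW, ← pow_mul, mul_comm, pow_mul]
    refine pow_le_pow_left' ((pow_le_pow_left' hd0 2).trans ?_) e
    rw [← exp_nsmul, exp_le_exp]
    norm_num
  have hB : W (algebraMap L B (z₁ - y₁) * s) ^ 2 ≤ exp (-3 : ℤ) ^ e := by
    rw [← map_pow, mul_pow, hs, ← map_pow, ← map_mul, ← hvW]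
    exact pow_le_pow_left' c2 e
  have h5 := Valuation.map_add W (algebraMap L B (z₀ - y₀)) (algebraMap L B (z₁ - y₁) * s)
  rcases le_max_iff.1 h5 with h6 | h6
  · exact (pow_le_pow_left' h6 2).trans hA
  · exact (pow_le_pow_left' h6 2).trans hB

/-- the size of the second coordinate -/
theorem z_int {L B : Type} [Field L] [Field B] [CharZero L] [Algebra L B]
    {v : Valuation L (WithZero (Multiplicative ℤ))} {W : Valuation B (WithZero (Multiplicative ℤ))}
    {e : ℕ} (he : e ≠ 0) (hvW : ∀ x : L, v x ^ e = W (algebraMap L B x)) (h3 : v 3 = exp (-1 : ℤ))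
    {D : L} {s : B} (hs : s ^ 2 = algebraMap L B D) {z₀ z₁ : L}
    (hz1 : W (algebraMap L B z₀ + algebraMap L B z₁ * s - 1) < 1)
    (hz2 : W (algebraMap L B z₀ - algebraMap L B z₁ * s - 1) < 1) :
    (v D = 1 → v z₁ ≤ exp (-1 : ℤ)) ∧ (v D = exp (-1 : ℤ) → v z₁ ≤ 1) :=
  Lh_int (Lh_base hvW (Lh_two h3) hs hz1 hz2).2

end H55E
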