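import Pool.Agent.H55.TE.Lg
import Pool.Agent.H55.TE.Lh
import Pool.Agent.H55.TE.Cl

/-!
Row Li (about 170 lines): at a place `v` above three the twisted classes with valuations divisible by three are determined, up to `Near`, by an element of the residue field of `v`.

PROOF. D ≠ 0 (hD). `H11L.Lo_dec` (Pool/Agent/H11/T3L/Lo.lean): every element of B is `d₁ + d₂ s`; in its proof the automorphism τ ≠ 1 with τ s = -s and τ τ x = x is constructed: call it σ. For x with V3 B x, Twi L s x: exists_z (Lg) gives z, u; `z = z₀ + z₁ s`, `σ z = z₀ - z₁ s`, so `z₀^2 - D z₁^2 = 1`. For w over v: w (z - 1) < 1, and w (σ z - 1) = w' (z - 1) for a place w' over v (exists_conj), so < 1.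
 `v.valuation L a ^ e = w.valuation B (algebraMap L B a)`, e ≠ 0 (HeightOneSpectrum.valuation_liesOver, H11L.Lf_under / val_up). There is a place w over v (lying over; as in unique_of_fix, Pool/Agent/H55/T3/S4.lean), so z_int (Lh): v D = 1 implies v z₁ ≤ exp (-1), v D = exp (-1) implies v z₁ ≤ 1. λ := z₁ / 3 if v D = 1, λ := z₁ otherwise: v λ ≤ 1. `H73IS.int_close v λ`: a : 𝓞 L with v (λ - a) < 1; τ x := Ideal.Quotient.mk _ a.
 (Private lemma: for every x with V3, Twi there are z₀ z₁ u a with all these properties; τ by choice.)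
 τ x = τ y: a - b ∈ v, so v (λ - μ) < 1, ≤ exp (-1), so v (z₁ - y₁) ≤ exp (-2) if v D = 1 and ≤ exp (-1) otherwise. z_near gives w (z / z' - 1)^2 ≤ w 27. x / y = (z / z') (u / u')^3, t := u' / u. In the case v D = 1 one needs e = 1: H86D.unram_two (Pool/Agent/H86/T3D/Rf.lean) with QD D s σ (sq, neg, rk, D0): `w (algebraMap x) = v x`, so take e = 1 there.
-/

set_option autoImplicit false
open scoped Classical

open WeierstrassCurve IsDedekindDomain NumberField WithZero Pool.Agent.H10 Pool.Agent.H11 H55T3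

namespace H55E

/-- the data attached to a twisted class -/
def LiP {L B : Type} [Field L] [NumberField L] [Field B] [NumberField B] [Algebra L B]
    (v : HeightOneSpectrum (𝓞 L)) (D c : L) (s x : B) (a : 𝓞 L) : Prop :=
  ∃ (z₀ z₁ : L) (u : B), u ≠ 0 ∧ x = (algebraMap L B z₀ + algebraMap L B z₁ * s) * u ^ 3 ∧
    z₀ ^ 2 - D * z₁ ^ 2 = 1 ∧
    (∀ w : HeightOneSpectrum (𝓞 B), w.asIdeal.under (𝓞 L) = v.asIdeal →
      w.valuation B (algebraMap L B z₀ + algebraMap L B z₁ * s - 1) < 1 ∧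
      w.valuation B (algebraMap L B z₀ - algebraMap L B z₁ * s - 1) < 1) ∧
    v.valuation L (c * z₁ - (a : L)) < 1

theorem Li_up {L B : Type} [Field L] [NumberField L] [Field B] [NumberField B] [Algebra L B]
    (v : HeightOneSpectrum (𝓞 L)) (w : HeightOneSpectrum (𝓞 B))
    (hw : w.asIdeal.under (𝓞 L) = v.asIdeal) : ∃ e : ℕ, e ≠ 0 ∧
      ∀ x : L, v.valuation L x ^ e = w.valuation B (algebraMap L B x) := by
  obtain ⟨w0, h1, h2, h3⟩ := H11L.Lf_under (L := L) w
  have h4 : w0 = v := HeightOneSpectrum.ext (h1.trans hw)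
  subst h4
  exact ⟨_, h3, fun x => HeightOneSpectrum.valuation_liesOver B w0 w x⟩

theorem Li_data {L B : Type} [Field L] [NumberField L] [Field B] [NumberField B] [Algebra L B]
    [IsGalois L B] (h2 : Module.finrank L B = 2) {D : L} {s : B} (hs : s ^ 2 = algebraMap L B D)
    (hgen : ∀ g : B ≃ₐ[L] B, g s = s → g = 1) (v : HeightOneSpectrum (𝓞 L))
    (h3v : (3 : 𝓞 L) ∈ v.asIdeal) (h3 : v.valuation L 3 = exp (-1 : ℤ))
    {σ : B ≃ₐ[L] B} (hσs : σ s = -s) (hσσ : ∀ x, σ (σ x) = x) (hD0 : D ≠ 0) {c : L}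
    (hc : (v.valuation L D = 1 ∧ v.valuation L c = exp (1 : ℤ)) ∨
      (v.valuation L D = exp (-1 : ℤ) ∧ v.valuation L c = 1))
    {x : B} (hx : V3 B x) (hT : Twi L s x) : ∃ a : 𝓞 L, LiP v D c s x a := by
  obtain ⟨z, u, hu, hxz, hz1, hzw⟩ := exists_z h2 v h3v hσσ hx.1 (fun w _ => hx.2 w) (hT σ hσs)
  obtain ⟨z₀, z₁, hz⟩ := H11L.Lo_dec hD0 hs h2 hgen z
  have hσz : σ z = algebraMap L B z₀ - algebraMap L B z₁ * s := by
    rw [hz, map_add, map_mul, σ.commutes, σ.commutes, hσs]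
    ring
  have hnorm : z₀ ^ 2 - D * z₁ ^ 2 = 1 := by
    apply (algebraMap L B).injective
    rw [map_sub, map_mul, map_pow, map_pow, map_one, ← hs, ← hz1, hσz, hz]
    ring
  have hw2 : ∀ w : HeightOneSpectrum (𝓞 B), w.asIdeal.under (𝓞 L) = v.asIdeal →
      w.valuation B (algebraMap L B z₀ + algebraMap L B z₁ * s - 1) < 1 ∧
      w.valuation B (algebraMap L B z₀ - algebraMap L B z₁ * s - 1) < 1 := by
    intro w hw
    refine ⟨?_, ?_⟩
    · rw [← hz]
      exact hzw w hw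
    · obtain ⟨w', h4, h5⟩ := Pool.Agent.H10.exists_conj (K := L) (L := B) σ w
      have h6 : w'.asIdeal.under (𝓞 L) = v.asIdeal := by
        rw [← hw]
        ext y
        exact h5 y
      have h7 : algebraMap L B z₀ - algebraMap L B z₁ * s - 1 = σ (z - 1) := by
        rw [map_sub, map_one, hσz]
      rw [h7, h4]
      exact hzw w' h6
  obtain ⟨W, hW⟩ := H68QS.exists_over (L := L) (L2 := B) v
  have hWv : W.asIdeal.under (𝓞 L) = v.asIdeal := (Ideal.LiesOver.over (P := W.asIdeal)).symm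
  obtain ⟨e, he, hvW⟩ := Li_up v W hWv
  obtain ⟨g1, g2⟩ := hw2 W hWv
  obtain ⟨k1, k2⟩ := z_int he hvW h3 hs g1 g2
  have hint : v.valuation L (c * z₁) ≤ 1 := by
    rw [map_mul]
    rcases hc with ⟨hD, hcv⟩ | ⟨hD, hcv⟩
    · rw [hcv]
      have h4 : exp (1 : ℤ) * v.valuation L z₁ ≤ exp (1 : ℤ) * exp (-1 : ℤ) :=
        mul_le_mul' le_rfl (k1 hD)
      rw [← exp_add, add_neg_cancel, exp_zero] at h4
      exact h4
    · rw [hcv, one_mul]
      exact k2 hD
  obtain ⟨a, ha⟩ := H73IS.int_close v _ hint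
  refine ⟨a, z₀, z₁, u, hu, ?_, hnorm, hw2, ha⟩
  rw [← hz]
  exact hxz

theorem bad_two {L B : Type} [Field L] [NumberField L] [Field B] [NumberField B] [Algebra L B]
    [IsGalois L B] (h2 : Module.finrank L B = 2) {D : L} {s : B} (hs : s ^ 2 = algebraMap L B D)
    (hgen : ∀ g : B ≃ₐ[L] B, g s = s → g = 1) (v : HeightOneSpectrum (𝓞 L))
    (h3v : (3 : 𝓞 L) ∈ v.asIdeal) (h3 : v.valuation L 3 = exp (-1 : ℤ))
    (hD : v.valuation L D = 1 ∨ v.valuation L D = exp (-1 : ℤ)) :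
    ∃ τ : B → 𝓞 L ⧸ v.asIdeal, ∀ x y : B, V3 B x → V3 B y → Twi L s x → Twi L s y →
      τ x = τ y → ∀ w : HeightOneSpectrum (𝓞 B), w.asIdeal.under (𝓞 L) = v.asIdeal →
        Near w (x / y) := by
  have hD0 : D ≠ 0 := by
    rintro rfl
    rw [map_zero] at hD
    rcases hD with h | h
    · exact zero_ne_one h
    · exact exp_ne_zero h.symm
  have hfd : FiniteDimensional L B := Module.Finite.of_restrictScalars_finite ℚ L B
  have hcard : Nat.card (B ≃ₐ[L] B) = 2 := by rw [IsGalois.card_aut_eq_finrank, h2]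
  have hpm : ∀ h : B ≃ₐ[L] B, h s = s ∨ h s = -s := by
    intro h
    have h1 : (h s) ^ 2 = s ^ 2 := by
      rw [← map_pow, hs, h.commutes]
    exact sq_eq_sq_iff_eq_or_eq_neg.1 h1
  obtain ⟨σ, hσ⟩ : ∃ σ : B ≃ₐ[L] B, σ ≠ 1 := by
    by_contra hne
    push Not at hne
    have : Subsingleton (B ≃ₐ[L] B) := ⟨fun a b => by rw [hne a, hne b]⟩
    have h3 : Nat.card (B ≃ₐ[L] B) = 1 := Nat.card_of_subsingleton 1
    omega
  have hσs : σ s = -s := (hpm σ).resolve_left fun h => hσ (hgen σ h)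
  have hσσ : ∀ x, σ (σ x) = x := by
    intro x
    have h3 : σ * σ = 1 := by
      apply hgen
      rw [AlgEquiv.mul_apply, hσs, map_neg, hσs, neg_neg]
    have h4 := congrArg (fun f : B ≃ₐ[L] B => f x) h3
    exact h4
  -- the factor
  obtain ⟨c, hc⟩ : ∃ c : L, (v.valuation L D = 1 ∧ v.valuation L c = exp (1 : ℤ)) ∨
      (v.valuation L D = exp (-1 : ℤ) ∧ v.valuation L c = 1) := by
    rcases hD with hD | hD
    · refine ⟨3⁻¹, Or.inl ⟨hD, ?_⟩⟩
      rw [map_inv₀, h3, ← exp_neg, neg_neg]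
    · exact ⟨1, Or.inr ⟨hD, map_one _⟩⟩
  let c0 : B → 𝓞 L := fun x => if h : ∃ a : 𝓞 L, LiP v D c s x a then h.choose else 0
  have hc0 : ∀ x : B, V3 B x → Twi L s x → LiP v D c s x (c0 x) := by
    intro x hx hT
    have h4 : ∃ a : 𝓞 L, LiP v D c s x a := Li_data h2 hs hgen v h3v h3 hσs hσσ hD0 hc hx hT
    have h5 : c0 x = h4.choose := dif_pos h4
    rw [h5]
    exact h4.choose_spec
  refine ⟨fun x => Ideal.Quotient.mk v.asIdeal (c0 x), fun x y hx hy hTx hTy hxy w hw => ?_⟩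
  have hxy' : Ideal.Quotient.mk v.asIdeal (c0 x) = Ideal.Quotient.mk v.asIdeal (c0 y) := hxy
  obtain ⟨z₀, z₁, u, hu, hxz, hz, hzw, hza⟩ := hc0 x hx hTx
  obtain ⟨y₀, y₁, u', hu', hyz, hyn, hyw, hya⟩ := hc0 y hy hTy
  have hdiff : v.valuation L (c * (z₁ - y₁)) < 1 := by
    have h4 : v.valuation L (((c0 x : 𝓞 L) : L) - ((c0 y : 𝓞 L) : L)) < 1 := by
      have h5 : v.valuation L (algebraMap (𝓞 L) L (c0 x - c0 y)) < 1 :=
        (v.valuation_lt_one_iff_mem (K := L) _).2 (Ideal.Quotient.eq.1 hxy')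
      rw [map_sub] at h5
      exact h5
    have h6 : c * (z₁ - y₁) = (c * z₁ - ((c0 x : 𝓞 L) : L)) - (c * y₁ - ((c0 y : 𝓞 L) : L)) +
        (((c0 x : 𝓞 L) : L) - ((c0 y : 𝓞 L) : L)) := by ring
    rw [h6]
    exact Valuation.map_add_lt _ ((Valuation.map_sub _ _ _).trans_lt (max_lt hza hya)) h4
  have hdiff1 : v.valuation L (c * (z₁ - y₁)) ≤ exp (-1 : ℤ) := le_exp_neg_one hdiff
  rw [map_mul] at hdiff1
  obtain ⟨g1, g2⟩ := hzw w hw
  obtain ⟨g3, g4⟩ := hyw w hw
  have hnear : w.valuation B ((algebraMap L B z₀ + algebraMap L B z₁ * s) /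
      (algebraMap L B y₀ + algebraMap L B y₁ * s) - 1) ^ 2 ≤ w.valuation B 27 := by
    rcases hc with ⟨hD1, hcv⟩ | ⟨hD1, hcv⟩
    · have hov : Pool.Agent.H10.Over v w := by
        intro a ha
        rw [← hw] at ha
        exact ha
      have hun := (H86D.unram_two (σ := σ) ⟨hs, hσs, h2, hD0⟩ v w hov h3 hD1).2
      refine z_near (e := 1) one_ne_zero (fun x => by rw [pow_one, hun x]) h3 hs hz hyn g1 g2 g3 g4
        (Or.inl ⟨hD1, rfl, ?_⟩)
      rw [hcv] at hdiff1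
      have h4 : exp (-1 : ℤ) * (exp (1 : ℤ) * v.valuation L (z₁ - y₁)) ≤
          exp (-1 : ℤ) * exp (-1 : ℤ) := mul_le_mul' le_rfl hdiff1
      rw [← mul_assoc, ← exp_add, neg_add_cancel, exp_zero, one_mul, ← exp_add] at h4
      exact h4
    · obtain ⟨e, he, hvW⟩ := Li_up v w hw
      refine z_near he hvW h3 hs hz hyn g1 g2 g3 g4 (Or.inr ⟨hD1, ?_⟩)
      rw [hcv, one_mul] at hdiff1
      exact hdiff1
  refine ⟨u' / u, ?_⟩
  have e1 : x / y * (u' / u) ^ 3 = (algebraMap L B z₀ + algebraMap L B z₁ * s) /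
      (algebraMap L B y₀ + algebraMap L B y₁ * s) := by
    have hy0 : algebraMap L B y₀ + algebraMap L B y₁ * s ≠ 0 := by
      intro h0
      rw [h0, zero_mul] at hyz
      exact hy.1 hyz
    rw [hxz, hyz]
    field_simp
  rw [e1]
  exact hnear

end H55E
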