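import Pool.Agent.H55.TE.Le
import Pool.Agent.H55.TE.Lf
import Pool.Agent.H55.TE.Cl

/-!
Row Lj (about 100 lines): the same over `L` itself.

PROOF. `n := absNorm v ^ 2 - 1 = 3 k + 2` (mod_two). For x with V3 L x: unit_rep for S = {v}: y₀ ≠ 0, `x₁ := x y₀^3`, v x₁ = 1. `z := x₁ ^ (2 n)`: v (z - 1) < 1 (res_two with B = L, finrank L L = 1, `v.asIdeal.under (𝓞 L) = v.asIdeal`; z - 1 = (x₁^n - 1) (x₁^n + 1)), `2 n = 3 (2 k + 1) + 1`, so `x = z u^3` with `u := (y₀ x₁^(2 k + 1))⁻¹`. λ := (z - 1) / 3, v λ ≤ 1 (le_exp_neg_one), `H73IS.int_close v λ`: a; τ x := mk a.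
 τ x = τ y: v (λ - μ) < 1, so v (z - z') = v (3 (λ - μ)) ≤ exp (-2), v z' = 1, so v (z / z' - 1) ≤ exp (-2), square ≤ exp (-4) ≤ exp (-3) = v 27. x / y = (z / z') (u / u')^3, t := u' / u.
-/

set_option autoImplicit false
open scoped Classical

open WeierstrassCurve IsDedekindDomain NumberField WithZero Pool.Agent.H10 Pool.Agent.H11 H55T3

namespace H55E

private theorem Lj_z {L : Type} [Field L] [NumberField L] (v : HeightOneSpectrum (𝓞 L))
    (h3v : (3 : 𝓞 L) ∈ v.asIdeal) (h3 : v.valuation L 3 = exp (-1 : ℤ)) {x : L} (hx : V3 L x) :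
    ∃ (z u : L) (a : 𝓞 L), u ≠ 0 ∧ x = z * u ^ 3 ∧ v.valuation L z = 1 ∧
      v.valuation L ((z - 1) / 3 - a) < 1 := by
  obtain ⟨y, hy0, hy⟩ := unit_rep {v} hx.1 (fun w _ => hx.2 w)
  have hy1 : v.valuation L (x * y ^ 3) = 1 := hy v (Finset.mem_singleton_self v)
  obtain ⟨x₁, hx₁⟩ : ∃ x₁, x₁ = x * y ^ 3 := ⟨_, rfl⟩
  rw [← hx₁] at hy1
  have hx₁0 : x₁ ≠ 0 := by rw [hx₁]; exact mul_ne_zero hx.1 (pow_ne_zero 3 hy0)
  obtain ⟨k, hk⟩ := mod_two v h3v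
  obtain ⟨n, hn⟩ : ∃ n, n = Ideal.absNorm v.asIdeal ^ 2 - 1 := ⟨_, rfl⟩
  rw [← hn] at hk
  have hres : v.valuation L (x₁ ^ n - 1) < 1 := by
    rw [hn]
    refine res_two (L := L) (B := L) ?_ v v ?_ hy1
    · rw [Module.finrank_self]
      norm_num
    · ext a
      rw [Ideal.under_def, Ideal.mem_comap]
      exact Iff.rfl
  have hz1 : v.valuation L (x₁ ^ (2 * n) - 1) < 1 := by
    have e : x₁ ^ (2 * n) - 1 = (x₁ ^ n - 1) * (x₁ ^ n + 1) := by
      rw [two_mul, pow_add]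
      ring
    have h1 : v.valuation L (x₁ ^ n + 1) ≤ 1 := by
      refine (Valuation.map_add _ _ _).trans (max_le ?_ ?_)
      · rw [map_pow, hy1, one_pow]
      · rw [map_one]
    rw [e, map_mul]
    exact mul_lt_one_of_lt_of_le hres h1
  have hlam : v.valuation L ((x₁ ^ (2 * n) - 1) / 3) ≤ 1 := by
    have h1 := le_exp_neg_one hz1
    rw [map_div₀, h3]
    exact div_le_one_of_le₀ h1 zero_le
  obtain ⟨a, ha⟩ := H73IS.int_close v _ hlam
  refine ⟨x₁ ^ (2 * n), (y * x₁ ^ (2 * k + 1))⁻¹, a, ?_, ?_, ?_, ha⟩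
  · exact inv_ne_zero (mul_ne_zero hy0 (pow_ne_zero _ hx₁0))
  · have e : x₁ ^ (2 * n) = x₁ * (x₁ ^ (2 * k + 1)) ^ 3 := by
      rw [← pow_mul, ← pow_succ']
      congr 1
      omega
    rw [e]
    obtain ⟨t, ht⟩ : ∃ t, t = x₁ ^ (2 * k + 1) := ⟨_, rfl⟩
    have ht0 : t ≠ 0 := by rw [ht]; exact pow_ne_zero _ hx₁0
    rw [← ht, hx₁]
    field_simp
  · rw [map_pow, hy1, one_pow]

theorem bad_one {L : Type} [Field L] [NumberField L] (v : HeightOneSpectrum (𝓞 L))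
    (h3v : (3 : 𝓞 L) ∈ v.asIdeal) (h3 : v.valuation L 3 = exp (-1 : ℤ)) :
    ∃ τ : L → 𝓞 L ⧸ v.asIdeal, ∀ x y : L, V3 L x → V3 L y → τ x = τ y → Near v (x / y) := by
  have hex : ∀ x : L, ∃ a : 𝓞 L, V3 L x → ∃ z u : L, u ≠ 0 ∧ x = z * u ^ 3 ∧
      v.valuation L z = 1 ∧ v.valuation L ((z - 1) / 3 - a) < 1 := by
    intro x
    by_cases hx : V3 L x
    · obtain ⟨z, u, a, h⟩ := Lj_z v h3v h3 hx
      exact ⟨a, fun _ => ⟨z, u, h⟩⟩
    · exact ⟨0, fun h => absurd h hx⟩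
  choose A hA using hex
  refine ⟨fun x => Ideal.Quotient.mk v.asIdeal (A x), ?_⟩
  intro x y hx hy hxy
  obtain ⟨z, u, hu, hxz, hz, hza⟩ := hA x hx
  obtain ⟨z', u', hu', hyz, hz', hza'⟩ := hA y hy
  have hab : v.valuation L ((A x : L) - A y) < 1 := by
    have h1 : A x - A y ∈ v.asIdeal := by
      have h2 : Ideal.Quotient.mk v.asIdeal (A x) = Ideal.Quotient.mk v.asIdeal (A y) := hxy
      exact Ideal.Quotient.eq.1 h2
    have h2 := (HeightOneSpectrum.valuation_lt_one_iff_mem (K := L) v _).2 h1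
    simpa using h2
  have h30 : (3 : L) ≠ 0 := by norm_num
  have hz0 : z' ≠ 0 := by
    intro h0
    rw [h0, map_zero] at hz'
    exact zero_ne_one hz'
  have hd : v.valuation L ((z - 1) / 3 - (z' - 1) / 3) < 1 := by
    have e : (z - 1) / 3 - (z' - 1) / 3 =
        ((z - 1) / 3 - A x) + ((A x : L) - A y) - ((z' - 1) / 3 - A y) := by ring
    rw [e]
    refine (Valuation.map_sub _ _ _).trans_lt (max_lt ?_ hza')
    exact (Valuation.map_add _ _ _).trans_lt (max_lt hza hab)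
  have hzz : v.valuation L (z - z') ≤ exp (-2 : ℤ) := by
    have e : z - z' = 3 * ((z - 1) / 3 - (z' - 1) / 3) := by
      field_simp
      ring
    rw [e, map_mul, h3]
    refine (mul_le_mul_right (le_exp_neg_one hd) _).trans ?_
    rw [← exp_add, exp_le_exp]
    norm_num
  refine ⟨u' / u, ?_⟩
  have e : x / y * (u' / u) ^ 3 - 1 = (z - z') / z' := by
    rw [hxz, hyz]
    field_simp
  rw [e, map_div₀, hz', div_one]
  have e27 : (27 : L) = 3 ^ 3 := by norm_num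
  rw [e27, map_pow, h3, ← exp_nsmul]
  refine (pow_le_pow_left' hzz 2).trans ?_
  rw [← exp_nsmul, exp_le_exp]
  norm_num

end H55E
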