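import Pool.Agent.H55.TE.Df

/-!
Row Na (about 50 lines): norms of the places above a finite set of places. Model: `norm_le_fin3` in Pool/Agent/H86/T3G/Nrf3.lean.

PROOF. `J := (∏ v ∈ S, v.asIdeal).map (algebraMap (𝓞 k) (𝓞 L))`, `Ideal.absNorm J = (∏ v ∈ S, Ideal.absNorm v.asIdeal) ^ finrank k L` (Ideal.absNorm_algebraMap and IsFractionRing.finrank_eq as in norm_le_fin3). `∏ w ∈ S', w.asIdeal` divides J: it divides if every factor does and they are distinct primes (pairwise coprime): Finset.prod_dvd_of_coprime, w.asIdeal ∣ J as J ≤ v.map ≤ w.asIdeal (v ∈ S below w; `J ≤ v.asIdeal.map` as `∏ ≤ v`: Ideal.prod_le_inf or Finset.dvd_prod_of_mem).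
 Then absNorm divides absNorm (map_dvd Ideal.absNorm), map_prod, Nat.le_of_dvd (positive: absNorm v ≠ 0 as v ≠ ⊥).
-/

set_option autoImplicit false
open scoped Classical

open WeierstrassCurve IsDedekindDomain NumberField WithZero Pool.Agent.H10 Pool.Agent.H11 H55T3

namespace H55E

theorem norm_above {k L : Type} [Field k] [NumberField k] [Field L] [NumberField L] [Algebra k L]
    (S : Finset (HeightOneSpectrum (𝓞 k))) (S' : Finset (HeightOneSpectrum (𝓞 L)))
    (h : ∀ w ∈ S', ∃ v ∈ S, v.asIdeal = w.asIdeal.under (𝓞 k)) :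
    ∏ w ∈ S', Ideal.absNorm w.asIdeal ≤
      (∏ v ∈ S, Ideal.absNorm v.asIdeal) ^ Module.finrank k L := by
  have hfr : Module.finrank (𝓞 k) (𝓞 L) = Module.finrank k L :=
    (IsFractionRing.finrank_eq (𝓞 k) k (𝓞 L) L).symm
  have hJn : Ideal.absNorm ((∏ v ∈ S, v.asIdeal).map (algebraMap (𝓞 k) (𝓞 L))) =
      (∏ v ∈ S, Ideal.absNorm v.asIdeal) ^ Module.finrank k L := by
    rw [Ideal.absNorm_algebraMap, hfr, map_prod]
  have hdvd : ∏ w ∈ S', w.asIdeal ∣ (∏ v ∈ S, v.asIdeal).map (algebraMap (𝓞 k) (𝓞 L)) := by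
    apply Finset.prod_dvd_of_isRelPrime
    · intro w _ w' _ hne
      have hm : w.asIdeal.IsMaximal := w.isMaximal
      have hm' : w'.asIdeal.IsMaximal := w'.isMaximal
      have : IsCoprime w.asIdeal w'.asIdeal := by
        rw [Ideal.isCoprime_iff_sup_eq]
        exact hm.coprime_of_ne hm' (fun h => hne (HeightOneSpectrum.ext h))
      exact this.isRelPrime
    · intro w hw
      obtain ⟨v, hv, hvw⟩ := h w hw
      rw [Ideal.dvd_iff_le, Ideal.map_le_iff_le_comap]
      have h1 : ∏ v ∈ S, v.asIdeal ≤ v.asIdeal := Ideal.dvd_iff_le.mp (Finset.dvd_prod_of_mem _ hv)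
      rw [hvw] at h1
      exact h1
  have hn := map_dvd Ideal.absNorm hdvd
  rw [map_prod, hJn] at hn
  refine Nat.le_of_dvd (pow_pos (Finset.prod_pos fun v _ => ?_) _) hn
  refine Nat.pos_of_ne_zero fun h0 => v.ne_bot ?_
  exact Ideal.absNorm_eq_zero_iff.1 h0

end H55E
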