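import Pool.Agent.H55.TE.Lb
import Pool.Agent.H55.TE.Ld

/-!
Row Pt (about 130 lines): the classes at a good place above three, and the valuations at the other places. Model: the proof of `H11L.arithO` (Pool/Agent/H11/T3L/Lo.lean): the part `hg'` and the part `the places above three`.

PROOF. val_real: copy `hg'` of arithO (`vg` from Pool/Agent/H55/T3, with hιint). typ_two: `val_up W` gives w', e with `w'.asIdeal = W.asIdeal.under (𝓞 L) = w.asIdeal`, so w' = w (HeightOneSpectrum.ext), `w.valuation L x ^ e = W.valuation B (algebraMap L B x)`. (3 : 𝓞 L) ∈ w.asIdeal, h3 := hunr w. Case v D = 1: `val_three_O`, e = 1, `typ_unr` (Lb) with g1, g2, g3 transported as in arithO.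
 Case v D = exp (-1): D ≠ 0, `Lo_dec` gives hB, `typ_ram` (Ld). In both cases use only one of FinSol3 (at W: `H W`), FinM.
-/

set_option autoImplicit false
open scoped Classical

open WeierstrassCurve IsDedekindDomain NumberField WithZero Pool.Agent.H10 Pool.Agent.H11 H55T3

namespace H55E

theorem val_real {K B : Type} [Field K] [NumberField K] [Field B] [NumberField B] [Algebra K B]
    {D α β : 𝓞 K} {s : B} (hs : s ^ 2 = algebraMap K B (D : K)) (W : HeightOneSpectrum (𝓞 B))
    (hW : algebraMap (𝓞 K) (𝓞 B) (2 * D * β) ∉ W.asIdeal) {d : B} (hd : d ≠ 0)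
    (H : LocSol (algebraMap B (W.adicCompletion B) s)
      (algebraMap B (W.adicCompletion B) (algebraMap K B ((α : K) / 3)))
      (algebraMap B (W.adicCompletion B) (algebraMap K B (β : K)))
      (algebraMap B (W.adicCompletion B) d)) : (3 : ℤ) ∣ log (W.valuation B d) := by
  have h3K : (3 : K) ≠ 0 := by norm_num
  have hιint : ∀ z : 𝓞 K, algebraMap K B (z : K) =
      algebraMap (𝓞 B) B (algebraMap (𝓞 K) (𝓞 B) z) := by
    intro z
    rw [← IsScalarTower.algebraMap_apply (𝓞 K) (𝓞 B) B, ← IsScalarTower.algebraMap_apply (𝓞 K) K B]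
  have hDn : algebraMap (𝓞 K) (𝓞 B) D ∉ W.asIdeal := by
    intro h
    apply hW
    have e : (2 * D * β : 𝓞 K) = (2 * β) * D := by ring
    rw [e, map_mul]
    exact Ideal.mul_mem_left _ _ h
  have h2n : algebraMap (𝓞 K) (𝓞 B) (2 * β) ∉ W.asIdeal := by
    intro h
    apply hW
    have e : (2 * D * β : 𝓞 K) = D * (2 * β) := by ring
    rw [e, map_mul]
    exact Ideal.mul_mem_left _ _ h
  rw [← valued_algebraMap W d]
  refine vg (V := Valued.v) ?_ ?_ ?_ ?_ H
  · rw [valued_algebraMap]
    apply H11L.Lo_sq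
    rw [← map_pow, hs]
    rw [hιint]
    exact (W.valuation_eq_one_iff_notMem (K := B)).2 hDn
  · have e0 : (6 : K) * ((α : K) / 3) = 2 * (α : K) := by
      have h6 : (6 : K) = 2 * 3 := by norm_num
      rw [h6, mul_assoc, mul_div_cancel₀ _ h3K]
    have e : (6 : W.adicCompletion B) * algebraMap B (W.adicCompletion B)
        (algebraMap K B ((α : K) / 3)) =
        algebraMap B (W.adicCompletion B) (algebraMap (𝓞 B) B
          (algebraMap (𝓞 K) (𝓞 B) (2 * α))) := by
      have e1 : (6 : W.adicCompletion B) * algebraMap B (W.adicCompletion B)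
        (algebraMap K B ((α : K) / 3)) = algebraMap B (W.adicCompletion B)
        (algebraMap K B (6 * ((α : K) / 3))) := by
        rw [map_mul (algebraMap K B), map_mul (algebraMap B (W.adicCompletion B)),
          map_ofNat, map_ofNat]
      rw [e1, e0, ← hιint]
      simp only [map_mul, map_ofNat]
    rw [e, valued_algebraMap]
    exact W.valuation_le_one _
  · have e : (2 : W.adicCompletion B) * algebraMap B (W.adicCompletion B)
        (algebraMap K B (β : K)) =
        algebraMap B (W.adicCompletion B) (algebraMap (𝓞 B) B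
          (algebraMap (𝓞 K) (𝓞 B) (2 * β))) := by
      rw [← hιint]
      simp only [map_mul, map_ofNat]
    rw [e, valued_algebraMap]
    exact (W.valuation_eq_one_iff_notMem (K := B)).2 h2n
  · exact (map_ne_zero_iff _ (algebraMap B (W.adicCompletion B)).injective).2 hd

theorem typ_two {K L B : Type} [Field K] [NumberField K] [Field L] [NumberField L] [Field B]
    [NumberField B] [Algebra K L] [Algebra L B] [Algebra K B] [IsScalarTower K L B]
    [IsGalois L B] {D α β : 𝓞 K} {s : B} (hs : s ^ 2 = algebraMap K B (D : K))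
    (h2 : Module.finrank L B = 2) (hgen : ∀ g : B ≃ₐ[L] B, g s = s → g = 1)
    (hunr : ∀ w : HeightOneSpectrum (𝓞 L), (3 : 𝓞 L) ∈ w.asIdeal →
      w.valuation L 3 = exp (-1 : ℤ))
    (W : HeightOneSpectrum (𝓞 B)) (hW : (3 : 𝓞 B) ∈ W.asIdeal) (w : HeightOneSpectrum (𝓞 L))
    (hwW : W.asIdeal.under (𝓞 L) = w.asIdeal)
    (hg : GoodVO (w.valuation L) (algebraMap K L (D : K)) (algebraMap K L (α : K))
      (algebraMap K L (β : K))) :
    ∃ τ : B → Fin 5, ∀ d d' : B, d ≠ 0 → d' ≠ 0 →
      FinSol3 B s (algebraMap K B ((α : K) / 3)) (algebraMap K B (β : K)) d →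
      FinSol3 B s (algebraMap K B ((α : K) / 3)) (algebraMap K B (β : K)) d' →
      FinM s (algebraMap K L (D : K)) (algebraMap K L ((α : K) / 3)) (algebraMap K L (β : K)) d →
      FinM s (algebraMap K L (D : K)) (algebraMap K L ((α : K) / 3)) (algebraMap K L (β : K)) d' →
      τ d = τ d' → Near W (d / d') := by
  have hιint : ∀ z : 𝓞 K, algebraMap K B (z : K) =
      algebraMap (𝓞 B) B (algebraMap (𝓞 K) (𝓞 B) z) := by
    intro z
    rw [← IsScalarTower.algebraMap_apply (𝓞 K) (𝓞 B) B, ← IsScalarTower.algebraMap_apply (𝓞 K) K B]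
  have hsc : ∀ z : K, algebraMap L B (algebraMap K L z) = algebraMap K B z := fun z =>
    (IsScalarTower.algebraMap_apply K L B z).symm
  obtain ⟨w', e, hw', he, hval⟩ := H11L.val_up (L := L) W
  have hww : w' = w := HeightOneSpectrum.ext (hw'.trans hwW)
  rw [hww] at hval
  have h3w : (3 : 𝓞 L) ∈ w.asIdeal := by
    rw [← hwW]
    change algebraMap (𝓞 L) (𝓞 B) 3 ∈ W.asIdeal
    rwa [map_ofNat]
  have h3v := hunr w h3w
  have hWw : W.valuation B (algebraMap K B (D : K)) =
      w.valuation L (algebraMap K L (D : K)) ^ e := by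
    rw [← hsc, hval]
  rcases hg with ⟨h3D, i, g1, g2, g3⟩ | ⟨h3D, i, g1, g2, g3⟩
  · have hWD : W.valuation B (algebraMap K B (D : K)) = 1 := by rw [hWw, h3D, one_pow]
    have hWD2 : algebraMap (𝓞 K) (𝓞 B) D ∉ W.asIdeal := by
      rw [hιint] at hWD
      exact (W.valuation_eq_one_iff_notMem (K := B)).1 hWD
    have hW3 := H11L.val_three_O hs hgen hunr W hWD2 hW
    have he1 : e = 1 := by
      have h5 := hval 3
      rw [h3v, map_ofNat, hW3, ← exp_nsmul, exp_inj] at h5
      simp only [nsmul_eq_mul] at h5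
      omega
    have hwW' : ∀ z : K, W.valuation B (algebraMap K B z) =
        w.valuation L (algebraMap K L z) := by
      intro z
      rw [← hsc, ← hval, he1, pow_one]
    obtain ⟨τ, hτ⟩ := typ_unr hs (α := (α : K)) (β := (β : K)) W hWD hW3 (i := i)
      (by rw [hwW']; exact g1)
      (by
        rw [hwW']
        have e1 : algebraMap K L (27 * (β : K) - 4 * (D : K) * (α : K) ^ 3) =
            27 * algebraMap K L (β : K) - 4 * algebraMap K L (D : K) * algebraMap K L (α : K) ^ 3 := by
          simp only [map_sub, map_mul, map_pow, map_ofNat]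
        rw [e1]
        exact g2)
      (by rw [hwW']; exact g3)
    exact ⟨τ, fun d d' hd hd' H H' _ _ h => hτ d d' hd hd' (H W) (H' W) h⟩
  · have hD0 : algebraMap K L (D : K) ≠ 0 := by
      intro h0
      rw [h0, map_zero] at h3D
      exact exp_ne_zero h3D.symm
    obtain ⟨τ, hτ⟩ := typ_ram hs (α := (α : K)) (β := (β : K)) W w he hval h3v h3D (i := i) g1 g2
      g3 (fun d => H11L.Lo_dec hD0 (by rw [hs, IsScalarTower.algebraMap_apply K L B]) h2 hgen d)
    exact ⟨τ, fun d d' hd hd' _ _ H H' h => hτ d d' hd hd' H H' h⟩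

/-- The case `s ∈ L`. -/
theorem typ_one {K L : Type} [Field K] [NumberField K] [Field L] [NumberField L] [Algebra K L]
    {D α β : 𝓞 K} {s : L} (hs : s ^ 2 = algebraMap K L (D : K)) (w : HeightOneSpectrum (𝓞 L))
    (h3 : w.valuation L 3 = exp (-1 : ℤ))
    (hg : GoodVO (w.valuation L) (algebraMap K L (D : K)) (algebraMap K L (α : K))
      (algebraMap K L (β : K))) :
    ∃ τ : L → Fin 5, ∀ d d' : L, d ≠ 0 → d' ≠ 0 →
      FinSol3 L s (algebraMap K L ((α : K) / 3)) (algebraMap K L (β : K)) d →
      FinSol3 L s (algebraMap K L ((α : K) / 3)) (algebraMap K L (β : K)) d' →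
      τ d = τ d' → Near w (d / d') := by
  rcases hg with ⟨h3D, i, g1, g2, g3⟩ | ⟨h3D, i, g1, g2, g3⟩
  · obtain ⟨τ, hτ⟩ := typ_unr hs (α := (α : K)) (β := (β : K)) w h3D h3 (i := i) g1
      (by
        have e1 : algebraMap K L (27 * (β : K) - 4 * (D : K) * (α : K) ^ 3) =
            27 * algebraMap K L (β : K) - 4 * algebraMap K L (D : K) * algebraMap K L (α : K) ^ 3 := by
          simp only [map_sub, map_mul, map_pow, map_ofNat]
        rw [e1]
        exact g2) g3
    exact ⟨τ, fun d d' hd hd' H H' h => hτ d d' hd hd' (H w) (H' w) h⟩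
  · exfalso
    rw [← hs, map_pow] at h3D
    have h6 := congrArg WithZero.log h3D
    rw [WithZero.log_pow, WithZero.log_exp, nsmul_eq_mul] at h6
    push_cast at h6
    omega

end H55E
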