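import Pool.Agent.H55.TE.Dg
import Pool.Agent.H55.TE.Ba
import Pool.Agent.H55.TE.Pt

/-!
Row P1 (about 110 lines): the first step on the real side.

PROOF. bad_count (h2.le, hm0, hbad): SB with card ≤ 2 * nB K m (nB unfolds to the ncard) which contains all places of B above m. For W let `good W := (3 : 𝓞 B) ∈ W.asIdeal ∧ ∀ w ∈ S, W.asIdeal.under (𝓞 L) ≠ w.asIdeal`. If good W: the place w below W (H11L.val_up) contains 3 and is not in S, so GoodVO (hS) and typ_two gives τ_W; otherwise τ_W := 0.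
 ι := SB → ZMod 3 × Fin 5, τ d := fun W => ((log (W.valuation B d) : ZMod 3), τ_W d). cov_map, Nat.card ι = 15 ^ SB.card ≤ 15 ^ (2 * nB K m) (Cov.mono).
 d, d' ∈ DR with τ d = τ d': V3 (d / d'): log (W (d / d')) = log (W d) - log (W d') (map_div₀, log_div). If W ∈ SB it is divisible by three (ZMod.intCast_eq_intCast_iff_dvd_sub / ZMod.intCast_zmod_eq_zero). If W ∉ SB then m ∉ W, so `algebraMap (2 D β) ∉ W` (m = (3 γ y) (2 D β)), so both logs are divisible by three (val_real). Twisted: twi_div.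
 Near at W with 3 ∈ W and `∀ w ∈ S, ...`: m ∈ W (3 divides m in 𝓞 K), so W ∈ SB and τ_W d = τ_W d'.
-/

set_option autoImplicit false
open scoped Classical

open WeierstrassCurve IsDedekindDomain NumberField WithZero Pool.Agent.H10 Pool.Agent.H11 H55T3

namespace H55E

theorem step_one {K L B : Type} [Field K] [NumberField K] [Field L] [NumberField L] [Field B]
    [NumberField B] [Algebra K L] [Algebra L B] [Algebra K B] [IsScalarTower K L B]
    [IsGalois L B] {D α β : 𝓞 K} {s : B} (hs : s ^ 2 = algebraMap K B (D : K))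
    (h2 : Module.finrank L B = 2) (hgen : ∀ g : B ≃ₐ[L] B, g s = s → g = 1)
    (hunr : ∀ w : HeightOneSpectrum (𝓞 L), (3 : 𝓞 L) ∈ w.asIdeal →
      w.valuation L 3 = exp (-1 : ℤ)) {m : ℤ} (hm0 : m ≠ 0)
    (hm : ∃ y : 𝓞 K, (m : 𝓞 K) = 6 * D * β * (27 * β - 4 * D * α ^ 3) * y)
    (hbad : ∀ v : HeightOneSpectrum (𝓞 K), (m : 𝓞 K) ∈ v.asIdeal → UniqueOver K L v.asIdeal)
    (S : Finset (HeightOneSpectrum (𝓞 L)))
    (hS : ∀ w : HeightOneSpectrum (𝓞 L), (3 : 𝓞 L) ∈ w.asIdeal → w ∉ S →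
      GoodVO (w.valuation L) (algebraMap K L (D : K)) (algebraMap K L (α : K))
        (algebraMap K L (β : K))) :
    Cov (DR K L s D α β) (HR L s (fun W => ∀ w ∈ S, W.asIdeal.under (𝓞 L) ≠ w.asIdeal))
      (15 ^ (2 * nB K m)) := by
  obtain ⟨SB, hSB, hSB1⟩ := bad_count (K := K) (L := L) (B := B) h2.le hm0 hbad
  obtain ⟨y, hy⟩ := hm
  have hmB : (m : 𝓞 B) = algebraMap (𝓞 K) (𝓞 B)
      (6 * D * β * (27 * β - 4 * D * α ^ 3) * y) := by
    rw [← hy, map_intCast]
  have htau : ∀ W : HeightOneSpectrum (𝓞 B), ∃ τ : B → Fin 5,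
      ((3 : 𝓞 B) ∈ W.asIdeal → (∀ w ∈ S, W.asIdeal.under (𝓞 L) ≠ w.asIdeal) →
      ∀ d ∈ DR K L s D α β, ∀ d' ∈ DR K L s D α β, τ d = τ d' → Near W (d / d')) := by
    intro W
    by_cases hgood : (3 : 𝓞 B) ∈ W.asIdeal ∧ ∀ w ∈ S, W.asIdeal.under (𝓞 L) ≠ w.asIdeal
    · obtain ⟨hW, hWS⟩ := hgood
      obtain ⟨w, e, hw, -, -⟩ := H11L.val_up (L := L) W
      have hw3 : (3 : 𝓞 L) ∈ w.asIdeal := by
        rw [hw, Ideal.under, Ideal.mem_comap, map_ofNat]
        exact hW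
      have hwS : w ∉ S := fun h => hWS w h hw.symm
      obtain ⟨τ, hτ⟩ := typ_two hs h2 hgen hunr W hW w hw.symm (hS w hw3 hwS)
      exact ⟨τ, fun _ _ d hd d' hd' h => hτ d d' hd.1 hd'.1 hd.2.1 hd'.2.1 hd.2.2.1 hd'.2.2.1 h⟩
    · exact ⟨fun _ => 0, fun h h' => absurd ⟨h, h'⟩ hgood⟩
  choose τ hτ using htau
  have hcov := cov_map (S := DR K L s D α β)
    (H := HR L s (fun W => ∀ w ∈ S, W.asIdeal.under (𝓞 L) ≠ w.asIdeal))
    (ι := SB → ZMod 3 × Fin 5)
    (fun d W => (((log ((W : HeightOneSpectrum (𝓞 B)).valuation B d) : ℤ) : ZMod 3), τ W d)) ?_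
  · refine hcov.mono ?_
    rw [Nat.card_pi, Finset.prod_const, Nat.card_prod, Nat.card_eq_fintype_card,
      Nat.card_eq_fintype_card, ZMod.card, Fintype.card_fin, Finset.card_univ, Fintype.card_coe]
    exact Nat.pow_le_pow_right (by norm_num) hSB
  · intro d hd d' hd' hdd
    have hcoord : ∀ W ∈ SB, (((log (W.valuation B d) : ℤ) : ZMod 3) =
        ((log (W.valuation B d') : ℤ) : ZMod 3)) ∧
        τ W d = τ W d' := by
      intro W hW
      have h1 := congrFun hdd ⟨W, hW⟩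
      exact ⟨congrArg Prod.fst h1, congrArg Prod.snd h1⟩
    refine ⟨⟨div_ne_zero hd.1 hd'.1, fun W => ?_⟩, twi_div hd.2.2.2 hd'.2.2.2, ?_⟩
    · rw [map_div₀, log_div ((Valuation.ne_zero_iff _).mpr hd.1)
        ((Valuation.ne_zero_iff _).mpr hd'.1)]
      by_cases hW : W ∈ SB
      · have h1 := (hcoord W hW).1
        rw [ZMod.intCast_eq_intCast_iff_dvd_sub] at h1
        have h2 : (3 : ℤ) ∣ log (W.valuation B d') - log (W.valuation B d) := by exact_mod_cast h1
        rw [← dvd_neg, neg_sub]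
        exact h2
      · have hmW : (m : 𝓞 B) ∉ W.asIdeal := fun h => hW (hSB1 W h)
        have h2W : algebraMap (𝓞 K) (𝓞 B) (2 * D * β) ∉ W.asIdeal := by
          intro h
          apply hmW
          have e : 6 * D * β * (27 * β - 4 * D * α ^ 3) * y =
              (3 * (27 * β - 4 * D * α ^ 3) * y) * (2 * D * β) := by ring
          rw [hmB, e, map_mul]
          exact Ideal.mul_mem_left _ _ h
        exact dvd_sub (val_real hs W h2W hd.1 (hd.2.1 W)) (val_real hs W h2W hd'.1 (hd'.2.1 W))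
    · intro W hW hWS
      have hmW : (m : 𝓞 B) ∈ W.asIdeal := by
        have e : 6 * D * β * (27 * β - 4 * D * α ^ 3) * y =
            (2 * D * β * (27 * β - 4 * D * α ^ 3) * y) * 3 := by ring
        rw [hmB, e, map_mul, map_ofNat]
        exact Ideal.mul_mem_left _ _ hW
      exact hτ W hW hWS d hd d' hd' (hcoord W (hSB1 W hmW)).2

end H55E
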