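import Pool.Agent.H55.TE.Df

/-!
Row Ya (about 80 lines): the norm of an element with valuations divisible by three.

PROOF. Norm.ne_zero. Let `v` be a place of F, `Q` a prime of `𝓞 C` above `v` (Ideal.exists_ideal_liesOver_maximal_of_isIntegral or Ideal.exists_ideal_over_prime_of_isIntegral_of_isPrime, as in `unique_of_fix`, Pool/Agent/H55/T3/S4.lean), W the place of C. `H11L.Lf_card` (Pool/Agent/H11/T3L/Lf.lean): the cardinal of the inertia group of W in `C ≃ₐ[F] C` is the ramification index e, so e divides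
 `Nat.card (C ≃ₐ[F] C) = finrank F C` (Subgroup.card_subgroup_dvd_card, IsGalois.card_aut_eq_finrank) and `¬ 3 ∣ e`. `W.valuation C (algebraMap F C x) = v.valuation F x ^ e` (HeightOneSpectrum.valuation_liesOver C v W x).
 `algebraMap F C (norm e) = ∏ g, g e` (Algebra.norm_eq_prod_automorphisms). Each `W.valuation C (g e) = W'.valuation C e` for a place W' (exists_conj, Pool/Agent/H10/StarGal.lean), so `3 ∣ log (W (g e))`, so 3 divides the log of the product (log of a product of nonzero elements is the sum: Finset.induction, WithZero.log_mul), which is `e * log (v (norm e))` (log_pow). 3 is prime and `¬ 3 ∣ e`.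
-/

set_option autoImplicit false
open scoped Classical

open WeierstrassCurve IsDedekindDomain NumberField WithZero Pool.Agent.H10 Pool.Agent.H11 H55T3

namespace H55E

theorem Ya_log {C : Type} [Field C] [NumberField C] (W : HeightOneSpectrum (𝓞 C)) {ι : Type*}
    (S : Finset ι) (f : ι → C) (h0 : ∀ i ∈ S, f i ≠ 0)
    (h : ∀ i ∈ S, (3 : ℤ) ∣ log (W.valuation C (f i))) :
    (3 : ℤ) ∣ log (W.valuation C (∏ i ∈ S, f i)) := by
  induction S using Finset.induction_on with
  | empty =>
    rw [Finset.prod_empty, map_one, log_one]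
    exact dvd_zero _
  | insert a S ha ih =>
    rw [Finset.prod_insert ha, map_mul, log_mul]
    · exact dvd_add (h a (Finset.mem_insert_self _ _))
        (ih (fun i hi => h0 i (Finset.mem_insert_of_mem hi))
          (fun i hi => h i (Finset.mem_insert_of_mem hi)))
    · exact (Valuation.ne_zero_iff _).2 (h0 a (Finset.mem_insert_self _ _))
    · exact (Valuation.ne_zero_iff _).2
        (Finset.prod_ne_zero_iff.2 fun i hi => h0 i (Finset.mem_insert_of_mem hi))

theorem v3_norm {F C : Type} [Field F] [NumberField F] [Field C] [NumberField C] [Algebra F C]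
    [IsGalois F C] (h3 : ¬ 3 ∣ Module.finrank F C) {e : C} (he : V3 C e) :
    V3 F (Algebra.norm F e) := by
  have hfd : FiniteDimensional F C := Module.Finite.of_restrictScalars_finite ℚ F C
  refine ⟨Algebra.norm_ne_zero_iff.2 he.1, fun v => ?_⟩
  obtain ⟨Q, hQm, hQ⟩ := Ideal.exists_maximal_ideal_liesOver_of_isIntegral v.asIdeal (S := 𝓞 C)
  have hQb : Q ≠ ⊥ := Ideal.ne_bot_of_liesOver_of_ne_bot v.ne_bot Q
  obtain ⟨W, hW⟩ : ∃ W : HeightOneSpectrum (𝓞 C), W.asIdeal = Q := ⟨⟨Q, hQm.isPrime, hQb⟩, rfl⟩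
  have hlo : W.asIdeal.LiesOver v.asIdeal := by rw [hW]; exact hQ
  have hval := HeightOneSpectrum.valuation_liesOver C v W (Algebra.norm F e)
  have hcard := H11L.Lf_card (N := C) v W
  obtain ⟨m, hm⟩ : ∃ m, m = v.asIdeal.ramificationIdx' W.asIdeal := ⟨_, rfl⟩
  rw [← hm] at hval hcard
  have hm3 : ¬ 3 ∣ m := by
    intro h
    apply h3
    rw [← IsGalois.card_aut_eq_finrank F C]
    refine h.trans ?_
    rw [← hcard]
    exact Subgroup.card_subgroup_dvd_card _
  rw [Algebra.norm_eq_prod_automorphisms] at hval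
  have h1 : (3 : ℤ) ∣ log (W.valuation C (∏ σ : C ≃ₐ[F] C, σ e)) := by
    refine Ya_log W _ _ (fun σ _ => ?_) (fun σ _ => ?_)
    · exact (map_ne_zero_iff σ σ.injective).2 he.1
    · obtain ⟨W', h2, -⟩ := exists_conj σ W
      rw [h2]
      exact he.2 W'
  rw [← hval, log_pow, nsmul_eq_mul] at h1
  rcases Int.prime_three.dvd_or_dvd h1 with h2 | h2
  · exact absurd (by exact_mod_cast h2) hm3
  · exact h2

end H55E
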