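import Pool.Agent.H55.TE.P1
import Pool.Agent.H55.TE.Li
import Pool.Agent.H55.TE.Ya

/-!
Row P2 (about 110 lines): the number of the classes on the real side.

PROOF. P := fun W => ∀ w ∈ S, W.asIdeal.under (𝓞 L) ≠ w.asIdeal. Step 1: step_one. Step 2: Cov (HR L s P) (HR L s (fun _ => True)) (∏ w ∈ S, absNorm w.asIdeal): for w ∈ S bad_two (h2, hs as `s ^ 2 = algebraMap L B (algebraMap K L D)`, hgen, w, hS3, hunr, hD) gives τ_w : B → 𝓞 L ⧸ w.asIdeal. cov_map with ι := (w : S) → 𝓞 L ⧸ w.1.asIdeal (finite: Ring.HasFiniteQuotients.finiteQuotient w.ne_bot), τ x := fun w => τ_w x,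
 Nat.card ι = ∏ w ∈ S, absNorm (Nat.card_pi, Finset.prod_coe_sort, Ideal.absNorm_apply / Submodule.cardQuot_apply or rfl). Equal τ: V3 and Twi of x / y: v3_div, twi_div; Near at W ∋ 3: if P W then near_div, else `W.asIdeal.under (𝓞 L) = w.asIdeal` with w ∈ S and the property of τ_w.
 Step 3: Cov (HR L s (fun _ => True)) (Cu B) n: cov_cls (Cl.lean) with N := Algebra.norm F: v3_norm, hr_div, `norm (x / y) = norm x / norm y` (map_mul and norm y ≠ 0, Algebra.norm_ne_zero_iff), R applied to x (V3.1, Twi, V3.2, Near). Then cov_trans twice (nonzero: V3.1; hd: hr_div, cu_div).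
-/

set_option autoImplicit false
open scoped Classical

open WeierstrassCurve IsDedekindDomain NumberField WithZero Pool.Agent.H10 Pool.Agent.H11 H55T3

namespace H55E

theorem cov_real_two {K L B F : Type} [Field K] [NumberField K] [Field L] [NumberField L]
    [Field B] [NumberField B] [Field F] [NumberField F] [Algebra K L] [Algebra L B] [Algebra K B]
    [IsScalarTower K L B] [Algebra F B] [IsGalois F B] [IsGalois L B]
    (h3F : ¬ 3 ∣ Module.finrank F B) {D α β : 𝓞 K} {s : B} (hs : s ^ 2 = algebraMap K B (D : K))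
    (h2 : Module.finrank L B = 2) (hgen : ∀ g : B ≃ₐ[L] B, g s = s → g = 1)
    (R : NoNewCubeM L F B s) {n : ℕ} (hF : IsCls F n)
    (hunr : ∀ w : HeightOneSpectrum (𝓞 L), (3 : 𝓞 L) ∈ w.asIdeal →
      w.valuation L 3 = exp (-1 : ℤ)) {m : ℤ} (hm0 : m ≠ 0)
    (hm : ∃ y : 𝓞 K, (m : 𝓞 K) = 6 * D * β * (27 * β - 4 * D * α ^ 3) * y)
    (hbad : ∀ v : HeightOneSpectrum (𝓞 K), (m : 𝓞 K) ∈ v.asIdeal → UniqueOver K L v.asIdeal)
    (S : Finset (HeightOneSpectrum (𝓞 L))) (hS3 : ∀ w ∈ S, (3 : 𝓞 L) ∈ w.asIdeal)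
    (hSD : ∀ w ∈ S, w.valuation L (algebraMap K L (D : K)) = 1 ∨
      w.valuation L (algebraMap K L (D : K)) = exp (-1 : ℤ))
    (hS : ∀ w : HeightOneSpectrum (𝓞 L), (3 : 𝓞 L) ∈ w.asIdeal → w ∉ S →
      GoodVO (w.valuation L) (algebraMap K L (D : K)) (algebraMap K L (α : K))
        (algebraMap K L (β : K))) :
    Cov (DR K L s D α β) (Cu B)
      (15 ^ (2 * nB K m) * ((∏ w ∈ S, Ideal.absNorm w.asIdeal) * n)) := by
  have step1 := step_one hs h2 hgen hunr hm0 hm hbad S hS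
  have hfinq : ∀ w : HeightOneSpectrum (𝓞 L), Finite (𝓞 L ⧸ w.asIdeal) := fun w =>
    Ring.HasFiniteQuotients.finiteQuotient w.ne_bot
  have step2 : Cov (HR L s (fun W => ∀ w ∈ S, W.asIdeal.under (𝓞 L) ≠ w.asIdeal))
      (HR L s (fun _ => True)) (∏ w ∈ S, Ideal.absNorm w.asIdeal) := by
    have hex : ∀ w : S, ∃ τ : B → 𝓞 L ⧸ w.1.asIdeal, ∀ x y : B, V3 B x → V3 B y → Twi L s x →
        Twi L s y → τ x = τ y → ∀ W : HeightOneSpectrum (𝓞 B),
        W.asIdeal.under (𝓞 L) = w.1.asIdeal → Near W (x / y) := fun w =>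
      bad_two h2 (by rw [hs, IsScalarTower.algebraMap_apply K L B]) hgen w.1 (hS3 w.1 w.2)
        (hunr w.1 (hS3 w.1 w.2)) (hSD w.1 w.2)
    choose τ hτ using hex
    have h := cov_map (S := HR L s (fun W => ∀ w ∈ S, W.asIdeal.under (𝓞 L) ≠ w.asIdeal))
      (H := HR L s (fun _ => True)) (ι := (w : S) → 𝓞 L ⧸ w.1.asIdeal) (fun x w => τ w x) (by
      intro x hx y hy hxy
      refine ⟨v3_div hx.1 hy.1, twi_div hx.2.1 hy.2.1, fun W hW _ => ?_⟩
      by_cases hP : ∀ w ∈ S, W.asIdeal.under (𝓞 L) ≠ w.asIdeal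
      · exact near_div hW (hx.2.2 W hW hP) (hy.2.2 W hW hP)
      · push Not at hP
        obtain ⟨w, hw, hWw⟩ := hP
        exact hτ ⟨w, hw⟩ x y hx.1 hy.1 hx.2.1 hy.2.1 (congrFun hxy ⟨w, hw⟩) W hWw)
    refine h.mono (le_of_eq ?_)
    rw [Nat.card_pi, ← Finset.prod_coe_sort S (fun w => Ideal.absNorm w.asIdeal)]
    rfl
  have step3 : Cov (HR L s (fun _ => True)) (Cu B) n := by
    refine cov_cls hF (fun x => Algebra.norm F x) (fun x hx => v3_norm h3F hx.1)
      (fun x hx y hy => hr_div hx hy) ?_ ?_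
    · intro x hx z hz
      have hz0 : Algebra.norm F z ≠ 0 := by
        have : FiniteDimensional F B := Module.Finite.of_restrictScalars_finite ℚ F B
        exact Algebra.norm_ne_zero_iff.mpr hz.1.1
      rw [eq_div_iff hz0, ← map_mul, div_mul_cancel₀ _ hz.1.1]
    · intro x hx hN
      exact R x hx.1.1 hx.2.1 hx.1.2 (fun W hW => hx.2.2 W hW trivial) hN
  exact cov_trans (fun x hx => hx.1) (fun x hx => hx.1.1) (fun x hx z hz => cu_div hx hz) step1
    (cov_trans (fun x hx => hx.1.1) (fun x hx => hx.1.1) (fun x hx z hz => cu_div hx hz)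
      step2 step3)

end H55E
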