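import Pool.Agent.H55.TE.Dg
import Pool.Agent.H55.TE.Ba
import Pool.Agent.H55.TE.Pt
import Pool.Agent.H55.TE.Lj
import Pool.Agent.H55.TE.Ya

/-!
Row P3 (about 170 lines): the number of the classes on the real side when `s ∈ L`. The same as rows P1 and P2 with `B = L`, without twisted classes.

PROOF. Sets H₁ := {x | V3 L x ∧ ∀ w, 3 ∈ w → w ∉ S → Near w x}, H₂ := {x | V3 L x ∧ ∀ w, 3 ∈ w → Near w x}. Closed under division: v3_div, near_div. bad_count (K, L, L; finrank L L = 1): SL with card ≤ 2 * nB K m.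
 Step 1: Cov (DR1 K s α β) H₁ (15 ^ (2 * nB K m)): ι := SL → ZMod 3 × Fin 5, τ d := fun w => (log (w d) mod 3, τ_w d), τ_w from typ_one (Pt.lean) if 3 ∈ w and w ∉ S. Outside SL: val_real (Pt.lean) with B := L.
 Step 2: Cov H₁ H₂ (∏ w ∈ S, absNorm w.asIdeal): bad_one (Lj.lean). Step 3: Cov H₂ (Cu L) n: cov_cls with N := Algebra.norm K, v3_norm (F := K, C := L, h3), R (NoNewCubeG). cov_trans twice.
-/

set_option autoImplicit false
open scoped Classical

open WeierstrassCurve IsDedekindDomain NumberField WithZero Pool.Agent.H10 Pool.Agent.H11 H55T3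

namespace H55E

theorem cov_real_one {K L : Type} [Field K] [NumberField K] [Field L] [NumberField L]
    [Algebra K L] [IsGalois K L] (h3 : ¬ 3 ∣ Module.finrank K L) {D α β : 𝓞 K} {s : L}
    (hs : s ^ 2 = algebraMap K L (D : K)) (R : NoNewCubeG K L) {n : ℕ} (hF : IsCls K n)
    (hunr : ∀ w : HeightOneSpectrum (𝓞 L), (3 : 𝓞 L) ∈ w.asIdeal →
      w.valuation L 3 = exp (-1 : ℤ)) {m : ℤ} (hm0 : m ≠ 0)
    (hm : ∃ y : 𝓞 K, (m : 𝓞 K) = 6 * D * β * (27 * β - 4 * D * α ^ 3) * y)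
    (hbad : ∀ v : HeightOneSpectrum (𝓞 K), (m : 𝓞 K) ∈ v.asIdeal → UniqueOver K L v.asIdeal)
    (S : Finset (HeightOneSpectrum (𝓞 L))) (hS3 : ∀ w ∈ S, (3 : 𝓞 L) ∈ w.asIdeal)
    (hS : ∀ w : HeightOneSpectrum (𝓞 L), (3 : 𝓞 L) ∈ w.asIdeal → w ∉ S →
      GoodVO (w.valuation L) (algebraMap K L (D : K)) (algebraMap K L (α : K))
        (algebraMap K L (β : K))) :
    Cov (DR1 K s α β) (Cu L)
      (15 ^ (2 * nB K m) * ((∏ w ∈ S, Ideal.absNorm w.asIdeal) * n)) := by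
  obtain ⟨SL, hSLc, hSL⟩ := bad_count (K := K) (L := L) (B := L)
    (by rw [Module.finrank_self]; norm_num) hm0 hbad
  obtain ⟨y, hy⟩ := hm
  have hmL : (m : 𝓞 L) =
      algebraMap (𝓞 K) (𝓞 L) (6 * D * β * (27 * β - 4 * D * α ^ 3) * y) := by
    rw [← hy, map_intCast]
  have hm3 : ∀ w : HeightOneSpectrum (𝓞 L), (3 : 𝓞 L) ∈ w.asIdeal → (m : 𝓞 L) ∈ w.asIdeal := by
    intro w hw
    have e : (m : 𝓞 L) =
        3 * algebraMap (𝓞 K) (𝓞 L) (2 * D * β * (27 * β - 4 * D * α ^ 3) * y) := by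
      rw [hmL]
      have e1 : (6 * D * β * (27 * β - 4 * D * α ^ 3) * y : 𝓞 K) =
          3 * (2 * D * β * (27 * β - 4 * D * α ^ 3) * y) := by ring
      rw [e1, map_mul, map_ofNat]
    rw [e]
    exact Ideal.mul_mem_right _ _ hw
  have hmD : ∀ w : HeightOneSpectrum (𝓞 L), (m : 𝓞 L) ∉ w.asIdeal →
      algebraMap (𝓞 K) (𝓞 L) (2 * D * β) ∉ w.asIdeal := by
    intro w hw hcon
    apply hw
    have e : (m : 𝓞 L) = algebraMap (𝓞 K) (𝓞 L) (2 * D * β) *
        algebraMap (𝓞 K) (𝓞 L) (3 * (27 * β - 4 * D * α ^ 3) * y) := by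
      rw [hmL, ← map_mul]
      congr 1
      ring
    rw [e]
    exact Ideal.mul_mem_right _ _ hcon
  let H1 : Set L := {x | V3 L x ∧
    ∀ w : HeightOneSpectrum (𝓞 L), (3 : 𝓞 L) ∈ w.asIdeal → w ∉ S → Near w x}
  let H2 : Set L := {x | V3 L x ∧
    ∀ w : HeightOneSpectrum (𝓞 L), (3 : 𝓞 L) ∈ w.asIdeal → Near w x}
  have step1 : Cov (DR1 K s α β) H1 (15 ^ (2 * nB K m)) := by
    have hτ : ∀ w : HeightOneSpectrum (𝓞 L), ∃ τ : L → Fin 5, (3 : 𝓞 L) ∈ w.asIdeal → w ∉ S →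
        ∀ d d' : L, d ≠ 0 → d' ≠ 0 →
        FinSol3 L s (algebraMap K L ((α : K) / 3)) (algebraMap K L (β : K)) d →
        FinSol3 L s (algebraMap K L ((α : K) / 3)) (algebraMap K L (β : K)) d' →
        τ d = τ d' → Near w (d / d') := by
      intro w
      by_cases hw : (3 : 𝓞 L) ∈ w.asIdeal ∧ w ∉ S
      · obtain ⟨τ, h⟩ := typ_one hs w (hunr w hw.1) (hS w hw.1 hw.2)
        exact ⟨τ, fun _ _ => h⟩
      · exact ⟨fun _ => 0, fun h1 h2 => absurd ⟨h1, h2⟩ hw⟩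
    choose τ hτ using hτ
    have h := cov_map (S := DR1 K s α β) (H := H1) (ι := SL → ZMod 3 × Fin 5)
      (fun d w => (((log (w.1.valuation L d) : ℤ) : ZMod 3), τ w.1 d)) ?_
    · refine h.mono ?_
      have e : Nat.card (SL → ZMod 3 × Fin 5) = 15 ^ SL.card := by
        rw [Nat.card_fun, Nat.card_prod, Nat.card_zmod, Nat.card_fin, Nat.card_eq_fintype_card,
          Fintype.card_coe]
      rw [e]
      exact Nat.pow_le_pow_right (by norm_num) hSLc
    · intro d hd d' hd' hdd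
      have hcomp : ∀ w ∈ SL, (((log (w.valuation L d) : ℤ) : ZMod 3), τ w d) =
          (((log (w.valuation L d') : ℤ) : ZMod 3), τ w d') := fun w hw => congrFun hdd ⟨w, hw⟩
      refine ⟨⟨div_ne_zero hd.1 hd'.1, fun w => ?_⟩, fun w hw hwS => ?_⟩
      · rw [map_div₀, log_div ((Valuation.ne_zero_iff _).mpr hd.1)
          ((Valuation.ne_zero_iff _).mpr hd'.1)]
        by_cases hwS : w ∈ SL
        · have h1 := (Prod.ext_iff.1 (hcomp w hwS)).1
          have h2 := (ZMod.intCast_eq_intCast_iff_dvd_sub _ _ 3).1 h1.symm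
          exact_mod_cast h2
        · have hm' : (m : 𝓞 L) ∉ w.asIdeal := fun h => hwS (hSL w h)
          exact dvd_sub (val_real hs w (hmD w hm') hd.1 (hd.2 w))
            (val_real hs w (hmD w hm') hd'.1 (hd'.2 w))
      · have h1 := (Prod.ext_iff.1 (hcomp w (hSL w (hm3 w hw)))).2
        exact hτ w hw hwS d d' hd.1 hd'.1 hd.2 hd'.2 h1
  have step2 : Cov H1 H2 (∏ w ∈ S, Ideal.absNorm w.asIdeal) := by
    have hτ : ∀ w : S, ∃ τ : L → 𝓞 L ⧸ w.1.asIdeal, ∀ x y : L, V3 L x → V3 L y →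
        τ x = τ y → Near w.1 (x / y) := fun w =>
      bad_one w.1 (hS3 w.1 w.2) (hunr w.1 (hS3 w.1 w.2))
    choose τ hτ using hτ
    have hfin : ∀ w : S, Finite (𝓞 L ⧸ w.1.asIdeal) := fun w =>
      Ideal.finiteQuotientOfFreeOfNeBot _ w.1.ne_bot
    have h := cov_map (S := H1) (H := H2) (ι := (w : S) → 𝓞 L ⧸ w.1.asIdeal)
      (fun x w => τ w x) ?_
    · have e : Nat.card ((w : S) → 𝓞 L ⧸ w.1.asIdeal) = ∏ w ∈ S, Ideal.absNorm w.asIdeal := by
        rw [Nat.card_pi, ← Finset.prod_coe_sort S (fun w => Ideal.absNorm w.asIdeal)]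
        refine Finset.prod_congr rfl fun w _ => ?_
        rw [Ideal.absNorm_apply, Submodule.cardQuot_apply]
      rwa [e] at h
    · intro x hx y hy hxy
      refine ⟨v3_div hx.1 hy.1, fun w hw => ?_⟩
      by_cases hwS : w ∈ S
      · exact hτ ⟨w, hwS⟩ x y hx.1 hy.1 (congrFun hxy ⟨w, hwS⟩)
      · exact near_div hw (hx.2 w hw hwS) (hy.2 w hw hwS)
  have step3 : Cov H2 (Cu L) n := by
    refine cov_cls hF (Algebra.norm K) (fun x hx => v3_norm h3 hx.1)
      (fun x hx y hy => ⟨v3_div hx.1 hy.1, fun w hw => near_div hw (hx.2 w hw) (hy.2 w hw)⟩)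
      (fun x hx y hy => ?_) ?_
    · have hy0 : y ≠ 0 := hy.1.1
      rw [eq_div_iff (Algebra.norm_ne_zero_iff.2 hy0), ← map_mul, div_mul_cancel₀ _ hy0]
    · intro x hx h
      exact R x hx.1.1 hx.1.2 hx.2 h
  have t1 := cov_trans (S := H1) (fun x hx => hx.1.1) (fun x hx => hx.1.1)
    (fun x hx y hy => cu_div hx hy) step2 step3
  exact cov_trans (fun x hx => hx.1) (fun x hx => hx.1.1) (fun x hx y hy => cu_div hx hy) step1 t1

end H55E
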