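import Pool.Agent.H55.TE.Dg
import Pool.Agent.H55.TE.Ba
import Pool.Agent.H55.TE.Ya
import Pool.Agent.H55.TE.Fc

/-!
Row P4 (about 120 lines): the number of the classes on the minus side.

PROOF. H := {x | V3 C x ∧ Twi L s x} (closed under division: v3_div, twi_div). Step 1: Cov (DM K L s α γ) H (3 ^ (2 * nB K m)): bad_count (K, L, C): SC; ι := SC → ZMod 3, τ d := fun w => log (w d) mod 3 (cov_map, Cov.mono). Outside SC: m ∉ w, so `algebraMap (𝓞 K) (𝓞 C) (6 D γ) ∉ w` (hm), and M2_place (Pool/Agent/H55/T3/M2.lean) applies to d (hs, the LocSol at w).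
 Step 2: Cov H (Cu C) n: cov_cls (Cl.lean) with N := Algebra.norm F: v3_norm (h3F), `norm (x / y) = norm x / norm y`, and R: if x ∈ H and `norm F x = y ^ 3` then by prod_norm (Fc.lean) `∏ g with g s = s, g x = (algebraMap F C y) ^ 3`, so NoNewMinus gives a cube (do not use the tactic convert; both filters are with the classical instance).
 cov_trans.
-/

set_option autoImplicit false
open scoped Classical

open WeierstrassCurve IsDedekindDomain NumberField WithZero Pool.Agent.H10 Pool.Agent.H11 H55T3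

namespace H55E

theorem cov_minus {K L C F : Type} [Field K] [NumberField K] [Field L] [NumberField L]
    [Field C] [NumberField C] [Field F] [NumberField F] [Algebra K L] [Algebra L C] [Algebra K C]
    [IsScalarTower K L C] [Algebra K F] [Algebra F C] [IsScalarTower K F C] [IsGalois K C]
    [IsGalois L C] (h3F : ¬ 3 ∣ Module.finrank F C) {D α γ : 𝓞 K} {s : C}
    (hs : s ^ 2 = algebraMap K C (-3 * (D : K))) {s0 : F} (hs0 : algebraMap F C s0 = s)
    (hgF : IntermediateField.adjoin K {s0} = ⊤) (h2 : Module.finrank L C = 2)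
    (R : NoNewMinus K L C s) {n : ℕ} (hF : IsCls F n) {m : ℤ} (hm0 : m ≠ 0)
    (hm : ∃ y : 𝓞 K, (m : 𝓞 K) = 6 * D * γ * y)
    (hbad : ∀ v : HeightOneSpectrum (𝓞 K), (m : 𝓞 K) ∈ v.asIdeal → UniqueOver K L v.asIdeal) :
    Cov (DM K L s α γ) (Cu C) (3 ^ (2 * nB K m) * n) := by
  have : IsGalois F C := IsGalois.tower_top_of_isGalois K F C
  obtain ⟨SC, hSC, hSC2⟩ := bad_count (B := C) h2.le hm0 hbad
  obtain ⟨y, hy⟩ := hm
  have hHdiv : ∀ x ∈ {x : C | V3 C x ∧ Twi L s x}, ∀ z ∈ {x : C | V3 C x ∧ Twi L s x},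
      x / z ∈ {x : C | V3 C x ∧ Twi L s x} :=
    fun x hx z hz => ⟨v3_div hx.1 hz.1, twi_div hx.2 hz.2⟩
  have step1 : Cov (DM K L s α γ) {x : C | V3 C x ∧ Twi L s x} (3 ^ (2 * nB K m)) := by
    have h := cov_map (S := DM K L s α γ) (H := {x : C | V3 C x ∧ Twi L s x})
      (ι := SC → ZMod 3) (fun d w => ((log (w.1.valuation C d) : ℤ) : ZMod 3)) (by
      intro d hd d' hd' hdd
      refine ⟨⟨div_ne_zero hd.1 hd'.1, fun w => ?_⟩, twi_div hd.2.2 hd'.2.2⟩
      rw [map_div₀, log_div ((Valuation.ne_zero_iff _).mpr hd.1)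
        ((Valuation.ne_zero_iff _).mpr hd'.1)]
      by_cases hw : w ∈ SC
      · have h1 := congrFun hdd ⟨w, hw⟩
        have h3 := (ZMod.intCast_eq_intCast_iff_dvd_sub _ _ 3).1 h1.symm
        exact_mod_cast h3
      · have hmw : algebraMap (𝓞 K) (𝓞 C) (6 * D * γ) ∉ w.asIdeal := by
          intro h1
          apply hw
          apply hSC2
          rw [← map_intCast (algebraMap (𝓞 K) (𝓞 C)) m, hy, map_mul]
          exact w.asIdeal.mul_mem_right _ h1
        exact dvd_sub (M2_place hs hmw hd.1 (hd.2.1 w)) (M2_place hs hmw hd'.1 (hd'.2.1 w)))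
    refine h.mono ?_
    rw [Nat.card_fun, Nat.card_zmod, Nat.card_eq_fintype_card, Fintype.card_coe]
    exact Nat.pow_le_pow_right (by norm_num) hSC
  have step2 : Cov {x : C | V3 C x ∧ Twi L s x} (Cu C) n := by
    refine cov_cls hF (fun x => Algebra.norm F x) (fun x hx => v3_norm h3F hx.1) hHdiv ?_ ?_
    · intro x hx z hz
      have hz0 : Algebra.norm F z ≠ 0 := by
        have : FiniteDimensional F C := Module.Finite.of_restrictScalars_finite ℚ F C
        exact Algebra.norm_ne_zero_iff.mpr hz.1.1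
      rw [eq_div_iff hz0, ← map_mul, div_mul_cancel₀ _ hz.1.1]
    · rintro x hx ⟨z, hz⟩
      refine R x hx.1.1 hx.1.2 ⟨algebraMap F C z, ?_⟩ hx.2
      rw [prod_norm hs0 hgF x, hz, map_pow]
  exact cov_trans (fun x hx => hx.1) (fun x hx => hx.1.1) (fun x hx z hz => cu_div hx hz) step1 step2

end H55E
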