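import Pool.Agent.H55.TE.Dg
import Pool.Agent.H55.TE.Ga
import Pool.Agent.H55.TE.Gb
import Pool.Agent.H55.TE.Gc
import Pool.Agent.H55.TE.Gd
import Pool.Agent.H55.T3.KO

/-!
From the classes of the parameters to the classes of the cocycles (helper55; no row).
-/

set_option autoImplicit false
open scoped Classical

open WeierstrassCurve IsDedekindDomain NumberField WithZero Pool.Agent.H10 Pool.Agent.H11 H55T3

namespace H55E

theorem repK_of {L B : Type} [Field L] [NumberField L] [Field B] {V : WeierstrassCurve L}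
    {S : Set B} {n : ℕ} (hS : Cov S (Cu B) n) (hS0 : ∀ x ∈ S, x ≠ 0) (δ : Coch L V → B)
    (h1 : ∀ f ∈ ShaZ L V, (∀ σ, Kr (f σ)) → δ f ∈ S)
    (h2 : ∀ f ∈ ShaZ L V, (∀ σ, Kr (f σ)) → ∀ f' ∈ ShaZ L V, (∀ σ, Kr (f' σ)) →
      (∃ y, δ f / δ f' = y ^ 3) → ∃ T, Kr T ∧ f = f' + cbd V T) : RepK L V n := by
  obtain ⟨R, hR, hRS, hR1⟩ := hS
  let P : B → Coch L V → Prop := fun r f => f ∈ ShaZ L V ∧ (∀ σ, Kr (f σ)) ∧ δ f / r ∈ Cu B
  let c : B → Coch L V := fun r => if h : ∃ f, P r f then h.choose else 0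
  have hc : ∀ r, (∃ f, P r f) → P r (c r) := by
    intro r hr
    have h3 : c r = hr.choose := dif_pos hr
    rw [h3]
    exact hr.choose_spec
  refine ⟨R.image c, Finset.card_image_le.trans hR, fun f hf hk => ?_⟩
  obtain ⟨r, hr, hfr⟩ := hR1 _ (h1 f hf hk)
  obtain ⟨h3, h4, h5⟩ := hc r ⟨f, hf, hk, hfr⟩
  refine ⟨c r, Finset.mem_image_of_mem c hr, h2 f hf hk (c r) h3 h4 ?_⟩
  have h6 := cu_div hfr h5
  have hr0 : r ≠ 0 := hS0 r (hRS r hr)
  rwa [div_div_div_cancel_right₀ hr0] at h6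

section

variable {K L B : Type} [Field K] [NumberField K] [Field L] [NumberField L] [Field B]
  [NumberField B] [Algebra K L] [Algebra L B] [Algebra K B] [IsScalarTower K L B] [IsGalois L B]

theorem real_rep_two {D : 𝓞 K} {s : B}
    (hs : s ^ 2 = algebraMap K B (D : K))
    (h2 : Module.finrank L B = 2) (hgen : ∀ g : B ≃ₐ[L] B, g s = s → g = 1) {α β : 𝓞 K} {n : ℕ}
    (hcov : Cov (DR K L s D α β) (Cu B) n) {V : WeierstrassCurve K} {D' a b u t : K}
    (h : Is3 V D' a b) (hD' : D' = u ^ 2 * (D : K)) (hu : u ≠ 0) (ht : t ≠ 0)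
    (ha : u * a = t * ((α : K) / 3)) (hc : u * (9 * b + 4 * D' * a ^ 3) = t ^ 3 * β) :
    RepK L (V.baseChange L) n := by
  have huB : algebraMap K B u ≠ 0 := (map_ne_zero_iff _ (algebraMap K B).injective).2 hu
  have hKB : ∀ (g : B ≃ₐ[L] B) (x : K), g (algebraMap K B x) = algebraMap K B x := by
    intro g x
    rw [IsScalarTower.algebraMap_apply K L B, g.commutes]
  have hL : Is3 (V.baseChange L) (algebraMap K L D') (algebraMap K L a) (algebraMap K L b) :=
    h.up rfl
  obtain ⟨δ, h1, h3⟩ := kum_two (B := B) (s := algebraMap K B u * s) hL (by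
    rw [← IsScalarTower.algebraMap_apply, hD', map_mul, mul_pow, hs, map_pow]) h2 (by
    intro g hg
    apply hgen
    rw [map_mul, hKB] at hg
    exact mul_left_cancel₀ huB hg)
  refine repK_of hcov (fun x hx => hx.1) δ (fun f hf hk => ?_) h3
  obtain ⟨hd, H, HM, hJ⟩ := h1 f hf hk
  have ecL : 9 * algebraMap K L b + 4 * algebraMap K L D' * (algebraMap K L a) ^ 3 =
      algebraMap K L (9 * b + 4 * D' * a ^ 3) := by
    simp only [map_add, map_mul, map_pow, map_ofNat]
  rw [ecL] at H HM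
  rw [← IsScalarTower.algebraMap_apply, ← IsScalarTower.algebraMap_apply] at H
  refine ⟨hd, ?_, ?_, ?_⟩
  · intro v
    have hv := H v
    refine locSol_tt (t := algebraMap B (v.adicCompletion B) (algebraMap K B t)) ?_ ?_ ?_ hv
    · rw [Ne, map_eq_zero, map_eq_zero]
      exact ht
    · rw [← map_mul, ← map_mul, ← map_mul]
      congr 1
      rw [mul_right_comm, ← map_mul, ha, map_mul]
      ring
    · rw [← map_mul, ← map_mul, ← map_pow, ← map_mul]
      congr 1
      rw [mul_right_comm, ← map_mul, hc, map_mul, map_pow]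
      ring
  · refine finM_t (t := algebraMap K L t) (u := algebraMap K L u)
      ((map_ne_zero_iff _ (algebraMap K L).injective).2 ht) ?_ ?_ ?_
      ((map_ne_zero_iff _ (algebraMap K L).injective).2 hu) ?_ HM
    · rw [hD', map_mul, map_pow]
    · rw [← map_mul, ← map_mul, ha]
    · rw [← map_mul, ← map_pow, ← map_mul, hc]
    · rw [← IsScalarTower.algebraMap_apply]
  · intro g hg
    obtain ⟨y, hy⟩ := hJ g (by rw [map_mul, hKB, hg, mul_neg])
    exact ⟨y, by rw [mul_comm, hy]⟩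

theorem minus_rep {D : 𝓞 K} {s : B} (hs : s ^ 2 = algebraMap K B (-3 * (D : K)))
    (h2 : Module.finrank L B = 2) (hgen : ∀ g : B ≃ₐ[L] B, g s = s → g = 1) {α γ : 𝓞 K} {n : ℕ}
    (hcov : Cov (DM K L s α γ) (Cu B) n) {V : WeierstrassCurve K} {D' a b u t : K}
    (h : Is3 V D' a b) (hD' : D' = u ^ 2 * (-3 * (D : K))) (hu : u ≠ 0) (ht : t ≠ 0)
    (ha : u * a = t * ((α : K) / 3))
    (hc : u * (9 * b + 4 * D' * a ^ 3) = t ^ 3 * ((γ : K) / 9)) :
    RepK L (V.baseChange L) n := by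
  have huB : algebraMap K B u ≠ 0 := (map_ne_zero_iff _ (algebraMap K B).injective).2 hu
  have hKB : ∀ (g : B ≃ₐ[L] B) (x : K), g (algebraMap K B x) = algebraMap K B x := by
    intro g x
    rw [IsScalarTower.algebraMap_apply K L B, g.commutes]
  have hL : Is3 (V.baseChange L) (algebraMap K L D') (algebraMap K L a) (algebraMap K L b) :=
    h.up rfl
  obtain ⟨δ, h1, h3⟩ := kum_two (B := B) (s := algebraMap K B u * s) hL (by
    rw [← IsScalarTower.algebraMap_apply, hD', map_mul, mul_pow, hs, map_pow]) h2 (by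
    intro g hg
    apply hgen
    rw [map_mul, hKB] at hg
    exact mul_left_cancel₀ huB hg)
  refine repK_of hcov (fun x hx => hx.1) δ (fun f hf hk => ?_) h3
  obtain ⟨hd, H, HM, hJ⟩ := h1 f hf hk
  have ecL : 9 * algebraMap K L b + 4 * algebraMap K L D' * (algebraMap K L a) ^ 3 =
      algebraMap K L (9 * b + 4 * D' * a ^ 3) := by
    simp only [map_add, map_mul, map_pow, map_ofNat]
  rw [ecL] at H
  rw [← IsScalarTower.algebraMap_apply, ← IsScalarTower.algebraMap_apply] at H
  refine ⟨hd, ?_, ?_⟩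
  · intro v
    have hv := H v
    refine locSol_tt (t := algebraMap B (v.adicCompletion B) (algebraMap K B t)) ?_ ?_ ?_ hv
    · rw [Ne, map_eq_zero, map_eq_zero]
      exact ht
    · rw [← map_mul, ← map_mul, ← map_mul]
      congr 1
      rw [mul_right_comm, ← map_mul, ha, map_mul]
      ring
    · rw [← map_mul, ← map_mul, ← map_pow, ← map_mul]
      congr 1
      rw [mul_right_comm, ← map_mul, hc, map_mul, map_pow]
      ring
  · intro g hg
    obtain ⟨y, hy⟩ := hJ g (by rw [map_mul, hKB, hg, mul_neg])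
    exact ⟨y, by rw [mul_comm, hy]⟩

end

theorem real_rep_one {K L : Type} [Field K] [NumberField K] [Field L] [NumberField L]
    [Algebra K L] {D : 𝓞 K} {s : L} (hs : s ^ 2 = algebraMap K L (D : K)) {α β : 𝓞 K} {n : ℕ}
    (hcov : Cov (DR1 K s α β) (Cu L) n) {V : WeierstrassCurve K} {D' a b u t : K}
    (h : Is3 V D' a b) (hD' : D' = u ^ 2 * (D : K)) (ht : t ≠ 0)
    (ha : u * a = t * ((α : K) / 3)) (hc : u * (9 * b + 4 * D' * a ^ 3) = t ^ 3 * β) :
    RepK L (V.baseChange L) n := by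
  have hL : Is3 (V.baseChange L) (algebraMap K L D') (algebraMap K L a) (algebraMap K L b) :=
    h.up rfl
  obtain ⟨δ, h1, h3⟩ := kum_one (s := algebraMap K L u * s) hL (by
    rw [hD', map_mul, mul_pow, hs, map_pow])
  refine repK_of hcov (fun x hx => hx.1) δ (fun f hf hk => ?_) h3
  obtain ⟨hd, H⟩ := h1 f hf hk
  have ecL : 9 * algebraMap K L b + 4 * algebraMap K L D' * (algebraMap K L a) ^ 3 =
      algebraMap K L (9 * b + 4 * D' * a ^ 3) := by
    simp only [map_add, map_mul, map_pow, map_ofNat]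
  rw [ecL] at H
  refine ⟨hd, ?_⟩
  intro v
  have hv := H v
  refine locSol_tt (t := algebraMap L (v.adicCompletion L) (algebraMap K L t)) ?_ ?_ ?_ hv
  · rw [Ne, map_eq_zero, map_eq_zero]
    exact ht
  · rw [← map_mul, ← map_mul, ← map_mul]
    congr 1
    rw [mul_right_comm, ← map_mul, ha, map_mul]
    ring
  · rw [← map_mul, ← map_mul, ← map_pow, ← map_mul]
    congr 1
    rw [mul_right_comm, ← map_mul, hc, map_mul, map_pow]
    ring

end H55E
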