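import Pool.Agent.H55.TE.Qa

/-!
The three-Selmer groups of both curves (helper55; no row).
-/

set_option autoImplicit false
open scoped Classical

open WeierstrassCurve IsDedekindDomain NumberField WithZero Pool.Agent.H10 Pool.Agent.H11 H55T3

namespace H55E

theorem rep3_pair {K L : Type} [Field K] [NumberField K] [Field L] [NumberField L] [Algebra K L]
    {D α β : 𝓞 K} (hD0 : D ≠ 0) (hβ : β ≠ 0) (hγ : 27 * β - 4 * D * α ^ 3 ≠ 0) {n m : ℕ}
    (HR : ∀ (V : WeierstrassCurve K) (D' a b u t : K), Is3 V D' a b → D' = u ^ 2 * (D : K) →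
      u ≠ 0 → t ≠ 0 → u * a = t * ((α : K) / 3) → u * (9 * b + 4 * D' * a ^ 3) = t ^ 3 * (β : K) →
      RepK L (V.baseChange L) n)
    (HM : ∀ (V : WeierstrassCurve K) (D' a b u t : K), Is3 V D' a b →
      D' = u ^ 2 * (-3 * (D : K)) → u ≠ 0 → t ≠ 0 → u * a = t * ((α : K) / 3) →
      u * (9 * b + 4 * D' * a ^ 3) = t ^ 3 * (((27 * β - 4 * D * α ^ 3 : 𝓞 K) : K) / 9) →
      RepK L (V.baseChange L) m) (E : WeierstrassCurve K)
    (hE : E = curWD (D : K) (α : K) (β : K) ∨
      E = curVD (D : K) (α : K) (27 * (β : K) - 4 * (D : K) * (α : K) ^ 3)) :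
    (E.baseChange L).IsElliptic ∧ Rep3 L (E.baseChange L) (n * m) := by
  have hDK : (D : K) ≠ 0 := coe_ne hD0
  have hβ' : (β : K) ≠ 0 := coe_ne hβ
  have hγ' : 27 * (β : K) - 4 * (D : K) * (α : K) ^ 3 ≠ 0 := by
    rw [← coe_gammaO]
    exact coe_ne hγ
  have up : ∀ {W : WeierstrassCurve K} {D a b : K}, Is3 W (-3 * D) a (dl D a b) →
      Is3 (W.baseChange L) (-3 * algebraMap K L D) (algebraMap K L a)
        (dl (algebraMap K L D) (algebraMap K L a) (algebraMap K L b)) := by
    intro W D a b h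
    have := h.up (φ := algebraMap K L) (W₁ := W.baseChange L) rfl
    rwa [dl_map, map_mul, map_neg, map_ofNat] at this
  rcases hE with rfl | rfl
  · have hE := is3_WD hDK hβ' hγ'
    have hV := is3_VD' hDK hβ' hγ'
    refine ⟨(hE.up (φ := algebraMap K L) rfl).isElliptic, ?_⟩
    rw [mul_comm n m]
    refine rep3_of_repK (hE.up (φ := algebraMap K L) rfl) (up hV) ?_ ?_
    · exact HM _ _ _ _ 1 1 hE (by ring) one_ne_zero one_ne_zero (by ring) (by
        rw [coe_gammaO]
        ring)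
    · exact HR _ _ _ _ 3 3 hV (by ring) three_ne_zero three_ne_zero (by ring) (by
        unfold dl
        ring)
  · have hE := is3_VD hDK hβ' hγ'
    have hW := is3_WD' hDK hβ' hγ'
    refine ⟨(hE.up (φ := algebraMap K L) rfl).isElliptic, ?_⟩
    refine rep3_of_repK (hE.up (φ := algebraMap K L) rfl) (up hW) ?_ ?_
    · exact HR _ _ _ _ 1 9 hE (by ring) one_ne_zero (by norm_num) (by ring) (by ring)
    · exact HM _ _ _ _ 1 9 hW (by ring) one_ne_zero (by norm_num) (by ring) (by
        rw [coe_gammaO]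
        unfold dl
        ring)

end H55E
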