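import Pool.Agent.H55.TE.Df

/-!
Row Yb (about 60 lines): finitely many classes.

PROOF. Pool.Agent.H11.kSn_finite (Pool/Agent/H11/KSn.lean) with S := ∅, n := 3: a finite set R of nonzero elements such that every `a ≠ 0` whose valuations are third powers is `r * b ^ 3`, `b ≠ 0`, `r ∈ R`. If `V3 F a` then for every `w` there is `c ≠ 0` with `w a = (w c) ^ 3`: `log (w a) = 3 k`; c := π ^ (-k) for a uniformizer π (HeightOneSpectrum.valuation_exists_uniformizer: w π = exp (-1)).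
 Rf := hR.toFinset, n := Rf.card + 1; `Rf ≃ Fin Rf.card`. τ a := the number of an `r` with `∃ b ≠ 0, a = r * b ^ 3` if it exists, else the last element. If τ x = τ y for V3 elements: x = r b^3, y = r c^3, x / y = (b / c)^3.
-/

set_option autoImplicit false
open scoped Classical

open WeierstrassCurve IsDedekindDomain NumberField WithZero Pool.Agent.H10 Pool.Agent.H11 H55T3

namespace H55E

private theorem yb_val {F : Type} [Field F] [NumberField F] {a : F} (ha : V3 F a)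
    (w : HeightOneSpectrum (𝓞 F)) :
    ∃ c : F, c ≠ 0 ∧ w.valuation F a = (w.valuation F c) ^ 3 := by
  obtain ⟨ha0, h3⟩ := ha
  obtain ⟨k, hk⟩ := h3 w
  obtain ⟨π, hπ⟩ := w.valuation_exists_uniformizer F
  have hπ0 : π ≠ 0 := by
    rintro rfl
    rw [map_zero] at hπ
    exact WithZero.coe_ne_zero hπ.symm
  have hw0 : w.valuation F a ≠ 0 := (Valuation.ne_zero_iff _).2 ha0
  refine ⟨π ^ (-k), zpow_ne_zero _ hπ0, ?_⟩
  rw [map_zpow₀, hπ]
  rw [← WithZero.exp_log hw0, hk]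
  rw [← WithZero.exp_zsmul, ← WithZero.exp_nsmul]
  congr 1
  simp

theorem exists_cls (F : Type) [Field F] [NumberField F] : ∃ n, IsCls F n := by
  obtain ⟨R, hR, hR0, hR1⟩ := Pool.Agent.H11.kSn_finite (F := F) ∅ Set.finite_empty 3
    (by norm_num)
  have hcl : ∀ a : F, V3 F a → ∃ r ∈ hR.toFinset, ∃ b : F, b ≠ 0 ∧ a = r * b ^ 3 := by
    intro a ha
    obtain ⟨r, hr, b, hb, hab⟩ := hR1 a ha.1 (fun w _ => yb_val ha w)
    exact ⟨r, hR.mem_toFinset.2 hr, b, hb, hab⟩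
  obtain ⟨r0, hr0, -⟩ := hcl 1 ⟨one_ne_zero, fun w => by simp⟩
  let e := hR.toFinset.equivFin
  let g : F → {x // x ∈ hR.toFinset} := fun a =>
    if h : ∃ r ∈ hR.toFinset, ∃ b : F, b ≠ 0 ∧ a = r * b ^ 3 then ⟨h.choose, h.choose_spec.1⟩
    else ⟨r0, hr0⟩
  have hg : ∀ a : F, V3 F a → ∃ b : F, b ≠ 0 ∧ a = (g a : F) * b ^ 3 := by
    intro a ha
    have h := hcl a ha
    have h2 : g a = ⟨h.choose, h.choose_spec.1⟩ := dif_pos h
    rw [h2]
    exact h.choose_spec.2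
  refine ⟨hR.toFinset.card, fun a => e (g a), ?_⟩
  intro x y hx hy hxy
  have h1 : g x = g y := e.injective hxy
  obtain ⟨b, hb, hxb⟩ := hg x hx
  obtain ⟨c, hc, hyc⟩ := hg y hy
  rw [h1] at hxb
  have hr : (g y : F) ≠ 0 := hR0 _ (hR.mem_toFinset.1 (g y).2)
  refine ⟨b / c, ?_⟩
  rw [hxb, div_eq_iff (by rw [hyc]; exact mul_ne_zero hr (pow_ne_zero _ hc))]
  conv_rhs => rw [hyc]
  field_simp

end H55E
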