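import Pool.Agent.H55.TE.Qb
import Pool.Agent.H55.TE.P2
import Pool.Agent.H55.TE.P3
import Pool.Agent.H55.TE.P4
import Pool.Agent.H55.TE.Fa
import Pool.Agent.H55.TE.Fb
import Pool.Agent.H55.TE.Yb
import Pool.Agent.H55.TE.Na

/-!
The three-Selmer groups for a pair of layers (helper55; no row).
-/

set_option autoImplicit false
set_option linter.style.haveILetI false
set_option linter.unusedSectionVars false
open scoped Classical

open WeierstrassCurve IsDedekindDomain NumberField WithZero Pool.Agent.H10 Pool.Agent.H11 H55T3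
  H5SW

namespace H55E

/-- `F` is `K(√c)`. -/
structure Quad (K : Type) [Field K] [NumberField K] (c : K) (F : Type) [Field F] [NumberField F]
    [Algebra K F] (s0 : F) : Prop where
  sq : s0 ^ 2 = algebraMap K F c
  gen : IntermediateField.adjoin K {s0} = ⊤
  emb : ∀ (B : Type) [Field B] [NumberField B] [Algebra K B] (s : B), s ^ 2 = algebraMap K B c →
    ∃ φ : F →ₐ[K] B, φ s0 = s

theorem three_deg {K L B F : Type} [Field K] [NumberField K] [Field L] [NumberField L]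
    [Field B] [NumberField B] [Field F] [NumberField F] [Algebra K L] [Algebra L B] [Algebra K B]
    [IsScalarTower K L B] [Algebra K F] [Algebra F B] [IsScalarTower K F B]
    (h3 : ¬ 3 ∣ Module.finrank K L) (h2 : Module.finrank L B = 2) :
    ¬ 3 ∣ Module.finrank F B := by
  intro h
  have h1 : Module.finrank K F * Module.finrank F B = Module.finrank K B :=
    Module.finrank_mul_finrank K F B
  have h4 : Module.finrank K L * Module.finrank L B = Module.finrank K B :=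
    Module.finrank_mul_finrank K L B
  rw [h2] at h4
  have h5 : 3 ∣ Module.finrank K L * 2 := by
    rw [h4, ← h1]
    exact h.mul_left _
  rcases (Nat.Prime.dvd_mul Nat.prime_three).1 h5 with h6 | h6
  · exact h3 h6
  · omega

section

variable {k κ K L : Type} [Field k] [NumberField k] [Field κ] [NumberField κ] [Field K]
  [NumberField K] [Field L] [NumberField L] [Algebra k κ] [Algebra k K] [Algebra k L]
  [Algebra K L] [IsScalarTower k K L] [IsGalois K L] {m : ℤ} {t0 : κ}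

/-- the places above three which are not good -/
theorem bad_set {D α β : 𝓞 k}
    (hD9 : ∀ v : HeightOneSpectrum (𝓞 k), (3 : 𝓞 k) ∈ v.asIdeal → D ∉ v.asIdeal ^ 2)
    (hunr : ∀ w : HeightOneSpectrum (𝓞 L), (3 : 𝓞 L) ∈ w.asIdeal →
      w.valuation L 3 = exp (-1 : ℤ)) (S₀ : Finset (HeightOneSpectrum (𝓞 k)))
    (hS₀ : ∀ v : HeightOneSpectrum (𝓞 k), (3 : 𝓞 k) ∈ v.asIdeal → v ∉ S₀ → GoodD v D α β) :
    ∃ S : Finset (HeightOneSpectrum (𝓞 L)), (∀ w ∈ S, (3 : 𝓞 L) ∈ w.asIdeal) ∧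
      (∀ w : HeightOneSpectrum (𝓞 L), (3 : 𝓞 L) ∈ w.asIdeal → w ∉ S →
        GoodVO (w.valuation L) (algebraMap k L (D : k)) (algebraMap k L (α : k))
          (algebraMap k L (β : k))) ∧
      ∏ w ∈ S, Ideal.absNorm w.asIdeal ≤
        (∏ v ∈ S₀, Ideal.absNorm v.asIdeal) ^ Module.finrank k L := by
  have hfin : {w : HeightOneSpectrum (𝓞 L) | (3 : 𝓞 L) ∈ w.asIdeal}.Finite := by
    have h0 : Ideal.span {(3 : 𝓞 L)} ≠ 0 := by
      rw [Ne, Ideal.zero_eq_bot, Ideal.span_singleton_eq_bot]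
      norm_num
    refine (Ideal.finite_factors h0).subset ?_
    intro w hw
    exact Ideal.dvd_span_singleton.mpr hw
  have hmem : ∀ w : HeightOneSpectrum (𝓞 L), w ∈ hfin.toFinset ↔ (3 : 𝓞 L) ∈ w.asIdeal :=
    fun w => by rw [Set.Finite.mem_toFinset]; rfl
  refine ⟨hfin.toFinset.filter (fun w => ¬ GoodVO (w.valuation L) (algebraMap k L (D : k))
    (algebraMap k L (α : k)) (algebraMap k L (β : k))), ?_, ?_, ?_⟩
  · intro w hw
    exact (hmem w).1 (Finset.mem_filter.1 hw).1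
  · intro w hw hw2
    by_contra hcon
    exact hw2 (Finset.mem_filter.2 ⟨(hmem w).2 hw, hcon⟩)
  · apply norm_above
    intro w hw
    rw [Finset.mem_filter, hmem] at hw
    obtain ⟨v, h1, h2, -, h4⟩ := good_up1 (α := α) (β := β) hD9 w hw.1 (hunr w hw.1)
    refine ⟨v, ?_, h1⟩
    by_contra hcon
    exact hw.2 (h4 (hS₀ v h2 hcon))

/-- The minus side. -/
theorem minus_part (X : Conf k κ K L m t0 (algebraMap k K)) {D α β : 𝓞 K} {c : k}
    (hc : algebraMap k K c = (D : K)) (hD0 : D ≠ 0)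
    (ht0 : t0 ^ 2 = algebraMap k κ c) (hm0 : m ≠ 0)
    (hm : ∃ y : 𝓞 K, (m : 𝓞 K) = 6 * D * β * (27 * β - 4 * D * α ^ 3) * y)
    {F : Type} [Field F] [NumberField F] [Algebra K F] {s0 : F} (Q : Quad K (-3 * (D : K)) F s0)
    {n : ℕ} (hF : IsCls F n) (V : WeierstrassCurve K) (D' a b u t : K) (h : Is3 V D' a b)
    (hD' : D' = u ^ 2 * (-3 * (D : K))) (hu : u ≠ 0) (ht : t ≠ 0) (ha : u * a = t * ((α : K) / 3))
    (hcc : u * (9 * b + 4 * D' * a ^ 3) = t ^ 3 * (((27 * β - 4 * D * α ^ 3 : 𝓞 K) : K) / 9)) :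
    RepK L (V.baseChange L) (3 ^ (2 * nB K m) * n) := by
  have ht00 : t0 ≠ 0 := by
    rintro rfl
    rw [zero_pow two_ne_zero] at ht0
    have h1 : c = 0 := (map_eq_zero (algebraMap k κ)).1 ht0.symm
    rw [h1, map_zero] at hc
    exact coe_ne hD0 hc.symm
  obtain ⟨C, _, _, _, _, _, _, _, s, hs, hgen, hn2, hM⟩ := X.mi t0 c ht00 ht0
  rw [hc] at hs hn2
  have h2 := finrank_c hs hgen hn2
  obtain ⟨φ, hφ⟩ := Q.emb C s hs
  letI : Algebra F C := φ.toRingHom.toAlgebra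
  haveI : IsScalarTower K F C := IsScalarTower.of_algebraMap_eq fun x => (φ.commutes x).symm
  have hs0 : algebraMap F C s0 = s := hφ
  obtain ⟨y, hy⟩ := hm
  exact minus_rep hs h2 (fun g hg => H68TK.gen_s hgen g hg)
    (cov_minus (F := F) (three_deg (K := K) (L := L) X.three h2) hs hs0 Q.gen h2 hM hF hm0
      ⟨β * y, by rw [hy]; ring⟩ X.bad) h hD' hu ht ha hcc

/-- The real side, `D` not a square in `L`. -/
theorem real_part_two (X : Conf k κ K L m t0 (algebraMap k K)) {D α β : 𝓞 K} {c : k}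
    (hc : algebraMap k K c = (D : K))
    (ht0 : t0 ^ 2 = algebraMap k κ c) (hm0 : m ≠ 0)
    (hm : ∃ y : 𝓞 K, (m : 𝓞 K) = 6 * D * β * (27 * β - 4 * D * α ^ 3) * y)
    (hunr : ∀ w : HeightOneSpectrum (𝓞 L), (3 : 𝓞 L) ∈ w.asIdeal →
      w.valuation L 3 = exp (-1 : ℤ))
    (S : Finset (HeightOneSpectrum (𝓞 L))) (hS3 : ∀ w ∈ S, (3 : 𝓞 L) ∈ w.asIdeal)
    (hSD : ∀ w ∈ S, w.valuation L (algebraMap K L (D : K)) = 1 ∨
      w.valuation L (algebraMap K L (D : K)) = exp (-1 : ℤ))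
    (hS : ∀ w : HeightOneSpectrum (𝓞 L), (3 : 𝓞 L) ∈ w.asIdeal → w ∉ S →
      GoodVO (w.valuation L) (algebraMap K L (D : K)) (algebraMap K L (α : K))
        (algebraMap K L (β : K)))
    (hn : ∀ z : L, z ^ 2 ≠ algebraMap K L (D : K))
    {F : Type} [Field F] [NumberField F] [Algebra K F] {s0 : F} (Q : Quad K (D : K) F s0)
    {n : ℕ} (hF : IsCls F n) (V : WeierstrassCurve K) (D' a b u t : K) (h : Is3 V D' a b)
    (hD' : D' = u ^ 2 * (D : K)) (hu : u ≠ 0) (ht : t ≠ 0) (ha : u * a = t * ((α : K) / 3))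
    (hcc : u * (9 * b + 4 * D' * a ^ 3) = t ^ 3 * (β : K)) :
    RepK L (V.baseChange L)
      (15 ^ (2 * nB K m) * ((∏ w ∈ S, Ideal.absNorm w.asIdeal) * n)) := by
  obtain ⟨A, B, _, _, _, _, _, _, _, _, _, _, s, hs, hgen, hA, hR⟩ := X.re
  have hs' : s ^ 2 = algebraMap K B (D : K) := by rw [← hc]; exact hs _ ht0
  haveI hGB : IsGalois K B := galois_c hs' hgen
  haveI hGLB : IsGalois L B := IsGalois.tower_top_of_isGalois K L B
  have h2 := finrank_c hs' hgen hn
  obtain ⟨φ, hφ⟩ := Q.emb B s hs'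
  letI : Algebra F B := φ.toRingHom.toAlgebra
  haveI : IsScalarTower K F B := IsScalarTower.of_algebraMap_eq fun x => (φ.commutes x).symm
  haveI : IsGalois F B := IsGalois.tower_top_of_isGalois K F B
  have hs0 : algebraMap F B s0 = s := hφ
  have hRF : NoNewCubeG F B := cubeG_F (K := K) (A := A) hs0 hA hR
  exact real_rep_two hs' h2 (fun g hg => H68TK.gen_s hgen g hg)
    (cov_real_two (F := F) (three_deg (K := K) (L := L) X.three h2) hs' h2
      (fun g hg => H68TK.gen_s hgen g hg) (fun x hx _ hv h3 hN => hRF x hx hv h3 hN) hF hunr hm0 hm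
      X.bad S hS3 hSD hS) h hD' hu ht ha hcc

/-- The real side, `D` a square in `K`. -/
theorem real_part_one (X : Conf k κ K L m t0 (algebraMap k K)) {D α β : 𝓞 K}
    (hm0 : m ≠ 0)
    (hm : ∃ y : 𝓞 K, (m : 𝓞 K) = 6 * D * β * (27 * β - 4 * D * α ^ 3) * y)
    (hunr : ∀ w : HeightOneSpectrum (𝓞 L), (3 : 𝓞 L) ∈ w.asIdeal →
      w.valuation L 3 = exp (-1 : ℤ))
    (S : Finset (HeightOneSpectrum (𝓞 L))) (hS3 : ∀ w ∈ S, (3 : 𝓞 L) ∈ w.asIdeal)
    (hS : ∀ w : HeightOneSpectrum (𝓞 L), (3 : 𝓞 L) ∈ w.asIdeal → w ∉ S →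
      GoodVO (w.valuation L) (algebraMap K L (D : K)) (algebraMap K L (α : K))
        (algebraMap K L (β : K)))
    {z : K} (hz : z ^ 2 = (D : K)) {n : ℕ} (hF : IsCls K n) (V : WeierstrassCurve K)
    (D' a b u t : K) (h : Is3 V D' a b)
    (hD' : D' = u ^ 2 * (D : K)) (ht : t ≠ 0) (ha : u * a = t * ((α : K) / 3))
    (hcc : u * (9 * b + 4 * D' * a ^ 3) = t ^ 3 * (β : K)) :
    RepK L (V.baseChange L)
      (15 ^ (2 * nB K m) * ((∏ w ∈ S, Ideal.absNorm w.asIdeal) * n)) := by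
  have hs : (algebraMap K L z) ^ 2 = algebraMap K L (D : K) := by rw [← map_pow, hz]
  exact real_rep_one hs (cov_real_one X.three hs X.cube hF hunr hm0 hm X.bad S hS3 hS) h hD' ht ha
    hcc

end

end H55E
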