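import Pool.Agent.H55.TE.Qc
import Pool.Agent.H55.T3.S10

/-!
The exact growth in the tower (helper55; no row).
-/

set_option autoImplicit false
set_option linter.style.haveILetI false
set_option linter.unusedSectionVars false
open scoped Classical

open WeierstrassCurve IsDedekindDomain NumberField WithZero Pool.Agent.H10 Pool.Agent.H11 H55T3
  H5SW H68TM

namespace H55E

theorem exists_quad {K : Type} [Field K] [NumberField K] {c : K} (h0 : ∀ z : K, z ^ 2 ≠ c) :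
    ∃ n : ℕ, ∃ (F : Type) (_ : Field F) (_ : NumberField F) (_ : Algebra K F) (s0 : F),
      Quad K c F s0 ∧ IsCls F n := by
  obtain ⟨F, _, _, _, s0, h1, h2, h3⟩ := exists_F h0
  obtain ⟨n, hn⟩ := exists_cls F
  exact ⟨n, F, inferInstance, inferInstance, inferInstance, s0, ⟨h1, h2, h3⟩, hn⟩

/-- The bound for one pair of layers, with constants which depend on `K` only. -/
theorem pair_bound {k κ K : Type} [Field k] [NumberField k] [Field κ] [NumberField κ] [Field K]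
    [NumberField K] [Algebra k κ] [Algebra k K] {m : ℤ} {t0 : κ} {D α β : 𝓞 k} (hD0 : D ≠ 0)
    (ht0 : t0 ^ 2 = algebraMap k κ (D : k)) (hβ : β ≠ 0) (hγ : 27 * β - 4 * D * α ^ 3 ≠ 0)
    (hm0 : m ≠ 0) (hm : ∃ y : 𝓞 k, (m : 𝓞 k) = 6 * D * β * (27 * β - 4 * D * α ^ 3) * y)
    (hD9 : ∀ v : HeightOneSpectrum (𝓞 k), (3 : 𝓞 k) ∈ v.asIdeal → D ∉ v.asIdeal ^ 2)
    (S₀ : Finset (HeightOneSpectrum (𝓞 k)))
    (hS₀ : ∀ v : HeightOneSpectrum (𝓞 k), (3 : 𝓞 k) ∈ v.asIdeal → v ∉ S₀ → GoodD v D α β) :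
    ∃ C : ℕ, ∀ (L : Type) [Field L] [NumberField L] [Algebra k L] [Algebra K L]
      [IsScalarTower k K L], Conf k κ K L m t0 (algebraMap k K) →
      (∀ w : HeightOneSpectrum (𝓞 L), (3 : 𝓞 L) ∈ w.asIdeal → w.valuation L 3 = exp (-1 : ℤ)) →
      ∀ E : WeierstrassCurve K, (E = curWD (algebraMap k K D) (algebraMap k K α) (algebraMap k K β) ∨
        E = curVD (algebraMap k K D) (algebraMap k K α)
          (algebraMap k K (27 * β - 4 * D * α ^ 3 : 𝓞 k))) →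
      (E.baseChange L).IsElliptic ∧ Rep3 L (E.baseChange L)
        (C * (∏ v ∈ S₀, Ideal.absNorm v.asIdeal) ^ Module.finrank k L) := by
  -- the parameters over `K`
  obtain ⟨D', hD'⟩ : ∃ D' : 𝓞 K, D' = algebraMap (𝓞 k) (𝓞 K) D := ⟨_, rfl⟩
  obtain ⟨α', hα'⟩ : ∃ α' : 𝓞 K, α' = algebraMap (𝓞 k) (𝓞 K) α := ⟨_, rfl⟩
  obtain ⟨β', hβ'⟩ : ∃ β' : 𝓞 K, β' = algebraMap (𝓞 k) (𝓞 K) β := ⟨_, rfl⟩
  have cD : (D' : K) = algebraMap k K (D : k) := by rw [hD']; rfl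
  have cα : (α' : K) = algebraMap k K (α : k) := by rw [hα']; rfl
  have cβ : (β' : K) = algebraMap k K (β : k) := by rw [hβ']; rfl
  have hinj : Function.Injective (algebraMap (𝓞 k) (𝓞 K)) :=
    FaithfulSMul.algebraMap_injective (𝓞 k) (𝓞 K)
  have eγ : 27 * β' - 4 * D' * α' ^ 3 =
      algebraMap (𝓞 k) (𝓞 K) (27 * β - 4 * D * α ^ 3) := by
    rw [hD', hα', hβ', map_sub, map_mul, map_mul, map_mul, map_pow, map_ofNat, map_ofNat]
  have hD0' : D' ≠ 0 := by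
    rw [hD']
    exact (map_ne_zero_iff _ hinj).2 hD0
  have hβ0 : β' ≠ 0 := by
    rw [hβ']
    exact (map_ne_zero_iff _ hinj).2 hβ
  have hγ0 : 27 * β' - 4 * D' * α' ^ 3 ≠ 0 := by
    rw [eγ]
    exact (map_ne_zero_iff _ hinj).2 hγ
  have hm' : ∃ y : 𝓞 K, (m : 𝓞 K) = 6 * D' * β' * (27 * β' - 4 * D' * α' ^ 3) * y := by
    obtain ⟨y, hy⟩ := hm
    refine ⟨algebraMap (𝓞 k) (𝓞 K) y, ?_⟩
    rw [eγ, hD', hβ', ← map_intCast (algebraMap (𝓞 k) (𝓞 K)) m, hy, map_mul, map_mul, map_mul,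
      map_mul, map_ofNat]
  have hE' : ∀ E : WeierstrassCurve K,
      (E = curWD (algebraMap k K D) (algebraMap k K α) (algebraMap k K β) ∨
        E = curVD (algebraMap k K D) (algebraMap k K α)
          (algebraMap k K (27 * β - 4 * D * α ^ 3 : 𝓞 k))) →
      E = curWD (D' : K) (α' : K) (β' : K) ∨
      E = curVD (D' : K) (α' : K) (27 * (β' : K) - 4 * (D' : K) * (α' : K) ^ 3) := by
    intro E hE
    rcases hE with hE | hE
    · left
      rw [hE, cD, cα, cβ]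
    · right
      rw [hE, cD, cα, cβ]
      congr 1
      have : ((27 * β - 4 * D * α ^ 3 : 𝓞 k) : k) =
        27 * (β : k) - 4 * (D : k) * (α : k) ^ 3 := coe_gammaO
      rw [this, map_sub, map_mul, map_mul, map_mul, map_pow, map_ofNat, map_ofNat]
  -- the minus side
  by_cases h3 : ∀ z : K, z ^ 2 ≠ -3 * (D' : K)
  swap
  · refine ⟨0, fun L _ _ _ _ _ X => ?_⟩
    exfalso
    push Not at h3
    obtain ⟨z, hz⟩ := h3
    have ht00 : t0 ≠ 0 := by
      rintro rfl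
      rw [zero_pow two_ne_zero] at ht0
      have h1 : (D : k) = 0 := (map_eq_zero (algebraMap k κ)).1 ht0.symm
      exact coe_ne hD0 h1
    obtain ⟨C, _, _, _, _, _, _, _, s, hs, hgen, hn2, hM⟩ := X.mi t0 (D : k) ht00 ht0
    refine hn2 (algebraMap K L z) ?_
    rw [← map_pow, hz, cD]
  obtain ⟨n₂, F₂, _, _, _, s₂, Q₂, hF₂⟩ := exists_quad h3
  -- the real side
  by_cases hz : ∃ z : K, z ^ 2 = (D' : K)
  · obtain ⟨z, hz⟩ := hz
    obtain ⟨n₁, hF₁⟩ := exists_cls K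
    refine ⟨15 ^ (2 * nB K m) * n₁ * (3 ^ (2 * nB K m) * n₂), ?_⟩
    intro L _ _ _ _ _ X hunr E hE
    haveI := X.gal
    obtain ⟨S, hS3, hS, hSn⟩ := bad_set (L := L) hD9 hunr S₀ hS₀
    have hS' : ∀ w : HeightOneSpectrum (𝓞 L), (3 : 𝓞 L) ∈ w.asIdeal → w ∉ S →
        GoodVO (w.valuation L) (algebraMap K L (D' : K)) (algebraMap K L (α' : K))
          (algebraMap K L (β' : K)) := by
      intro w hw hw2
      rw [cD, cα, cβ, ← IsScalarTower.algebraMap_apply k K L,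
        ← IsScalarTower.algebraMap_apply k K L, ← IsScalarTower.algebraMap_apply k K L]
      exact hS w hw hw2
    obtain ⟨h1, h2⟩ := rep3_pair (L := L) hD0' hβ0 hγ0
      (fun V D'' a b u t hV e1 e2 e3 e4 e5 => real_part_one X hm0 hm' hunr S hS3 hS' hz hF₁ V
        D'' a b u t hV e1 e3 e4 e5)
      (fun V D'' a b u t hV e1 e2 e3 e4 e5 => minus_part X cD.symm hD0' ht0 hm0 hm' Q₂ hF₂ V
        D'' a b u t hV e1 e2 e3 e4 e5) E (hE' E hE)
    refine ⟨h1, h2.mono ?_⟩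
    calc 15 ^ (2 * nB K m) * ((∏ w ∈ S, Ideal.absNorm w.asIdeal) * n₁) * (3 ^ (2 * nB K m) * n₂)
        = 15 ^ (2 * nB K m) * n₁ * (3 ^ (2 * nB K m) * n₂) *
          (∏ w ∈ S, Ideal.absNorm w.asIdeal) := by ring
      _ ≤ _ := Nat.mul_le_mul_left _ hSn
  · have hz' : ∀ z : K, z ^ 2 ≠ (D' : K) := fun z h => hz ⟨z, h⟩
    obtain ⟨n₁, F₁, _, _, _, s₁, Q₁, hF₁⟩ := exists_quad hz'
    refine ⟨15 ^ (2 * nB K m) * n₁ * (3 ^ (2 * nB K m) * n₂), ?_⟩
    intro L _ _ _ _ _ X hunr E hE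
    haveI := X.gal
    obtain ⟨S, hS3, hS, hSn⟩ := bad_set (L := L) hD9 hunr S₀ hS₀
    have hS' : ∀ w : HeightOneSpectrum (𝓞 L), (3 : 𝓞 L) ∈ w.asIdeal → w ∉ S →
        GoodVO (w.valuation L) (algebraMap K L (D' : K)) (algebraMap K L (α' : K))
          (algebraMap K L (β' : K)) := by
      intro w hw hw2
      rw [cD, cα, cβ, ← IsScalarTower.algebraMap_apply k K L,
        ← IsScalarTower.algebraMap_apply k K L, ← IsScalarTower.algebraMap_apply k K L]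
      exact hS w hw hw2
    have hSD : ∀ w ∈ S, w.valuation L (algebraMap K L (D' : K)) = 1 ∨
        w.valuation L (algebraMap K L (D' : K)) = exp (-1 : ℤ) := by
      intro w hw
      obtain ⟨v, -, -, h3, -⟩ := good_up1 (α := α) (β := β) hD9 w (hS3 w hw) (hunr w (hS3 w hw))
      rw [cD, ← IsScalarTower.algebraMap_apply k K L]
      exact h3
    have hn : ∀ z : L, z ^ 2 ≠ algebraMap K L (D' : K) := by
      intro z hz2
      obtain ⟨y, hy⟩ := H11Q.sq_down X.odd hz2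
      exact hz' y hy
    obtain ⟨h1, h2⟩ := rep3_pair (L := L) hD0' hβ0 hγ0
      (fun V D'' a b u t hV e1 e2 e3 e4 e5 => real_part_two X cD.symm ht0 hm0 hm' hunr S hS3 hSD hS'
        hn Q₁ hF₁ V D'' a b u t hV e1 e2 e3 e4 e5)
      (fun V D'' a b u t hV e1 e2 e3 e4 e5 => minus_part X cD.symm hD0' ht0 hm0 hm' Q₂ hF₂ V
        D'' a b u t hV e1 e2 e3 e4 e5) E (hE' E hE)
    refine ⟨h1, h2.mono ?_⟩
    calc 15 ^ (2 * nB K m) * ((∏ w ∈ S, Ideal.absNorm w.asIdeal) * n₁) * (3 ^ (2 * nB K m) * n₂)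
        = 15 ^ (2 * nB K m) * n₁ * (3 ^ (2 * nB K m) * n₂) *
          (∏ w ∈ S, Ideal.absNorm w.asIdeal) := by ring
      _ ≤ _ := Nat.mul_le_mul_left _ hSn

/-- The upper bound in the tower. -/
theorem towerE (p : ℕ) [Fact p.Prime] (hp : 5 ≤ p) {k κ : Type} [Field k] [NumberField k]
    [Field κ] [NumberField κ] [Algebra k κ] (hκ : LType 3 κ) {t0 : κ}
    (hgenκ : IntermediateField.adjoin k {t0} = ⊤) {D : 𝓞 k}
    (ht0 : t0 ^ 2 = algebraMap k κ (D : k)) (hD0 : D ≠ 0) (hk : H68TK.Unr3 k)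
    (hD9 : ∀ v : HeightOneSpectrum (𝓞 k), (3 : 𝓞 k) ∈ v.asIdeal → D ∉ v.asIdeal ^ 2)
    {α β : 𝓞 k} (hβ : β ≠ 0) (hγ : 27 * β - 4 * D * α ^ 3 ≠ 0)
    (S₀ : Finset (HeightOneSpectrum (𝓞 k)))
    (hS₀ : ∀ v : HeightOneSpectrum (𝓞 k), (3 : 𝓞 k) ∈ v.asIdeal → v ∉ S₀ → GoodD v D α β) :
    ∃ N : ℕ, ∀ (K : Type) [Field K] [NumberField K] [Algebra k K],
      p ^ N ∣ Module.finrank ℚ K → ∃ C : ℕ, ∀ (L : Type) [Field L] [NumberField L] [Algebra k L]
      [Algebra K L] [IsScalarTower k K L], Lay p k L → (∃ i : ℕ, Module.finrank K L = p ^ i) →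
      ∀ E : WeierstrassCurve K, (E = curWD (algebraMap k K D) (algebraMap k K α) (algebraMap k K β) ∨
        E = curVD (algebraMap k K D) (algebraMap k K α)
          (algebraMap k K (27 * β - 4 * D * α ^ 3 : 𝓞 k))) →
      (E.baseChange L).IsElliptic ∧ Rep3 L (E.baseChange L)
        (C * (∏ v ∈ S₀, Ideal.absNorm v.asIdeal) ^ Module.finrank k L) := by
  have hf3 : Fact (Nat.Prime 3) := ⟨Nat.prime_three⟩
  haveI hcyc : IsCyclotomicExtension {1} κ κ :=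
    IsCyclotomicExtension.singleton_one_of_algebraMap_bijective (fun x => ⟨x, rfl⟩)
  obtain ⟨M, N, _, _, ν, J, h3M, hM, hNG, hLT, hJ⟩ := exists_comp (l := 3) (m := 3) (f := 1) hκ
    (by norm_num) one_ne_zero κ
  haveI := hNG
  letI : Algebra κ N := ν.toAlgebra
  letI : Algebra k N := (ν.comp (algebraMap k κ)).toAlgebra
  haveI : IsScalarTower k κ N := IsScalarTower.of_algebraMap_eq fun x => rfl
  have hkr : IsTotallyReal k := by
    haveI := hκ.1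
    exact IsTotallyReal.of_algebra k κ
  have hne : 6 * D * β * (27 * β - 4 * D * α ^ 3) ≠ 0 :=
    mul_ne_zero (mul_ne_zero (mul_ne_zero (by norm_num) hD0) hβ) hγ
  obtain ⟨m, hm0, hm⟩ := exists_mult hne
  obtain ⟨N0, hN0⟩ := layer_conf (p := p) hp hM h3M hkr hκ.1 hLT hJ hm0 hgenκ
  refine ⟨N0 + padicValNat p (Module.finrank ℚ k), ?_⟩
  intro K _ _ _ hK
  obtain ⟨C, hC⟩ := pair_bound (K := K) hD0 ht0 hβ hγ hm0 hm hD9 S₀ hS₀
  refine ⟨C, ?_⟩
  intro L _ _ _ _ _ hL ⟨i, hi⟩ E hE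
  obtain ⟨L', _, _, h, hR, hgen⟩ := lay_gen hL
  obtain ⟨K', _, _, _, ⟨C', hC'⟩, hd, hN'⟩ := decompose_l (K := K) h hR hgen
  have e1 : C'.f = algebraMap k K := RingHom.ext hC'
  have X := hN0 K' L' K L C' hR ⟨i, by rw [hd, hi]⟩ (hN' N0 hK)
  rw [e1] at X
  refine hC L X ?_ E hE
  intro w hw
  have h3 : H68TK.Unr3 L := H68TK.unr3_gen (k := k) (p := p) (by omega) hk h hR hgen
  exact H68TK.val_three_of_unram hw (h3 w hw)

end H55E
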