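import Pool.Agent.H55.T3.Kdf

/-!
Row Ua: cyclic Galois groups. (Mathlib facts; no arithmetic.)

PROOF. (1) gal_cyclic: C := CyclotomicField (p ^ (n + 1)) k is a cyclotomic extension of k (CyclotomicField.isCyclotomicExtension), finite Galois. `IsCyclotomicExtension.zeta_spec`: a primitive root ζ; `(zeta_spec ..).autToPow k : (C ≃ₐ[k] C) →* (ZMod (p ^ (n + 1)))ˣ` is injective (IsPrimitiveRoot.autToPow_injective); `ZMod.isCyclic_units_of_prime_pow p hp hp2 (n + 1)`, isCyclic_of_injective.
 (2) exists_sub: G := Gal(Ω/k) cyclic, finite of order `finrank k Ω = d e`, H := the powers of `g ^ d` for a generator g; F := fixedField H.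
 (3) sub_le: compare the fixing subgroups. In a cyclic group a subgroup whose order divides the order of another one is contained in it (`IsCyclic.card_pow_eq_one_le`).
-/

set_option autoImplicit false
open scoped Classical

open NumberField

namespace H55E

theorem gal_cyclic {p : ℕ} (hp : p.Prime) (hp2 : p ≠ 2) (k : Type) [Field k] [NumberField k]
    (n : ℕ) : IsGalois k (CyclotomicField (p ^ (n + 1)) k) ∧
      IsCyclic (CyclotomicField (p ^ (n + 1)) k ≃ₐ[k] CyclotomicField (p ^ (n + 1)) k) := by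
  have hne : NeZero (p ^ (n + 1)) := ⟨pow_ne_zero _ hp.ne_zero⟩
  have hcyc : IsCyclotomicExtension {p ^ (n + 1)} k (CyclotomicField (p ^ (n + 1)) k) := inferInstance
  have hG : IsGalois k (CyclotomicField (p ^ (n + 1)) k) :=
    IsCyclotomicExtension.isGalois {p ^ (n + 1)} k _
  have h1 : IsCyclic (ZMod (p ^ (n + 1)))ˣ := ZMod.isCyclic_units_of_prime_pow p hp hp2 (n + 1)
  refine ⟨hG, ?_⟩
  have hz := IsCyclotomicExtension.zeta_spec (p ^ (n + 1)) k (CyclotomicField (p ^ (n + 1)) k)
  exact isCyclic_of_injective (hz.autToPow k) (hz.autToPow_injective k)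

theorem exists_sub {k Ω : Type} [Field k] [Field Ω] [Algebra k Ω] [FiniteDimensional k Ω]
    [IsGalois k Ω] (hc : IsCyclic (Ω ≃ₐ[k] Ω)) {d : ℕ} (hd : d ∣ Module.finrank k Ω) :
    ∃ F : IntermediateField k Ω, Module.finrank k F = d := by
  obtain ⟨g, hg⟩ := hc.exists_ofOrder_eq_natCard
  obtain ⟨e, he⟩ := hd
  have hcard : Nat.card (Ω ≃ₐ[k] Ω) = Module.finrank k Ω := IsGalois.card_aut_eq_finrank k Ω
  have hpos : 0 < Module.finrank k Ω := Module.finrank_pos
  have hd0 : d ≠ 0 := by
    rintro rfl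
    rw [zero_mul] at he
    omega
  have he0 : e ≠ 0 := by
    rintro rfl
    rw [mul_zero] at he
    omega
  have hord : orderOf (g ^ d) = e := by
    rw [orderOf_pow_of_dvd hd0 (by rw [hg, hcard, he]; exact Dvd.intro _ rfl), hg, hcard, he]
    exact Nat.mul_div_cancel_left e (Nat.pos_of_ne_zero hd0)
  refine ⟨IntermediateField.fixedField (Subgroup.zpowers (g ^ d)), ?_⟩
  have h1 := IntermediateField.finrank_fixedField_eq_card (F := k) (E := Ω) (Subgroup.zpowers (g ^ d))
  rw [Nat.card_zpowers, hord] at h1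
  have h2 := Module.finrank_mul_finrank k (IntermediateField.fixedField (Subgroup.zpowers (g ^ d))) Ω
  rw [h1, he] at h2
  exact Nat.eq_of_mul_eq_mul_right (Nat.pos_of_ne_zero he0) h2

/-- In a finite cyclic group, a subgroup whose order divides that of another one lies in it. -/
theorem cyclic_le {Q : Type} [Group Q] [Finite Q] (hc : IsCyclic Q) (S R : Subgroup Q)
    (h : Nat.card S ∣ Nat.card R) : S ≤ R := by
  have hR0 : Nat.card R ≠ 0 := Nat.card_pos.ne'
  intro s hs
  have h5 : s ^ (Nat.card S) = 1 := by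
    have h6 : (⟨s, hs⟩ : S) ^ Nat.card S = 1 := pow_card_eq_one'
    exact congrArg Subtype.val h6
  have h7 : s ^ Nat.card R = 1 := by
    obtain ⟨c, hc⟩ := h
    rw [hc, pow_mul, h5, one_pow]
  let _ : Fintype Q := Fintype.ofFinite Q
  have h8 := IsCyclic.card_pow_eq_one_le (α := Q) (Nat.pos_of_ne_zero hR0)
  have h9 : (R : Set Q).toFinset ⊆ Finset.univ.filter (fun a : Q => a ^ Nat.card R = 1) := by
    intro x hx
    rw [Set.mem_toFinset] at hx
    rw [Finset.mem_filter]
    refine ⟨Finset.mem_univ _, ?_⟩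
    have h6 : (⟨x, hx⟩ : R) ^ Nat.card R = 1 := pow_card_eq_one'
    exact congrArg Subtype.val h6
  have h10 : (R : Set Q).toFinset = Finset.univ.filter (fun a : Q => a ^ Nat.card R = 1) := by
    refine Finset.eq_of_subset_of_card_le h9 (h8.trans ?_)
    rw [Set.toFinset_card, ← Nat.card_eq_fintype_card]
    exact le_rfl
  have h11 : s ∈ (R : Set Q).toFinset := by
    rw [h10, Finset.mem_filter]
    exact ⟨Finset.mem_univ _, h7⟩
  rw [Set.mem_toFinset] at h11
  exact h11

theorem sub_le {k Ω : Type} [Field k] [Field Ω] [Algebra k Ω] [FiniteDimensional k Ω]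
    [IsGalois k Ω] (hc : IsCyclic (Ω ≃ₐ[k] Ω)) {F₁ F₂ : IntermediateField k Ω}
    (h : Module.finrank k F₁ ∣ Module.finrank k F₂) : F₁ ≤ F₂ := by
  have h1 : Nat.card F₁.fixingSubgroup = Module.finrank F₁ Ω :=
    IsGalois.card_fixingSubgroup_eq_finrank F₁
  have h2 : Nat.card F₂.fixingSubgroup = Module.finrank F₂ Ω :=
    IsGalois.card_fixingSubgroup_eq_finrank F₂
  have h3 := Module.finrank_mul_finrank k F₁ Ω
  have h4 := Module.finrank_mul_finrank k F₂ Ω
  have h5 : Nat.card F₂.fixingSubgroup ∣ Nat.card F₁.fixingSubgroup := by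
    rw [h1, h2]
    obtain ⟨c, hc⟩ := h
    have h6 : 0 < Module.finrank k F₁ := Module.finrank_pos
    refine ⟨c, Nat.eq_of_mul_eq_mul_left h6 ?_⟩
    rw [h3, ← h4, hc]
    ring
  have h6 := cyclic_le hc _ _ h5
  have h7 := IntermediateField.fixedField_le h6
  rw [IsGalois.fixedField_fixingSubgroup, IsGalois.fixedField_fixingSubgroup] at h7
  exact h7

end H55E
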